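import Pool.Agent.Lib.MP_8f66f0_al_Wald.K1Lem

/-!
# Theorem CC: relative invariants

`KR R J K` is the relative version of `K1Fun`: an invariant of the invertible matrices over `R` which are
congruent to `1` modulo the two-sided ideal `J`. All ideals are two-sided. `Ex ε z = 1 + ε (z - 1)` is the
extension by `1` along a non-unital ring homomorphism.
-/

set_option autoImplicit false

namespace Pool.Agent.CC

open Pool.Agent.Wald Matrix

/-- Congruence of matrices. -/
def Cg {R : Type} [Ring R] (J : Ideal R) {m n : Type} (a b : Matrix m n R) : Prop :=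
  ∀ i j, a i j - b i j ∈ J

/-- Local units. -/
def LU {R : Type} [Ring R] (J : Ideal R) : Prop :=
  ∀ s : Finset R, (∀ x ∈ s, x ∈ J) → ∃ e ∈ J, e * e = e ∧ ∀ x ∈ s, e * x = x ∧ x * e = x

/-- Extension by `1` along a non-unital ring homomorphism. -/
def Ex {R S : Type} [Ring R] [Ring S] (ε : S →ₙ+* R) {n : Type} [DecidableEq n]
    (z : Matrix n n S) : Matrix n n R := 1 + (z - 1).map ε

/-- An invariant of the invertible matrices which are `1` modulo `J`. -/
structure KR (R : Type) [Ring R] (J : Ideal R) (K : Type) [CommGroup K] where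
  /-- the invariant (only its values at invertible matrices which are `1` modulo `J` matter) -/
  f : ∀ {n : Type} [Fintype n] [DecidableEq n], Matrix n n R → K
  mul : ∀ {n : Type} [Fintype n] [DecidableEq n] (A B : Matrix n n R), IsUnit A → IsUnit B →
    Cg J A 1 → Cg J B 1 → f (A * B) = f A * f B
  reindex : ∀ {n m : Type} [Fintype n] [DecidableEq n] [Fintype m] [DecidableEq m] (e : n ≃ m)
    (A : Matrix n n R), IsUnit A → Cg J A 1 → f (A.submatrix e.symm e.symm) = f A
  tri : ∀ {n m : Type} [Fintype n] [DecidableEq n] [Fintype m] [DecidableEq m]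
    (A : Matrix n n R) (B : Matrix n m R) (D : Matrix m m R), IsUnit A → IsUnit D →
    Cg J A 1 → Cg J B 0 → Cg J D 1 → f (Matrix.fromBlocks A B 0 D) = f A * f D

/-- Conjugation invariance (Vaserstein: `κ (1 + a b) = κ (1 + b a)` for `a, b` over `J`). -/
def S_conj : Prop :=
  ∀ (R : Type) [Ring R] (J : Ideal R) [J.IsTwoSided] (K : Type) [CommGroup K] (κ : KR R J K),
    LU J → ∀ (n : Type) [Fintype n] [DecidableEq n] (g g' z : Matrix n n R), g * g' = 1 →
      g' * g = 1 → IsUnit z → Cg J z 1 → κ.f (g * z * g') = κ.f z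

/-- The data of a step from `J'` to `J`: rings `T b`, ideals `I b` and corner inclusions
`ε b : T b → R` modulo `J'`, indexed by a directed order. -/
structure Lad (R : Type) [Ring R] (J' J : Ideal R) (β : Type) [Preorder β] (T : β → Type)
    [∀ b, Ring (T b)] (I : ∀ b, Ideal (T b)) (ε : ∀ b, T b →ₙ+* R) : Prop where
  le : J' ≤ J
  dir : ∀ b c : β, ∃ d, b ≤ d ∧ c ≤ d
  mem : ∀ b x, ε b x ∈ J
  pre : ∀ b x, ε b x ∈ J' ↔ x ∈ I b
  /-- corners modulo `J'` -/
  cor : ∀ b, ∀ x ∈ J, ∃ c : T b, ε b 1 * x * ε b 1 - ε b c ∈ J'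
  mono : ∀ b b', b ≤ b' → ∀ c : T b, ∃ c' : T b', ε b c - ε b' c' ∈ J'
  dec : ∀ x ∈ J, ∃ b, ∃ c : T b, x - ε b c ∈ J'

/-- A class of special matrices. -/
structure Spc (R : Type) [Ring R] (J : Ideal R)
    (M : ∀ (n : Type) [Fintype n] [DecidableEq n], Matrix n n R → Prop) : Prop where
  unit : ∀ (n : Type) [Fintype n] [DecidableEq n] (z : Matrix n n R), M n z → IsUnit z ∧ Cg J z 1
  one : ∀ (n : Type) [Fintype n] [DecidableEq n], M n 1
  inv : ∀ (n : Type) [Fintype n] [DecidableEq n] (z z' : Matrix n n R), M n z → z * z' = 1 →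
    z' * z = 1 → M n z'
  sum : ∀ (n m : Type) [Fintype n] [DecidableEq n] [Fintype m] [DecidableEq m]
    (z : Matrix n n R) (w : Matrix m m R), M n z → M m w → M (n ⊕ m) (fromBlocks z 0 0 w)
  reindex : ∀ (n m : Type) [Fintype n] [DecidableEq n] [Fintype m] [DecidableEq m] (e : n ≃ m)
    (z : Matrix n n R), M n z → M m (z.submatrix e.symm e.symm)

/-- Generation: an invertible matrix `z = 1 mod J` which comes from `T b` modulo `J'` is, after adding a
special matrix, the image of an invertible matrix over `T b` modulo `J'`. -/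
def Gen {R : Type} [Ring R] (J' J : Ideal R) {β : Type} (T : β → Type)
    [∀ b, Ring (T b)] (ε : ∀ b, T b →ₙ+* R)
    (M : ∀ (n : Type) [Fintype n] [DecidableEq n], Matrix n n R → Prop) : Prop :=
  ∀ (b : β) (n : Type) [Fintype n] [DecidableEq n] (z : Matrix n n R) (z' : Matrix n n (T b)),
    IsUnit z → Cg J z 1 → Cg J' z (Ex (ε b) z') →
    ∃ (m : Type) (_ : Fintype m) (_ : DecidableEq m) (w : Matrix m m R)
      (r : Matrix (n ⊕ m) (n ⊕ m) (T b)), M m w ∧ IsUnit r ∧
      Cg J' (fromBlocks z 0 0 w) (Ex (ε b) r)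

/-- All `K1Fun`s are trivial. -/
def Flq (T : Type) [Ring T] : Prop :=
  ∀ (K : Type) [CommGroup K] (κ : K1Fun T K) (n : Type) [Fintype n] [DecidableEq n]
    (z : Matrix n n T), IsUnit z → κ.f z = 1

/-- Uniqueness: an invariant on `J` which kills `J'` and the special matrices is trivial. -/
def S_uni : Prop :=
  ∀ (R : Type) [Ring R] (J' J : Ideal R) [J'.IsTwoSided] [J.IsTwoSided] (β : Type) [Preorder β]
    (T : β → Type) [∀ b, Ring (T b)] (I : ∀ b, Ideal (T b)) (ε : ∀ b, T b →ₙ+* R)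
    (M : ∀ (n : Type) [Fintype n] [DecidableEq n], Matrix n n R → Prop),
    Lad R J' J β T I ε → Spc R J M → Gen J' J T ε M → (∀ b, Flq (T b)) →
    ∀ (K : Type) [CommGroup K] (κ : KR R J K),
    (∀ (n : Type) [Fintype n] [DecidableEq n] (z : Matrix n n R), IsUnit z → Cg J' z 1 →
      κ.f z = 1) →
    (∀ (n : Type) [Fintype n] [DecidableEq n] (z : Matrix n n R), M n z → κ.f z = 1) →
    ∀ (n : Type) [Fintype n] [DecidableEq n] (z : Matrix n n R), IsUnit z → Cg J z 1 → κ.f z = 1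

/-- Extension: an invariant `κ` on `J'` extends to an invariant on `J` which kills the special matrices.

PROOF. `V b z k` : there are `m`, special `w`, invertible `r`, `x` with `x = 1 mod J'`,
`z ⊕ w = Ex r * x` and `κ x = k`.
(1) `k` is determined by `b`, `z`: if `z ⊕ w₁ = Ex r₁ x₁`, `z ⊕ w₂ = Ex r₂ x₂`, then in the blocks
`n, m₁, m₂`: `1 ⊕ w₁⁻¹ ⊕ w₂ = Ex (r₂ r₁⁻¹) * (Ex r₁ x₂ x₁⁻¹ Ex r₁⁻¹)`, so `κ (x₂ x₁⁻¹) = 1` by `triv` and
`S_conj`. (2) multiplicative: `z₁ z₂ ⊕ w₁ ⊕ w₂ = Ex (r₁ r₂) * (Ex r₂⁻¹ x₁ Ex r₂ * x₂)`. (3) triangular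
matrices with the upper block `ε b c + c''`, `c''` over `J'`: the value at `[1, B; 0, 1]` is `1`.
(4) for `b ≤ b'`: `r ↦ V b' (Ex (ε b) r)` is a `K1Fun` on `T b`, trivial; special matrices have value `1`
(by `triv` with `n = Empty`); so the values for `b` and `b'` agree. -/
def S_ext : Prop :=
  ∀ (R : Type) [Ring R] (J' J : Ideal R) [J'.IsTwoSided] [J.IsTwoSided] (β : Type) [Preorder β]
    [Nonempty β] (T : β → Type) [∀ b, Ring (T b)] (I : ∀ b, Ideal (T b)) (ε : ∀ b, T b →ₙ+* R)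
    (M : ∀ (n : Type) [Fintype n] [DecidableEq n], Matrix n n R → Prop),
    Lad R J' J β T I ε → Spc R J M → Gen J' J T ε M → (∀ b, Flq (T b)) → LU J' →
    ∀ (K : Type) [CommGroup K] (κ : KR R J' K),
    (∀ (b : β) (n m : Type) [Fintype n] [DecidableEq n] [Fintype m] [DecidableEq m]
      (w : Matrix m m R) (r : Matrix (n ⊕ m) (n ⊕ m) (T b)) (x : Matrix (n ⊕ m) (n ⊕ m) R),
      M m w → IsUnit r → IsUnit x → Cg J' x 1 → fromBlocks 1 0 0 w = Ex (ε b) r * x →
      κ.f x = 1) →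
    ∃ κ' : KR R J K,
      (∀ (n : Type) [Fintype n] [DecidableEq n] (z : Matrix n n R), IsUnit z → Cg J' z 1 →
        κ'.f z = κ.f z) ∧
      ∀ (n : Type) [Fintype n] [DecidableEq n] (z : Matrix n n R), M n z → κ'.f z = 1

end Pool.Agent.CC
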