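import Pool.Agent.Lib.MP_8f66f0_al_TQ.LemK
import Pool.Agent.Lib.MP_8f66f0_al_TQ.Ker
import Pool.Agent.Lib.MP_8f66f0_al_CC.End.KR

/-!
# Theorem CC: finite matrices, monomial matrices and rays, for the ring `RCF Y A`

`Jfin Y A` is the ideal of the finite matrices, `blk s z` the block of `z` on the finite set `s` of
objects. A ray is an injective sequence of objects; `shR ρ` is the isometry which moves `ρ n` to
`ρ (n + 1)`, `shL ρ` is the adjoint. `Mon z`: a monomial matrix with entries in the group.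
-/

set_option autoImplicit false

namespace Pool.Agent.CC

open Pool.Agent.Wald Pool.Agent.TQ Pool.Agent.Ind Pool.Agent.WaldL Pool.Agent.FH Matrix

section A

variable (Y A : Type) [Ring A]

/-- The ideal of the matrices with finitely many entries. -/
def Jfin : Ideal (RCF Y A) where
  carrier := {z | {p : Y × Y | ent z p.1 p.2 ≠ 0}.Finite}
  add_mem' := by
    intro a b ha hb
    refine Set.Finite.subset (ha.union hb) fun p hp => ?_
    by_contra h
    rw [Set.mem_union, not_or] at h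
    have h1 : ent a p.1 p.2 = 0 := by simpa using h.1
    have h2 : ent b p.1 p.2 = 0 := by simpa using h.2
    refine hp ?_
    rw [ent_add, h1, h2, add_zero]
  zero_mem' := by
    have : {p : Y × Y | ent (0 : RCF Y A) p.1 p.2 ≠ 0} = ∅ := by
      ext p
      simp [ent_zero]
    rw [Set.mem_ofPred_eq, this]
    exact Set.finite_empty
  smul_mem' := by
    intro r z hz
    have h1 : (⋃ p ∈ {p : Y × Y | ent z p.1 p.2 ≠ 0},
        (fun y => (y, p.2)) '' {y | ent r y p.1 ≠ 0}).Finite :=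
      Set.Finite.biUnion hz fun p _ => (ent_col r p.1).image _
    refine h1.subset fun p hp => ?_
    rw [smul_eq_mul] at hp
    obtain ⟨v, hv⟩ := exists_of_ent_mul hp
    simp only [Set.mem_iUnion]
    exact ⟨(v, p.2), right_ne_zero_of_mul hv, p.1, left_ne_zero_of_mul hv, rfl⟩

theorem mem_Jfin (z : RCF Y A) : z ∈ Jfin Y A ↔ {p : Y × Y | ent z p.1 p.2 ≠ 0}.Finite := Iff.rfl

instance : (Jfin Y A).IsTwoSided where
  mul_mem_of_left := by
    intro z r hz
    have h1 : (⋃ p ∈ {p : Y × Y | ent z p.1 p.2 ≠ 0},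
        (fun y => (p.1, y)) '' {y | ent r p.2 y ≠ 0}).Finite :=
      Set.Finite.biUnion hz fun p _ => (ent_row r p.2).image _
    refine h1.subset fun p hp => ?_
    obtain ⟨v, hv⟩ := exists_of_ent_mul hp
    simp only [Set.mem_iUnion]
    exact ⟨(p.1, v), left_ne_zero_of_mul hv, p.2, right_ne_zero_of_mul hv, rfl⟩

variable {Y A}

/-- The block of a matrix on a finite set of objects. -/
noncomputable def blk (s : Finset Y) {n : Type} (z : Matrix n n (RCF Y A)) :
    Matrix (n × s) (n × s) A := fun p q => ent (z p.1 q.1) p.2 q.2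

/-- `z - 1` is supported on `s`. -/
def Spp (s : Finset Y) {n : Type} [DecidableEq n] (z : Matrix n n (RCF Y A)) : Prop :=
  ∀ i j y' y, ent (z i j - (1 : Matrix n n (RCF Y A)) i j) y' y ≠ 0 → y ∈ s ∧ y' ∈ s

/-- The invariant of the finite matrices. -/
def S_fin0 : Prop :=
  ∀ (Y A K : Type) [Ring A] [CommGroup K] (κ : K1Fun A K), ∃ κ0 : KR (RCF Y A) (Jfin Y A) K,
    ∀ (n : Type) [Fintype n] [DecidableEq n] [DecidableEq Y] (z : Matrix n n (RCF Y A))
      (s : Finset Y), IsUnit z → Spp s z → κ0.f z = κ.f (blk s z)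

/-! ### Rays -/

open Classical in
theorem shR_row (ρ : ℕ ↪ Y) (y : Y) : {x | (if (∃ n, x = ρ n ∧ y = ρ (n + 1)) ∨
    (x ∉ Set.range ρ ∧ y = x) then (1 : A) else 0) ≠ 0}.Finite := by
  have h1 : {n | y = ρ (n + 1)}.Subsingleton := fun n hn m hm => by
    have := ρ.injective ((show y = ρ (n + 1) from hn).symm.trans hm)
    omega
  refine ((h1.finite.image ρ).union (Set.finite_singleton y)).subset fun x hx => ?_
  rw [Set.mem_ofPred_eq, ne_eq, ite_eq_right_iff, Classical.not_imp] at hx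
  rcases hx.1 with ⟨n, rfl, hn⟩ | ⟨_, h⟩
  · exact Or.inl ⟨n, hn, rfl⟩
  · exact Or.inr h.symm

open Classical in
theorem shR_col (ρ : ℕ ↪ Y) (x : Y) : {y | (if (∃ n, x = ρ n ∧ y = ρ (n + 1)) ∨
    (x ∉ Set.range ρ ∧ y = x) then (1 : A) else 0) ≠ 0}.Finite := by
  have h1 : {n | x = ρ n}.Subsingleton := fun n hn m hm =>
    ρ.injective ((show x = ρ n from hn).symm.trans hm)
  refine ((h1.finite.image fun n => ρ (n + 1)).union (Set.finite_singleton x)).subset
    fun y hy => ?_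
  rw [Set.mem_ofPred_eq, ne_eq, ite_eq_right_iff, Classical.not_imp] at hy
  rcases hy.1 with ⟨n, hn, rfl⟩ | ⟨_, h⟩
  · exact Or.inl ⟨n, hn, rfl⟩
  · exact Or.inr h

open Classical in
/-- The isometry of a ray: `ρ n ↦ ρ (n + 1)`, the identity outside the ray. -/
noncomputable def shR (A : Type) [Ring A] (ρ : ℕ ↪ Y) : RCF Y A :=
  mkK (fun y x => if (∃ n, x = ρ n ∧ y = ρ (n + 1)) ∨ (x ∉ Set.range ρ ∧ y = x) then 1 else 0)
    (shR_row ρ) (shR_col ρ)

open Classical in
/-- The adjoint of `shR`. -/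
noncomputable def shL (A : Type) [Ring A] (ρ : ℕ ↪ Y) : RCF Y A :=
  mkK (fun x y => if (∃ n, x = ρ n ∧ y = ρ (n + 1)) ∨ (x ∉ Set.range ρ ∧ y = x) then 1 else 0)
    (shR_col ρ) (shR_row ρ)

/-- `shR`, `1` or `shL`. -/
noncomputable def shE (A : Type) [Ring A] (ρ : ℕ ↪ Y) (e : SignType) : RCF Y A :=
  match e with
  | SignType.zero => 1
  | SignType.pos => shR A ρ
  | SignType.neg => shL A ρ

/-- The diagonal matrix of shifts. -/
noncomputable def dg (A : Type) [Ring A] {m : Type} [DecidableEq m] (ρ : m → ℕ ↪ Y)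
    (e : m → SignType) : Matrix m m (RCF Y A) := diagonal fun l => shE A (ρ l) (e l)

/-- `shL * shR = 1` and `shR * shL = 1 - E(ρ 0, ρ 0)`. -/
def S_sh : Prop :=
  ∀ (Y A : Type) [Ring A] (ρ : ℕ ↪ Y), shL A ρ * shR A ρ = 1 ∧
    (∀ y x, ent (shR A ρ * shL A ρ) y x ≠ 0 → y = x ∧ x ≠ ρ 0) ∧
    (∀ x, x ≠ ρ 0 → ent (shR A ρ * shL A ρ) x x = 1)

/-- Fredholm index: an invertible matrix over a field which is a diagonal matrix of shifts up to a
finite matrix: the sum of the signs is `0`. -/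
def S_idx0 : Prop :=
  ∀ (Y F : Type) [Field F] (m : Type) [Fintype m] [DecidableEq m] (ρ : m → ℕ ↪ Y)
    (e : m → SignType) (r : Matrix m m (RCF Y F)), IsUnit r → Cg (Jfin Y F) r (dg F ρ e) →
    ∑ l, ((e l : SignType) : ℤ) = 0

end A

section M

variable {Y k Γ : Type} [CommRing k] [Group Γ]

/-- Monomial matrices with entries in the group. -/
def Mon {m : Type} (z : Matrix m m (RCF Y (MonoidAlgebra k Γ))) : Prop :=
  ∃ (σ : Equiv.Perm (m × Y)) (g : m × Y → Γ), ∀ i j y' y x,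
    (σ (j, y) = (i, y') ∧ x = g (j, y) → cf (z i j) x y' y = 1) ∧
    (¬ (σ (j, y) = (i, y') ∧ x = g (j, y)) → cf (z i j) x y' y = 0)

/-- Products, inverses and sums of monomial matrices. -/
def S_monc : Prop :=
  ∀ (Y k Γ : Type) [CommRing k] [Group Γ] [DecidableEq Y],
    (∀ (m : Type) [Fintype m] [DecidableEq m], Mon (1 : Matrix m m (RCF Y (MonoidAlgebra k Γ)))) ∧
    (∀ (m : Type) [Fintype m] [DecidableEq m] (z w : Matrix m m (RCF Y (MonoidAlgebra k Γ))),
      Mon z → Mon w → Mon (z * w)) ∧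
    (∀ (m : Type) [Fintype m] [DecidableEq m] (z w : Matrix m m (RCF Y (MonoidAlgebra k Γ))),
      Mon z → z * w = 1 → w * z = 1 → Mon w) ∧
    (∀ (m n : Type) [Fintype m] [DecidableEq m] [Fintype n] [DecidableEq n]
      (z : Matrix m m (RCF Y (MonoidAlgebra k Γ))) (w : Matrix n n (RCF Y (MonoidAlgebra k Γ))),
      Mon z → Mon w → Mon (fromBlocks z 0 0 w)) ∧
    (∀ (m n : Type) [Fintype m] [DecidableEq m] [Fintype n] [DecidableEq n] (e : m ≃ n)
      (z : Matrix m m (RCF Y (MonoidAlgebra k Γ))), Mon z → Mon (z.submatrix e.symm e.symm))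

/-- Finite monomial matrices are killed. -/
def S_mon0 : Prop :=
  ∀ (Y L Γ K : Type) [CommRing L] [Nontrivial L] [Group Γ] [CommGroup K]
    (κ : K1Fun (MonoidAlgebra L Γ) K), KU κ → ∀ (m : Type) [Fintype m] [DecidableEq m]
    [DecidableEq Y] (s : Finset Y) (z : Matrix m m (RCF Y (MonoidAlgebra L Γ))), Mon z →
    Spp s z → κ.f (blk s z) = 1

/-- Finite matrices which respect labels with stabilizers in `KK` are killed. -/
def S_lab0 : Prop :=
  ∀ (Y L Γ K C : Type) [CommRing L] [IsDomain L] [Group Γ] [CommGroup K] [MulAction Γ C],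
    IsEuc L → ∀ (κ : K1Fun (MonoidAlgebra L Γ) K), KU κ → ∀ (m : Type) [Fintype m]
    [DecidableEq m] [DecidableEq Y] (s : Finset Y) (lab : Y → C)
    (z z' : Matrix m m (RCF Y (MonoidAlgebra L Γ))), z * z' = 1 → z' * z = 1 → Spp s z →
    (∀ i j g y' y, cf (z i j) g y' y ≠ 0 → lab y' = g • lab y) →
    (∀ i j g y' y, cf (z' i j) g y' y ≠ 0 → lab y' = g • lab y) →
    (∀ y ∈ s, KK (MulAction.stabilizer Γ (lab y))) → κ.f (blk s z) = 1

end M

end Pool.Agent.CC
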