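import Pool.Agent.Lib.MP_8f66f0_al_CC.Sys.Defs
import Pool.Agent.Lib.MP_8f66f0_al_CC.End.Ray

/-!
# Theorem CC: statements of the sections 4 and 5 (generation M1, extension M2) and of the homotopy

`rcf z` is the matrix `z` over `U Γ k S` as a matrix over the ring of all row and column finite matrices.
`Sp S` is the class of the special matrices (section 4: products of ray monomials): the monomial matrices
which are, up to a finite matrix, diagonal matrices of shifts along rays of `S`.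
`Lft S f`: invertible matrices modulo `J f` lift; `Lft1 S`: invertible matrices modulo `J 0` lift after
adding shifts along rays.
-/

set_option autoImplicit false

namespace Pool.Agent.CC

open Pool.Agent.Wald Pool.Agent.TQ Pool.Agent.Ind Pool.Agent.WaldL Pool.Agent.FH Matrix
open scoped Pointwise Polynomial

section Defs

variable {O Y C Γ k : Type} [DecidableEq O] [Group Γ] [MulAction Γ O] [MulAction Γ C] [CommRing k]

/-- A matrix over `U` as a matrix over `RCF`. -/
abbrev rcf {S : Sys O Y C} {m n : Type} (z : Matrix m n (U Γ k S)) :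
    Matrix m n (RCF Y (MonoidAlgebra k Γ)) := z.map Subtype.val

/-- Rays of a system: the label of one slot moves. -/
def IsRay (S : Sys O Y C) (ρ : ℕ ↪ Y) : Prop :=
  ∃ o, o ∈ S.F 0 (ρ 0) ∧ ∀ n, ρ (n + 1) = S.re (fun o' m => if o' = o then m + 1 else m) (ρ n)

/-- A shift (outwards for `true`) along a ray, or the identity. -/
noncomputable def shO (A : Type) [Ring A] (r : Option (Bool × (ℕ ↪ Y))) : RCF Y A :=
  match r with
  | none => 1
  | some (true, ρ) => shR A ρ
  | some (false, ρ) => shL A ρ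

/-- The diagonal matrix of shifts. -/
noncomputable def dgO (A : Type) [Ring A] {m : Type} [DecidableEq m]
    (r : m → Option (Bool × (ℕ ↪ Y))) : Matrix m m (RCF Y A) := diagonal fun l => shO A (r l)

/-- The sign of a shift. -/
def sgn (r : Option (Bool × (ℕ ↪ Y))) : ℤ :=
  match r with
  | none => 0
  | some (true, _) => 1
  | some (false, _) => -1

/-- All shifts are along rays of `S`. -/
def Rys (S : Sys O Y C) {m : Type} (r : m → Option (Bool × (ℕ ↪ Y))) : Prop :=
  ∀ l b ρ, r l = some (b, ρ) → IsRay S ρ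

open Classical in
/-- The sum of the signs of the shifts whose label is in the orbit of `c`. -/
noncomputable def wgt (Γ : Type) [Group Γ] [MulAction Γ C] (S : Sys O Y C) {m : Type} [Fintype m]
    (r : m → Option (Bool × (ℕ ↪ Y))) (c : C) : ℤ :=
  ∑ l, if ∃ b ρ, r l = some (b, ρ) ∧ S.lab (ρ 0) ∈ MulAction.orbit Γ c then sgn (r l) else 0

/-- `w` is a monomial matrix which is the diagonal matrix of the shifts `r`, up to a finite matrix. -/
def SpR (S : Sys O Y C) {m : Type} [Fintype m] [DecidableEq m]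
    (r : m → Option (Bool × (ℕ ↪ Y))) (w : Matrix m m (U Γ k S)) : Prop :=
  IsUnit w ∧ Mon (rcf w) ∧ Rys S r ∧
    Cg (Jfin Y (MonoidAlgebra k Γ)) (rcf w) (dgO (MonoidAlgebra k Γ) r)

/-- The special matrices. -/
def Sp (S : Sys O Y C) (m : Type) [Fintype m] [DecidableEq m] (w : Matrix m m (U Γ k S)) : Prop :=
  ∃ r : m → Option (Bool × (ℕ ↪ Y)), SpR S r w

variable (Γ k)

/-- Invertible matrices modulo `J f` lift. -/
def Lft (S : Sys O Y C) (f : ℕ) : Prop :=
  ∀ (n : Type) [Fintype n] [DecidableEq n] (z z' : Matrix n n (U Γ k S)),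
    Cg (J Γ k S f) (z * z') 1 → Cg (J Γ k S f) (z' * z) 1 →
    ∃ (m : Type) (_ : Fintype m) (_ : DecidableEq m) (u : Matrix (n ⊕ m) (n ⊕ m) (U Γ k S)),
      IsUnit u ∧ Cg (J Γ k S f) u (fromBlocks z 0 0 1)

/-- Invertible matrices modulo `J 0` lift after adding shifts along rays. -/
def Lft1 (S : Sys O Y C) : Prop :=
  ∀ (n : Type) [Fintype n] [DecidableEq n] (z z' : Matrix n n (U Γ k S)),
    Cg (J Γ k S 0) (z * z') 1 → Cg (J Γ k S 0) (z' * z) 1 →
    ∃ (m : Type) (_ : Fintype m) (_ : DecidableEq m) (r : m → Option (Bool × (ℕ ↪ Y)))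
      (u : Matrix (n ⊕ m) (n ⊕ m) (U Γ k S)), IsUnit u ∧ Rys S r ∧
      Cg (Jfin Y (MonoidAlgebra k Γ)) (rcf u)
        (fromBlocks (rcf z) 0 0 (dgO (MonoidAlgebra k Γ) r))

/-- The lifting hypotheses for the derived systems of `S`. -/
def LftD (S : Sys O Y C) : Prop :=
  (∀ h, Lft1 Γ k (S.der 1 h)) ∧ ∀ f h, 2 ≤ f → Lft Γ k (S.der f h) (f - 1)

/-- The ladder of `S` from `J (f - 1)` to `J f`. -/
def LadS (S : Sys O Y C) (f : ℕ) : Prop :=
  Lad (U Γ k S) (J Γ k S (f - 1)) (J Γ k S f) (O →₀ ℕ) (fun h => U Γ k (S.der f h))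
    (fun h => J Γ k (S.der f h) (f - 1)) (fun h => eps Γ k S f h)

variable {Γ k}

/-- The invariant `κ` kills the ideal `I`. -/
def Kil {R K : Type} [Ring R] [CommGroup K] {J : Ideal R} (κ : KR R J K) (I : Ideal R) : Prop :=
  ∀ (n : Type) [Fintype n] [DecidableEq n] (z : Matrix n n R), IsUnit z → Cg I z 1 → κ.f z = 1

/-- The invariant `κ` kills the class `M`. -/
def KilM {R K : Type} [Ring R] [CommGroup K] {J : Ideal R} (κ : KR R J K)
    (M : ∀ (n : Type) [Fintype n] [DecidableEq n], Matrix n n R → Prop) : Prop :=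
  ∀ (n : Type) [Fintype n] [DecidableEq n] (z : Matrix n n R), M n z → κ.f z = 1

end Defs

/-! ### Statements -/

/-- `J 0` consists of the finite matrices. -/
def S_J0 : Prop :=
  ∀ (O Y C Γ k : Type) [DecidableEq O] [Group Γ] [MulAction Γ O] [MulAction Γ C] [CommRing k]
    (S : Sys O Y C) (z : U Γ k S), z ∈ J Γ k S 0 ↔ z.1 ∈ Jfin Y (MonoidAlgebra k Γ)

/-- helper83: the ladder and the local units. -/
def S_lad : Prop :=
  ∀ (O Y C Γ k : Type) [DecidableEq O] [Group Γ] [MulAction Γ O] [MulAction Γ C] [CommRing k]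
    (S : Sys O Y C) (f : ℕ), 1 ≤ f → LadS Γ k S f ∧ LU (J Γ k S (f - 1)) ∧ LU (J Γ k S f)

/-- helper50: flasque. -/
def S_flq : Prop :=
  ∀ (O Y C Γ k : Type) [DecidableEq O] [Group Γ] [MulAction Γ O] [MulAction Γ C] [CommRing k]
    (S : Sys O Y C) (f : ℕ), 1 ≤ f → S.Exact Γ f → Flq (U Γ k S)

/-- The index of an invertible matrix which is a diagonal matrix of shifts up to a finite matrix is `0`
on every orbit of labels. (`S_idx0` on the objects with label in the orbit, augmentation `Γ → 1`,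
`k → k / m`.) -/
def S_idx : Prop :=
  ∀ (O Y C Γ k : Type) [DecidableEq O] [Group Γ] [MulAction Γ O] [MulAction Γ C] [CommRing k]
    [Nontrivial k] (S : Sys O Y C) (m : Type) [Fintype m] [DecidableEq m]
    (r : m → Option (Bool × (ℕ ↪ Y))) (u : Matrix m m (U Γ k S)), Rys S r → IsUnit u →
    Cg (Jfin Y (MonoidAlgebra k Γ)) (rcf u) (dgO (MonoidAlgebra k Γ) r) → ∀ c, wgt Γ S r c = 0

/-- Balanced shifts are realised by special matrices. (Pair the outgoing rays with the incoming rays in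
the same orbit of labels; `[shL ρ', 0; g E(ρ 0, ρ' 0), shR ρ]`, `g • lab (ρ' 0) = lab (ρ 0)`.) -/
def S_bal : Prop :=
  ∀ (O Y C Γ k : Type) [DecidableEq O] [Group Γ] [MulAction Γ O] [MulAction Γ C] [CommRing k]
    (S : Sys O Y C) (m : Type) [Fintype m] [DecidableEq m]
    (r : m → Option (Bool × (ℕ ↪ Y))), Rys S r → (∀ c, wgt Γ S r c = 0) →
    ∃ w : Matrix m m (U Γ k S), SpR S r w

/-- The special matrices form a class in the sense of `Spc`. -/
def S_spc : Prop :=
  ∀ (O Y C Γ k : Type) [DecidableEq O] [Group Γ] [MulAction Γ O] [MulAction Γ C] [CommRing k]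
    (S : Sys O Y C), Spc (U Γ k S) (J Γ k S 1) (fun n _ _ w => Sp S n w)

/-- Special matrices of a derived system are special. -/
def S_spe : Prop :=
  ∀ (O Y C Γ k : Type) [DecidableEq O] [Group Γ] [MulAction Γ O] [MulAction Γ C] [CommRing k]
    (S : Sys O Y C) (f : ℕ) (h : O →₀ ℕ) (m : Type) [Fintype m] [DecidableEq m]
    (w : Matrix m m (U Γ k (S.der f h))), Sp (S.der f h) m w → Sp S m (Ex (eps Γ k S f h) w)

/-- Generation at `f = 1`. `z = Ex z' mod J 0`; `z'` is invertible modulo `J 0` (`Lad.cor`, `Lad.pre`);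
`Lft1` gives `u = z' + dgO r`; the rays of the derived system are rays of `S`; `S_idx` for `S` and
`S_bal` for `S` give the special matrix. -/
def S_gen1 : Prop :=
  ∀ (O Y C Γ k : Type) [DecidableEq O] [Group Γ] [MulAction Γ O] [MulAction Γ C] [CommRing k]
    [Nontrivial k] (S : Sys O Y C), (∀ h, Lft1 Γ k (S.der 1 h)) →
    Gen (J Γ k S 0) (J Γ k S 1) (fun h => U Γ k (S.der 1 h)) (fun h => eps Γ k S 1 h)
      (fun n _ _ w => Sp S n w)

/-- Generation at `f ≥ 2`. -/
def S_genf : Prop :=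
  ∀ (O Y C Γ k : Type) [DecidableEq O] [Group Γ] [MulAction Γ O] [MulAction Γ C] [CommRing k]
    (S : Sys O Y C) (f : ℕ), 2 ≤ f → (∀ h, Lft Γ k (S.der f h) (f - 1)) →
    Gen (J Γ k S (f - 1)) (J Γ k S f) (fun h => U Γ k (S.der f h)) (fun h => eps Γ k S f h)
      (fun n _ _ w => w = 1)

/-- M1: an invariant on `J f` which kills `J 0` and the special matrices is trivial. (Induction on `f`
with `S_uni`.) -/
def S_M1 : Prop :=
  ∀ (O Y C Γ k : Type) [DecidableEq O] [Group Γ] [MulAction Γ O] [MulAction Γ C] [CommRing k]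
    [Nontrivial k] (S : Sys O Y C), LftD Γ k S → ∀ (f : ℕ) (K : Type) [CommGroup K]
    (κ : KR (U Γ k S) (J Γ k S f) K), Kil κ (J Γ k S 0) →
    (1 ≤ f → KilM κ fun n _ _ w => Sp S n w) → Kil κ (J Γ k S f)

/-- Pull back of a relative invariant along a non-unital homomorphism. -/
def S_pull : Prop :=
  ∀ (R T K : Type) [Ring R] [Ring T] [CommGroup K] (J : Ideal R) (I : Ideal T) (ε : T →ₙ+* R),
    (∀ x ∈ I, ε x ∈ J) → ∀ κ : KR R J K, ∃ κ' : KR T I K,
    ∀ (n : Type) [Fintype n] [DecidableEq n] (z : Matrix n n T), κ'.f z = κ.f (Ex ε z)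

/-- The hypotheses on the invariant `κ` of the finite matrices in the extension theorem: it kills the
finite matrices of the derived systems and the finite monomial matrices. -/
def Ini {O Y C Γ k K : Type} [DecidableEq O] [Group Γ] [MulAction Γ O] [MulAction Γ C] [CommRing k]
    [CommGroup K] (S : Sys O Y C) (κ : KR (U Γ k S) (J Γ k S 0) K) : Prop :=
  (∀ (f : ℕ) (h : O →₀ ℕ), 1 ≤ f → ∀ (n : Type) [Fintype n] [DecidableEq n]
    (z : Matrix n n (U Γ k (S.der f h))), IsUnit z → Cg (J Γ k (S.der f h) 0) z 1 →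
    κ.f (Ex (eps Γ k S f h) z) = 1) ∧
  ∀ (n : Type) [Fintype n] [DecidableEq n] (z : Matrix n n (U Γ k S)), IsUnit z →
    Cg (J Γ k S 0) z 1 → Mon (rcf z) → κ.f z = 1

/-- `triv` of `S_ext` at `f = 1`. PROOF. `w = dgO r`, up to finite matrices; the entries of `w` in the
block `l` come from the derived system modulo `J 0`, so a tail of each ray of `w` is a ray of the derived
system; `S_idx` for the derived system (labels `(F, lab)`), `S_bal` for it: there is a special `m'` over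
`U (der 1 h)` with `m' = r mod J 0`. `x = Ex (r⁻¹ m') * (Ex m')⁻¹ (1 ⊕ w)`: the first factor is a finite
matrix of the derived system, the second one a finite monomial matrix. -/
def S_triv1 : Prop :=
  ∀ (O Y C Γ k K : Type) [DecidableEq O] [Group Γ] [MulAction Γ O] [MulAction Γ C] [CommRing k]
    [Nontrivial k] [CommGroup K] (S : Sys O Y C) (κ : KR (U Γ k S) (J Γ k S 0) K), Ini S κ →
    ∀ (h : O →₀ ℕ) (n m : Type) [Fintype n] [DecidableEq n] [Fintype m] [DecidableEq m]
      (w : Matrix m m (U Γ k S)) (r : Matrix (n ⊕ m) (n ⊕ m) (U Γ k (S.der 1 h)))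
      (x : Matrix (n ⊕ m) (n ⊕ m) (U Γ k S)), Sp S m w → IsUnit r → IsUnit x →
      Cg (J Γ k S 0) x 1 → fromBlocks 1 0 0 w = Ex (eps Γ k S 1 h) r * x → κ.f x = 1

/-- `triv` of `S_ext` at `f ≥ 2`: `S_M1` for the derived system and the pull back of `κ`. -/
def S_trivf : Prop :=
  ∀ (O Y C Γ k K : Type) [DecidableEq O] [Group Γ] [MulAction Γ O] [MulAction Γ C] [CommRing k]
    [Nontrivial k] [CommGroup K] (S : Sys O Y C) (f : ℕ), 2 ≤ f →
    (∀ h, LftD Γ k (S.der f h)) → ∀ (κ0 : KR (U Γ k S) (J Γ k S 0) K)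
    (κ : KR (U Γ k S) (J Γ k S (f - 1)) K), Ini S κ0 →
    (∀ (n : Type) [Fintype n] [DecidableEq n] (z : Matrix n n (U Γ k S)), IsUnit z →
      Cg (J Γ k S 0) z 1 → κ.f z = κ0.f z) → (KilM κ fun n _ _ w => Sp S n w) →
    ∀ (h : O →₀ ℕ) (n : Type) [Fintype n] [DecidableEq n]
      (r : Matrix n n (U Γ k (S.der f h))), IsUnit r → Cg (J Γ k (S.der f h) (f - 1)) r 1 →
      κ.f (Ex (eps Γ k S f h) r) = 1

/-- M2: the extension theorem. -/
def S_M2 : Prop :=
  ∀ (O Y C Γ k K : Type) [DecidableEq O] [Group Γ] [MulAction Γ O] [MulAction Γ C] [CommRing k]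
    [Nontrivial k] [CommGroup K] (S : Sys O Y C), LftD Γ k S →
    (∀ f h, 2 ≤ f → LftD Γ k (S.der f h)) → ∀ (κ0 : KR (U Γ k S) (J Γ k S 0) K), Ini S κ0 →
    ∀ f, ∃ κ : KR (U Γ k S) (J Γ k S f) K,
      (∀ (n : Type) [Fintype n] [DecidableEq n] (z : Matrix n n (U Γ k S)), IsUnit z →
        Cg (J Γ k S 0) z 1 → κ.f z = κ0.f z) ∧ (1 ≤ f → KilM κ fun n _ _ w => Sp S n w)

/-- The invariant of the finite matrices: restriction of `S_fin0` to `U`. -/
def S_ini : Prop :=
  ∀ (O Y C Γ L K : Type) [DecidableEq O] [Group Γ] [MulAction Γ O] [MulAction Γ C] [CommRing L]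
    [IsDomain L] [CommGroup K] (S : Sys O Y C) (κ : K1Fun (MonoidAlgebra L Γ) K), KU κ → IsEuc L →
    (∀ (y : Y) (F : Finset O), F.Nonempty → F ⊆ S.F 0 y → ∀ H : Subgroup Γ,
      (∀ g ∈ H, g • F = F) → (∀ g ∈ H, g • S.lab y = S.lab y) → KK H) →
    ∃ κ0 : KR (U Γ L S) (J Γ L S 0) K, Ini S κ0 ∧
      ∀ (n : Type) [Fintype n] [DecidableEq n] [DecidableEq Y] (z : Matrix n n (U Γ L S))
        (s : Finset Y), IsUnit z → Spp s (rcf z) → κ0.f z = κ.f (blk s (rcf z))

end Pool.Agent.CC
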