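import Pool.Agent.Lib.MP_8f66f0_al_CC.End.Ext1

/-!
# Theorem CC: extension of relative invariants, part 2

The relation `Vl κ ε M z k` : `z ⊕ w = Ex ε r * x` with a special matrix `w`, invertible `r`, `x`,
`x = 1 mod J'` and `κ x = k`.
-/

set_option autoImplicit false

namespace Pool.Agent.CC

open Pool.Agent.Wald Matrix

namespace XE

section VlLem

variable {R T : Type} [Ring R] [Ring T] {J' J : Ideal R} {K : Type} [CommGroup K]
  (κ : KR R J' K) (ε : T →ₙ+* R)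
  (M : ∀ (n : Type) [Fintype n] [DecidableEq n], Matrix n n R → Prop)

/-- The value of `z` is `k`. -/
def Vl {n : Type} [Fintype n] [DecidableEq n] (z : Matrix n n R) (k : K) : Prop :=
  ∃ (m : Type) (_ : Fintype m) (_ : DecidableEq m) (w : Matrix m m R), M m w ∧
    Dc κ ε (fromBlocks z 0 0 w) k

/-- The compatibility of `κ` with the special matrices. -/
def Tv : Prop :=
  ∀ (n m : Type) [Fintype n] [DecidableEq n] [Fintype m] [DecidableEq m]
    (w : Matrix m m R) (r : Matrix (n ⊕ m) (n ⊕ m) T) (x : Matrix (n ⊕ m) (n ⊕ m) R),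
    M m w → IsUnit r → IsUnit x → Cg J' x 1 → fromBlocks 1 0 0 w = Ex ε r * x → κ.f x = 1

variable {κ ε M} {n m m₁ m₂ : Type} [Fintype n] [DecidableEq n] [Fintype m] [DecidableEq m]
  [Fintype m₁] [DecidableEq m₁] [Fintype m₂] [DecidableEq m₂]

theorem tv_dc (ht : Tv κ ε M) {w : Matrix m m R} {k : K} (hw : M m w)
    (h : Dc κ ε (fromBlocks (1 : Matrix n n R) 0 0 w) k) : k = 1 := by
  obtain ⟨r, x, hr, hx, hJ, he, rfl⟩ := h
  exact ht n m w r x hw hr hx hJ he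

variable [J'.IsTwoSided]

theorem pad1 {z : Matrix n n R} {w : Matrix m₁ m₁ R} {k : K} (h : Dc κ ε (fromBlocks z 0 0 w) k) :
    Dc κ ε (fromBlocks z 0 0 (fromBlocks w 0 0 (1 : Matrix m₂ m₂ R))) k := by
  have h1 := dc_sub (Equiv.sumAssoc n m₁ m₂).symm (dc_diag h (dc_one (n := m₂)))
  rw [mul_one] at h1
  have h2 : (fromBlocks (fromBlocks z 0 0 w) 0 0 (1 : Matrix m₂ m₂ R)).submatrix
      (Equiv.sumAssoc n m₁ m₂).symm (Equiv.sumAssoc n m₁ m₂).symm =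
      fromBlocks z 0 0 (fromBlocks w 0 0 (1 : Matrix m₂ m₂ R)) := by
    ext (i | i | i) (j | j | j) <;> rfl
  rwa [h2] at h1

theorem pad2 {z : Matrix n n R} {w : Matrix m₂ m₂ R} {k : K} (h : Dc κ ε (fromBlocks z 0 0 w) k) :
    Dc κ ε (fromBlocks z 0 0 (fromBlocks (1 : Matrix m₁ m₁ R) 0 0 w)) k := by
  let e : n ⊕ (m₁ ⊕ m₂) ≃ (n ⊕ m₂) ⊕ m₁ :=
    ((Equiv.refl n).sumCongr (Equiv.sumComm m₁ m₂)).trans (Equiv.sumAssoc n m₂ m₁).symm
  have h1 := dc_sub e (dc_diag h (dc_one (n := m₁)))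
  rw [mul_one] at h1
  have h2 : (fromBlocks (fromBlocks z 0 0 w) 0 0 (1 : Matrix m₁ m₁ R)).submatrix e e =
      fromBlocks z 0 0 (fromBlocks (1 : Matrix m₁ m₁ R) 0 0 w) := by
    ext (i | i | i) (j | j | j) <;> rfl
  rwa [h2] at h1

theorem vl_uniq (hc : Cj κ) (ht : Tv κ ε M) (hM : Spc R J M) {z : Matrix n n R} {k k' : K}
    (h : Vl κ ε M z k) (h' : Vl κ ε M z k') : k = k' := by
  obtain ⟨m₁, _, _, w₁, hw₁, hD₁⟩ := h
  obtain ⟨m₂, _, _, w₂, hw₂, hD₂⟩ := h'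
  obtain ⟨v₁, hv1, hv2⟩ := ex_inv (hM.unit m₁ w₁ hw₁).1
  have hv : M m₁ v₁ := hM.inv m₁ w₁ v₁ hw₁ hv1 hv2
  have p1 := pad1 (m₂ := m₂) hD₁
  have p2 := pad2 (m₁ := m₁) hD₂
  obtain ⟨Q, hQ1, hQ2⟩ := ex_inv (dc_unit p1)
  have h3 := dc_mul hc (dc_inv hc p1 hQ1 hQ2) p2
  have h5 : fromBlocks z 0 0 (fromBlocks (1 : Matrix m₁ m₁ R) 0 0 w₂) =
      fromBlocks z 0 0 (fromBlocks w₁ 0 0 (1 : Matrix m₂ m₂ R)) *
        fromBlocks 1 0 0 (fromBlocks v₁ 0 0 w₂) := by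
    rw [fromBlocks_multiply, fromBlocks_multiply]
    simp only [Matrix.mul_one, Matrix.one_mul, Matrix.mul_zero, Matrix.zero_mul, add_zero, zero_add,
      hv1]
  have h4 : Q * fromBlocks z 0 0 (fromBlocks (1 : Matrix m₁ m₁ R) 0 0 w₂) =
      fromBlocks 1 0 0 (fromBlocks v₁ 0 0 w₂) := by
    rw [h5, ← Matrix.mul_assoc, hQ2, Matrix.one_mul]
  rw [h4] at h3
  exact inv_mul_eq_one.1 (tv_dc ht (hM.sum m₁ m₂ v₁ w₂ hv hw₂) h3)

theorem vl_mul (hc : Cj κ) (hM : Spc R J M) {z z' : Matrix n n R} {k k' : K}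
    (h : Vl κ ε M z k) (h' : Vl κ ε M z' k') : Vl κ ε M (z * z') (k * k') := by
  obtain ⟨m₁, _, _, w₁, hw₁, hD₁⟩ := h
  obtain ⟨m₂, _, _, w₂, hw₂, hD₂⟩ := h'
  have h3 := dc_mul hc (pad1 (m₂ := m₂) hD₁) (pad2 (m₁ := m₁) hD₂)
  have h5 : fromBlocks z 0 0 (fromBlocks w₁ 0 0 (1 : Matrix m₂ m₂ R)) *
      fromBlocks z' 0 0 (fromBlocks (1 : Matrix m₁ m₁ R) 0 0 w₂) =
        fromBlocks (z * z') 0 0 (fromBlocks w₁ 0 0 w₂) := by
    rw [fromBlocks_multiply, fromBlocks_multiply]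
    simp only [Matrix.mul_one, Matrix.one_mul, Matrix.mul_zero, Matrix.zero_mul, add_zero, zero_add]
  rw [h5] at h3
  exact ⟨m₁ ⊕ m₂, inferInstance, inferInstance, fromBlocks w₁ 0 0 w₂, hM.sum m₁ m₂ w₁ w₂ hw₁ hw₂, h3⟩

theorem vl_tri (hM : Spc R J M) {A : Matrix n n R} {B : Matrix n m R} {D : Matrix m m R} {k l : K}
    (h : Vl κ ε M A k) (h' : Vl κ ε M D l) (c : Matrix n m T) (hB : Cg J' B (c.map ε)) :
    Vl κ ε M (fromBlocks A B 0 D) (k * l) := by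
  obtain ⟨m₁, _, _, w₁, hw₁, hD₁⟩ := h
  obtain ⟨m₂, _, _, w₂, hw₂, hD₂⟩ := h'
  have hB' : Cg J' (fromBlocks B 0 0 0 : Matrix (n ⊕ m₁) (m ⊕ m₂) R)
      ((fromBlocks c 0 0 0 : Matrix (n ⊕ m₁) (m ⊕ m₂) T).map ε) := by
    rw [fromBlocks_map, map_zero', map_zero', map_zero']
    exact cg_blocks hB (cg_refl _) (cg_refl _) (cg_refl _)
  have h3 := dc_sub (Equiv.sumSumSumComm n m m₁ m₂) (dc_tri hD₁ hD₂ _ hB')
  have h4 : (fromBlocks (fromBlocks A 0 0 w₁) (fromBlocks B 0 0 0) 0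
      (fromBlocks D 0 0 w₂)).submatrix (Equiv.sumSumSumComm n m m₁ m₂)
        (Equiv.sumSumSumComm n m m₁ m₂) =
      fromBlocks (fromBlocks A B 0 D) 0 0 (fromBlocks w₁ 0 0 w₂) := by
    ext ((i | i) | (i | i)) ((j | j) | (j | j)) <;> rfl
  rw [h4] at h3
  exact ⟨m₁ ⊕ m₂, inferInstance, inferInstance, fromBlocks w₁ 0 0 w₂, hM.sum m₁ m₂ w₁ w₂ hw₁ hw₂, h3⟩

omit [J'.IsTwoSided] in
theorem vl_sub (e : m ≃ n) {z : Matrix n n R} {k : K} (h : Vl κ ε M z k) :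
    Vl κ ε M (z.submatrix e e) k := by
  obtain ⟨m₁, _, _, w₁, hw₁, hD₁⟩ := h
  refine ⟨m₁, _, _, w₁, hw₁, ?_⟩
  have h3 := dc_sub (e.sumCongr (Equiv.refl m₁)) hD₁
  have h4 : (fromBlocks z 0 0 w₁).submatrix (e.sumCongr (Equiv.refl m₁))
      (e.sumCongr (Equiv.refl m₁)) = fromBlocks (z.submatrix e e) 0 0 w₁ := by
    ext (i | i) (j | j) <;> rfl
  rwa [h4] at h3

omit [J'.IsTwoSided] in
theorem vl_spec (ht : Tv κ ε M) (hM : Spc R J M) {z : Matrix n n R} {k : K} (hz : M n z)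
    (h : Vl κ ε M z k) : k = 1 := by
  obtain ⟨m₁, _, _, w₁, hw₁, hD₁⟩ := h
  have h3 := dc_sub (Equiv.emptySum Empty (n ⊕ m₁)) hD₁
  have h4 : (fromBlocks z 0 0 w₁).submatrix (Equiv.emptySum Empty (n ⊕ m₁))
      (Equiv.emptySum Empty (n ⊕ m₁)) =
      fromBlocks (1 : Matrix Empty Empty R) 0 0 (fromBlocks z 0 0 w₁) := by
    ext (i | i) (j | j)
    · exact i.elim
    · exact i.elim
    · exact j.elim
    · rfl
  rw [h4] at h3
  exact tv_dc ht (hM.sum n m₁ z w₁ hz hw₁) h3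

theorem vl_of (hM : Spc R J M) {x : Matrix n n R} (hx : IsUnit x) (hJ : Cg J' x 1) :
    Vl κ ε M x (κ.f x) := by
  refine ⟨Empty, inferInstance, inferInstance, 1, hM.one Empty, ?_⟩
  have h := dc_diag (dc_of (κ := κ) (ε := ε) hx hJ) (dc_one (n := Empty))
  rwa [mul_one] at h

omit [DecidableEq n] [DecidableEq m] in
omit [Fintype n] [Fintype m] in
theorem ex_toBlocks₁₁ [DecidableEq n] [DecidableEq m] (r : Matrix (n ⊕ m) (n ⊕ m) T) (i j : n) :
    Ex ε r (Sum.inl i) (Sum.inl j) = Ex ε r.toBlocks₁₁ i j := by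
  simp only [Ex, Matrix.add_apply, Matrix.map_apply, Matrix.sub_apply, Matrix.one_apply,
    Matrix.toBlocks₁₁, Matrix.of_apply, Sum.inl.injEq]

omit [J'.IsTwoSided] in
theorem dc_lv {A : Matrix n n R} {k : K} (h : Dc κ ε A k) :
    ∃ r : Matrix n n T, Cg J' A (Ex ε r) := by
  obtain ⟨r, x, _, _, hJ, rfl, _⟩ := h
  refine ⟨r, ?_⟩
  have h1 := cg_mul_left (Ex ε r) hJ
  rwa [Matrix.mul_one] at h1

omit [J'.IsTwoSided] in
theorem vl_lv {z : Matrix n n R} {k : K} (h : Vl κ ε M z k) :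
    ∃ z' : Matrix n n T, Cg J' z (Ex ε z') := by
  obtain ⟨m₁, _, _, w₁, _, hD₁⟩ := h
  obtain ⟨r, hr⟩ := dc_lv hD₁
  refine ⟨r.toBlocks₁₁, fun i j => ?_⟩
  rw [← ex_toBlocks₁₁]
  exact hr (Sum.inl i) (Sum.inl j)

theorem vl_ex (hM : Spc R J M) {z : Matrix n n R} (hz : IsUnit z) {w : Matrix m m R}
    {r : Matrix (n ⊕ m) (n ⊕ m) T} (hw : M m w) (hr : IsUnit r)
    (hJ : Cg J' (fromBlocks z 0 0 w) (Ex ε r)) : ∃ k, Vl κ ε M z k := by
  obtain ⟨r', hr1, hr2⟩ := ex_inv hr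
  have e1 := ex_inv_mul ε hr1
  have e2 := ex_inv_mul ε hr2
  have hZ : IsUnit (fromBlocks z 0 0 w) := K1Fun.isUnit_tri 0 hz (hM.unit m w hw).1
  refine ⟨κ.f (Ex ε r' * fromBlocks z 0 0 w), m, inferInstance, inferInstance, w, hw, r,
    Ex ε r' * fromBlocks z 0 0 w, hr, (isUnit_of e2 e1).mul hZ, ?_, ?_, rfl⟩
  · have h1 := cg_mul_left (Ex ε r') hJ
    rwa [e2] at h1
  · rw [← Matrix.mul_assoc, e1, Matrix.one_mul]

end VlLem

section Lev

variable {R : Type} [Ring R] {J' J : Ideal R} {β : Type} [Preorder β] {T : β → Type}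
  [∀ b, Ring (T b)] {I : ∀ b, Ideal (T b)} {ε : ∀ b, T b →ₙ+* R}

theorem lvM_mono (hL : Lad R J' J β T I ε) {b d : β} (hbd : b ≤ d) {n m : Type} {B : Matrix n m R}
    (h : ∃ c : Matrix n m (T b), Cg J' B (c.map (ε b))) :
    ∃ c : Matrix n m (T d), Cg J' B (c.map (ε d)) := by
  obtain ⟨c, hc⟩ := h
  choose g hg using hL.mono b d hbd
  exact ⟨c.map g, cg_trans hc fun i j => hg (c i j)⟩

theorem lvM_ex [Nonempty β] (hL : Lad R J' J β T I ε) {n m : Type} [Fintype n] [Fintype m]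
    {B : Matrix n m R} (h : Cg J B 0) : ∃ d, ∃ c : Matrix n m (T d), Cg J' B (c.map (ε d)) := by
  have h0 : ∀ i j, B i j ∈ J := fun i j => by
    have h1 := h i j
    rwa [Matrix.zero_apply, sub_zero] at h1
  choose b c hbc using fun i j => hL.dec (B i j) (h0 i j)
  haveI : IsDirectedOrder β := ⟨hL.dir⟩
  obtain ⟨d, hd⟩ := Finite.exists_le (fun p : n × m => b p.1 p.2)
  choose c' hc' using fun i j => hL.mono (b i j) d (hd (i, j)) (c i j)
  refine ⟨d, c', fun i j => ?_⟩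
  have h1 := J'.add_mem (hbc i j) (hc' i j)
  rwa [sub_add_sub_cancel] at h1

theorem lv_iff {b : β} {n : Type} [Fintype n] [DecidableEq n] {z : Matrix n n R} :
    (∃ z' : Matrix n n (T b), Cg J' z (Ex (ε b) z')) ↔
      ∃ c : Matrix n n (T b), Cg J' (z - 1) (c.map (ε b)) := by
  constructor
  · rintro ⟨z', h⟩
    refine ⟨z' - 1, fun i j => ?_⟩
    have h1 := h i j
    rw [Ex, Matrix.add_apply, ← sub_sub] at h1
    exact h1
  · rintro ⟨c, h⟩
    refine ⟨1 + c, fun i j => ?_⟩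
    rw [Ex, add_sub_cancel_left, Matrix.add_apply, ← sub_sub]
    exact h i j

theorem lv_mono (hL : Lad R J' J β T I ε) {b d : β} (hbd : b ≤ d) {n : Type} [Fintype n]
    [DecidableEq n] {z : Matrix n n R} (h : ∃ z' : Matrix n n (T b), Cg J' z (Ex (ε b) z')) :
    ∃ z' : Matrix n n (T d), Cg J' z (Ex (ε d) z') :=
  lv_iff.2 (lvM_mono hL hbd (lv_iff.1 h))

theorem lv_ex [Nonempty β] (hL : Lad R J' J β T I ε) {n : Type} [Fintype n]
    [DecidableEq n] {z : Matrix n n R} (h : Cg J z 1) :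
    ∃ b, ∃ z' : Matrix n n (T b), Cg J' z (Ex (ε b) z') := by
  have h1 : Cg J (z - 1) 0 := fun i j => by
    rw [Matrix.zero_apply, sub_zero]
    exact h i j
  obtain ⟨d, hd⟩ := lvM_ex hL h1
  exact ⟨d, lv_iff.2 hd⟩

theorem cg_le (hL : Lad R J' J β T I ε) {n m : Type} {a b : Matrix n m R} (h : Cg J' a b) :
    Cg J a b := fun i j => hL.le (h i j)

theorem cg_ex (hL : Lad R J' J β T I ε) {b : β} {n : Type} [Fintype n] [DecidableEq n]
    (r : Matrix n n (T b)) : Cg J (Ex (ε b) r) 1 := fun i j => by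
  rw [Ex, Matrix.add_apply, add_sub_cancel_left]
  exact hL.mem b _

theorem cg_map (hL : Lad R J' J β T I ε) {b : β} {n m : Type} (c : Matrix n m (T b)) :
    Cg J (c.map (ε b)) 0 := fun i j => by
  rw [Matrix.zero_apply, sub_zero]
  exact hL.mem b _

end Lev

end XE

open XE in
theorem ext (hC : S_conj) : S_ext := by
  intro R _ J' J _ _ β _ _ T _ I ε M hL hM hG hF hLU K _ κ hT
  classical
  have hc : Cj κ := fun n _ _ g g' z h1 h2 h3 h4 => hC R J' K κ hLU n g g' z h1 h2 h3 h4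
  have ht : ∀ b, Tv κ (ε b) M := fun b => hT b
  -- existence at the level `b`
  have hex : ∀ (b : β) (n : Type) [Fintype n] [DecidableEq n] (z : Matrix n n R), IsUnit z →
      Cg J z 1 → (∃ z' : Matrix n n (T b), Cg J' z (Ex (ε b) z')) → ∃ k, Vl κ (ε b) M z k := by
    intro b n _ _ z hz hJ hl
    obtain ⟨z', hz'⟩ := hl
    obtain ⟨m, _, _, w, r, hw, hr, h⟩ := hG b n z z' hz hJ hz'
    exact vl_ex hM hz hw hr h
  have huq : ∀ (b : β) (n : Type) [Fintype n] [DecidableEq n] (z : Matrix n n R) (k k' : K),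
      Vl κ (ε b) M z k → Vl κ (ε b) M z k' → k = k' := fun b n _ _ z k k' h h' =>
    vl_uniq hc (ht b) hM h h'
  -- the flasque rings
  have hfl : ∀ (b d : β), b ≤ d → ∀ (n : Type) [Fintype n] [DecidableEq n]
      (r : Matrix n n (T b)), IsUnit r → Vl κ (ε d) M (Ex (ε b) r) 1 := by
    intro b d hbd
    have h1 : ∀ (n : Type) [Fintype n] [DecidableEq n] (r : Matrix n n (T b)), IsUnit r →
        ∃ k, Vl κ (ε d) M (Ex (ε b) r) k := by
      intro n _ _ r hr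
      exact hex d n _ (ex_unit _ hr) (cg_ex hL r) (lv_mono hL hbd ⟨r, cg_refl _⟩)
    let F : ∀ {n : Type} [Fintype n] [DecidableEq n], Matrix n n (T b) → K := fun {n} _ _ r =>
      if h : ∃ k, Vl κ (ε d) M (Ex (ε b) r) k then h.choose else 1
    have hF1 : ∀ (n : Type) [Fintype n] [DecidableEq n] (r : Matrix n n (T b)) (k : K),
        Vl κ (ε d) M (Ex (ε b) r) k → F r = k := by
      intro n _ _ r k hk
      have h2 : ∃ k, Vl κ (ε d) M (Ex (ε b) r) k := ⟨k, hk⟩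
      have h3 : F r = h2.choose := dif_pos h2
      rw [h3]
      exact huq d n _ _ _ h2.choose_spec hk
    let κ₁ : K1Fun (T b) K :=
      { f := F
        mul := by
          intro n _ _ A B hA hB
          obtain ⟨k, hk⟩ := h1 n A hA
          obtain ⟨l, hl⟩ := h1 n B hB
          rw [hF1 n A k hk, hF1 n B l hl]
          refine hF1 n _ _ ?_
          rw [ex_mul]
          exact vl_mul hc hM hk hl
        reindex := by
          intro n m _ _ _ _ e A hA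
          obtain ⟨k, hk⟩ := h1 n A hA
          rw [hF1 n A k hk]
          refine hF1 m _ _ ?_
          rw [ex_sub]
          exact vl_sub e.symm hk
        tri := by
          intro n m _ _ _ _ A B D hA hD
          obtain ⟨k, hk⟩ := h1 n A hA
          obtain ⟨l, hl⟩ := h1 m D hD
          rw [hF1 n A k hk, hF1 m D l hl]
          refine hF1 _ _ _ ?_
          rw [ex_blocks, map_zero']
          obtain ⟨c, hc'⟩ := lvM_mono hL hbd ⟨B, cg_refl _⟩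
          exact vl_tri hM hk hl c hc' }
    intro n _ _ r hr
    obtain ⟨k, hk⟩ := h1 n r hr
    have h4 : κ₁.f r = 1 := hF b K κ₁ n r hr
    have h5 : κ₁.f r = k := hF1 n r k hk
    rw [← h4, h5]
    exact hk
  -- independence of the level
  have hind : ∀ (b d : β), b ≤ d → ∀ (n : Type) [Fintype n] [DecidableEq n] (z : Matrix n n R)
      (k k' : K), Vl κ (ε b) M z k → Vl κ (ε d) M z k' → k = k' := by
    intro b d hbd n _ _ z k k' h h'
    obtain ⟨m, _, _, w, hw, hD⟩ := h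
    have hlw : ∃ z' : Matrix m m (T b), Cg J' w (Ex (ε b) z') := by
      obtain ⟨r, hr⟩ := dc_lv hD
      refine ⟨r.toBlocks₂₂, fun i j => ?_⟩
      have h1 := hr (Sum.inr i) (Sum.inr j)
      have h2 : Ex (ε b) r (Sum.inr i) (Sum.inr j) = Ex (ε b) r.toBlocks₂₂ i j := by
        simp only [Ex, Matrix.add_apply, Matrix.map_apply, Matrix.sub_apply, Matrix.one_apply,
          Matrix.toBlocks₂₂, Matrix.of_apply, Sum.inr.injEq]
      rw [h2] at h1
      exact h1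
    obtain ⟨l, hl⟩ := hex d m w (hM.unit m w hw).1 (hM.unit m w hw).2 (lv_mono hL hbd hlw)
    have hl1 : l = 1 := vl_spec (ht d) hM hw hl
    have h3 : Vl κ (ε d) M (fromBlocks z 0 0 w) (k' * l) :=
      vl_tri hM h' hl 0 (by rw [map_zero']; exact cg_refl _)
    rw [hl1, mul_one] at h3
    obtain ⟨r, x, hr, hx, hJ, he, hk⟩ := hD
    have h4 := vl_mul hc hM (hfl b d hbd _ r hr) (vl_of (ε := ε d) hM hx hJ)
    rw [one_mul, hk, ← he] at h4
    exact (huq d _ _ _ _ h3 h4).symm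
  -- the value
  have hval : ∀ (n : Type) [Fintype n] [DecidableEq n] (z : Matrix n n R) (k k' : K) (b b' : β),
      IsUnit z → Cg J z 1 → Vl κ (ε b) M z k → Vl κ (ε b') M z k' → k = k' := by
    intro n _ _ z k k' b b' hz hJ h h'
    obtain ⟨d, hd, hd'⟩ := hL.dir b b'
    obtain ⟨l, hl⟩ := hex d n z hz hJ (lv_mono hL hd (vl_lv h))
    rw [hind b d hd n z k l h hl, hind b' d hd' n z k' l h' hl]
  have hbig : ∀ (d : β) (n : Type) [Fintype n] [DecidableEq n] (z : Matrix n n R) (k : K) (b : β),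
      IsUnit z → Cg J z 1 → Vl κ (ε b) M z k → b ≤ d → Vl κ (ε d) M z k := by
    intro d n _ _ z k b hz hJ h hbd
    obtain ⟨l, hl⟩ := hex d n z hz hJ (lv_mono hL hbd (vl_lv h))
    rw [hind b d hbd n z k l h hl]
    exact hl
  let F : ∀ {n : Type} [Fintype n] [DecidableEq n], Matrix n n R → K := fun {n} _ _ z =>
    if h : ∃ k, ∃ b, Vl κ (ε b) M z k then h.choose else 1
  have hF1 : ∀ (n : Type) [Fintype n] [DecidableEq n] (z : Matrix n n R) (k : K) (b : β),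
      IsUnit z → Cg J z 1 → Vl κ (ε b) M z k → F z = k := by
    intro n _ _ z k b hz hJ hk
    have h2 : ∃ k, ∃ b, Vl κ (ε b) M z k := ⟨k, b, hk⟩
    have h3 : F z = h2.choose := dif_pos h2
    rw [h3]
    obtain ⟨b', hb'⟩ := h2.choose_spec
    exact hval n z _ _ b' b hz hJ hb' hk
  have hE : ∀ (n : Type) [Fintype n] [DecidableEq n] (z : Matrix n n R), IsUnit z → Cg J z 1 →
      ∃ b k, Vl κ (ε b) M z k := by
    intro n _ _ z hz hJ
    obtain ⟨b, hb⟩ := lv_ex hL hJ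
    obtain ⟨k, hk⟩ := hex b n z hz hJ hb
    exact ⟨b, k, hk⟩
  refine ⟨{ f := F, mul := ?_, reindex := ?_, tri := ?_ }, ?_, ?_⟩
  · intro n _ _ A B hA hB hAJ hBJ
    obtain ⟨b, k, hk⟩ := hE n A hA hAJ
    obtain ⟨b', l, hl⟩ := hE n B hB hBJ
    obtain ⟨d, hd, hd'⟩ := hL.dir b b'
    rw [hF1 n A k b hA hAJ hk, hF1 n B l b' hB hBJ hl]
    exact hF1 n _ _ d (hA.mul hB) (cg_one_mul hAJ hBJ)
      (vl_mul hc hM (hbig d n A k b hA hAJ hk hd) (hbig d n B l b' hB hBJ hl hd'))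
  · intro n m _ _ _ _ e A hA hAJ
    obtain ⟨b, k, hk⟩ := hE n A hA hAJ
    rw [hF1 n A k b hA hAJ hk]
    refine hF1 m _ _ b (isUnit_sub e.symm hA) ?_ (vl_sub e.symm hk)
    have h1 := cg_submatrix hAJ e.symm e.symm
    rwa [sub_one] at h1
  · intro n m _ _ _ _ A B D hA hD hAJ hBJ hDJ
    obtain ⟨b, k, hk⟩ := hE n A hA hAJ
    obtain ⟨b', l, hl⟩ := hE m D hD hDJ
    obtain ⟨b₁, hb₁⟩ := lvM_ex hL hBJ
    obtain ⟨d, hd, hd'⟩ := hL.dir b b'
    obtain ⟨d', hdd, hd₁⟩ := hL.dir d b₁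
    obtain ⟨c, hc'⟩ := lvM_mono hL hd₁ hb₁
    rw [hF1 n A k b hA hAJ hk, hF1 m D l b' hD hDJ hl]
    exact hF1 _ _ _ d' (K1Fun.isUnit_tri B hA hD) (cg_blocks_one hAJ hBJ (cg_refl _) hDJ)
      (vl_tri hM (hbig d' n A k b hA hAJ hk (hd.trans hdd))
        (hbig d' m D l b' hD hDJ hl (hd'.trans hdd)) c hc')
  · intro n _ _ z hz hJ
    exact hF1 n z _ (Classical.arbitrary β) hz (cg_le hL hJ) (vl_of hM hz hJ)
  · intro n _ _ z hz
    obtain ⟨hu, hJ⟩ := hM.unit n z hz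
    obtain ⟨b, k, hk⟩ := hE n z hu hJ
    have h1 : F z = k := hF1 n z k b hu hJ hk
    rw [vl_spec (ht b) hM hz hk] at h1
    exact h1

end Pool.Agent.CC
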