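import Pool.Agent.Lib.MP_8f66f0_al_CC.End.KR

/-!
# Theorem CC: extension of a relative invariant
-/

set_option autoImplicit false

namespace Pool.Agent.CC

open Pool.Agent.Wald Matrix

section Ex

variable {R S : Type} [Ring R] [Ring S] (ε : S →ₙ+* R)

private theorem mp_mul {n m p : Type} [Fintype m] (a : Matrix n m S) (b : Matrix m p S) :
    (a * b).map ε = a.map ε * b.map ε := by
  ext i j
  simp only [map_apply, mul_apply, map_sum, map_mul]

private theorem mp_add {n m : Type} (a b : Matrix n m S) : (a + b).map ε = a.map ε + b.map ε := by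
  ext i j
  simp only [map_apply, Matrix.add_apply, map_add]

theorem ex_one {n : Type} [DecidableEq n] : Ex ε (1 : Matrix n n S) = 1 := by
  ext i j
  simp only [Ex, sub_self, Matrix.add_apply, map_apply, Matrix.zero_apply, map_zero, add_zero]

theorem ex_mul {n : Type} [Fintype n] [DecidableEq n] (a b : Matrix n n S) :
    Ex ε (a * b) = Ex ε a * Ex ε b := by
  have h : a * b - 1 = (a - 1) + (b - 1) + (a - 1) * (b - 1) := by noncomm_ring
  rw [Ex, Ex, Ex, h, mp_add, mp_add, mp_mul]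
  noncomm_ring

theorem ex_blocks {n m : Type} [DecidableEq n] [DecidableEq m] (A : Matrix n n S) (B : Matrix n m S)
    (C : Matrix m n S) (D : Matrix m m S) : Ex ε (fromBlocks A B C D) =
      fromBlocks (Ex ε A) (B.map ε) (C.map ε) (Ex ε D) := by
  ext (i | i) (j | j)
  · simp only [Ex, Matrix.add_apply, map_apply, Matrix.sub_apply, fromBlocks_apply₁₁, one_apply,
      Sum.inl.injEq]
  · simp only [Ex, Matrix.add_apply, map_apply, Matrix.sub_apply, fromBlocks_apply₁₂, one_apply,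
      reduceCtorEq, if_false, zero_add, sub_zero]
  · simp only [Ex, Matrix.add_apply, map_apply, Matrix.sub_apply, fromBlocks_apply₂₁, one_apply,
      reduceCtorEq, if_false, zero_add, sub_zero]
  · simp only [Ex, Matrix.add_apply, map_apply, Matrix.sub_apply, fromBlocks_apply₂₂, one_apply,
      Sum.inr.injEq]

theorem ex_sub {n m : Type} [DecidableEq n] [DecidableEq m] (e : n ≃ m) (A : Matrix n n S) :
    Ex ε (A.submatrix e.symm e.symm) = (Ex ε A).submatrix e.symm e.symm := by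
  ext i j
  simp only [Ex, Matrix.add_apply, map_apply, Matrix.sub_apply, one_apply, submatrix_apply,
    EmbeddingLike.apply_eq_iff_eq]

theorem ex_unit {n : Type} [Fintype n] [DecidableEq n] {a : Matrix n n S} (h : IsUnit a) :
    IsUnit (Ex ε a) := by
  obtain ⟨u, rfl⟩ := h
  refine ⟨⟨Ex ε (u : Matrix n n S), Ex ε ((u⁻¹ : (Matrix n n S)ˣ) : Matrix n n S), ?_, ?_⟩, rfl⟩
  · rw [← ex_mul, u.mul_inv, ex_one]
  · rw [← ex_mul, u.inv_mul, ex_one]

end Ex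

section Cg

variable {R : Type} [Ring R] {J : Ideal R}

theorem Cg.refl {m n : Type} (a : Matrix m n R) : Cg J a a := fun i j => by
  rw [sub_self]
  exact J.zero_mem

theorem Cg.symm {m n : Type} {a b : Matrix m n R} (h : Cg J a b) : Cg J b a := fun i j => by
  rw [← neg_sub]
  exact J.neg_mem (h i j)

theorem Cg.trans {m n : Type} {a b c : Matrix m n R} (h : Cg J a b) (h' : Cg J b c) : Cg J a c :=
  fun i j => by
  rw [← sub_add_sub_cancel]
  exact J.add_mem (h i j) (h' i j)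

theorem Cg.mul_left {m n p : Type} [Fintype m] (c : Matrix p m R) {a b : Matrix m n R}
    (h : Cg J a b) : Cg J (c * a) (c * b) := fun i j => by
  rw [mul_apply, mul_apply, ← Finset.sum_sub_distrib]
  refine J.sum_mem fun v _ => ?_
  rw [← mul_sub]
  exact J.mul_mem_left _ (h v j)

theorem Cg.mul_right [J.IsTwoSided] {m n p : Type} [Fintype n] (c : Matrix n p R)
    {a b : Matrix m n R} (h : Cg J a b) : Cg J (a * c) (b * c) := fun i j => by
  rw [mul_apply, mul_apply, ← Finset.sum_sub_distrib]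
  refine J.sum_mem fun v _ => ?_
  rw [← sub_mul]
  exact J.mul_mem_right _ (h i v)

theorem Cg.mul [J.IsTwoSided] {m n p : Type} [Fintype n] {a b : Matrix m n R} {c d : Matrix n p R}
    (h : Cg J a b) (h' : Cg J c d) : Cg J (a * c) (b * d) :=
  (h.mul_right c).trans (h'.mul_left b)

theorem Cg.mul_one [J.IsTwoSided] {n : Type} [Fintype n] [DecidableEq n] {a b : Matrix n n R}
    (h : Cg J a 1) (h' : Cg J b 1) : Cg J (a * b) 1 := by
  have := h.mul h'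
  rwa [Matrix.mul_one] at this

theorem Cg.inv {n : Type} [Fintype n] [DecidableEq n] {a a' : Matrix n n R}
    (h : Cg J a 1) (h1 : a' * a = 1) : Cg J a' 1 := by
  have := (h.mul_left a').symm
  rwa [Matrix.mul_one, h1] at this

theorem Cg.le {J' : Ideal R} (hJ : J' ≤ J) {m n : Type} {a b : Matrix m n R} (h : Cg J' a b) :
    Cg J a b := fun i j => hJ (h i j)

theorem Cg.blocks {n m n' m' : Type} {A A' : Matrix n m R} {B B' : Matrix n m' R}
    {C C' : Matrix n' m R} {D D' : Matrix n' m' R} (hA : Cg J A A') (hB : Cg J B B')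
    (hC : Cg J C C') (hD : Cg J D D') : Cg J (fromBlocks A B C D) (fromBlocks A' B' C' D') := by
  rintro (i | i) (j | j)
  · exact hA i j
  · exact hB i j
  · exact hC i j
  · exact hD i j

theorem Cg.blocks_one {n m : Type} [DecidableEq n] [DecidableEq m] {A : Matrix n n R}
    {D : Matrix m m R} (hA : Cg J A 1) (hD : Cg J D 1) : Cg J (fromBlocks A 0 0 D) 1 := by
  rw [← fromBlocks_one]
  exact hA.blocks (Cg.refl _) (Cg.refl _) hD

theorem Cg.sub {m n m' n' : Type} {a b : Matrix m n R} (h : Cg J a b) (f : m' → m) (g : n' → n) :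
    Cg J (a.submatrix f g) (b.submatrix f g) := fun i j => h (f i) (g j)

theorem Cg.sub_one {n m : Type} [DecidableEq n] [DecidableEq m] {a : Matrix n n R} (h : Cg J a 1)
    (e : n ≃ m) : Cg J (a.submatrix e.symm e.symm) 1 := by
  have := h.sub e.symm e.symm
  rwa [submatrix_one_equiv] at this

theorem cg_ex {S : Type} [Ring S] {ε : S →ₙ+* R} (h : ∀ x, ε x ∈ J) {n : Type} [DecidableEq n]
    (z : Matrix n n S) : Cg J (Ex ε z) 1 := fun i j => by
  rw [Ex, Matrix.add_apply, add_sub_cancel_left]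
  exact h _

end Cg

theorem KR.f_one {R : Type} [Ring R] {J : Ideal R} {K : Type} [CommGroup K] (κ : KR R J K)
    {n : Type} [Fintype n] [DecidableEq n] : κ.f (1 : Matrix n n R) = 1 := by
  have h := κ.mul (1 : Matrix n n R) 1 isUnit_one isUnit_one (Cg.refl _) (Cg.refl _)
  rw [Matrix.one_mul] at h
  exact mul_left_cancel (a := κ.f (1 : Matrix n n R)) (by rw [_root_.mul_one]; exact h.symm)

section Dat

variable {R : Type} [Ring R] {J' : Ideal R} {K : Type} [CommGroup K] (κ : KR R J' K)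
  {S : Type} [Ring S] (ε : S →ₙ+* R)

/-- `z ⊕ w = Ex r * x` and `κ x = k`. -/
def Dat {n m : Type} [Fintype n] [DecidableEq n] [Fintype m] [DecidableEq m]
    (z : Matrix n n R) (w : Matrix m m R) (k : K) : Prop :=
  ∃ (r : Matrix (n ⊕ m) (n ⊕ m) S) (x : Matrix (n ⊕ m) (n ⊕ m) R), IsUnit r ∧ IsUnit x ∧
    Cg J' x 1 ∧ fromBlocks z 0 0 w = Ex ε r * x ∧ κ.f x = k

variable {κ ε} {n m n₁ m₁ q : Type} [Fintype n] [DecidableEq n] [Fintype m] [DecidableEq m]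
  [Fintype n₁] [DecidableEq n₁] [Fintype m₁] [DecidableEq m₁] [Fintype q] [DecidableEq q]
  {z : Matrix n n R} {w : Matrix m m R} {k : K}

theorem Dat.gen (h : Dat κ ε z w k) (e : (n ⊕ m) ⊕ q ≃ n₁ ⊕ m₁) {z₁ : Matrix n₁ n₁ R}
    {w₁ : Matrix m₁ m₁ R} (he : fromBlocks z₁ 0 0 w₁ =
      (fromBlocks (fromBlocks z 0 0 w) 0 0 (1 : Matrix q q R)).submatrix e.symm e.symm) :
    Dat κ ε z₁ w₁ k := by
  obtain ⟨r, x, hr, hx, hc, h1, h2⟩ := h
  have u1 : IsUnit (fromBlocks x 0 0 (1 : Matrix q q R)) := K1Fun.isUnit_tri 0 hx isUnit_one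
  have c1 : Cg J' (fromBlocks x 0 0 (1 : Matrix q q R)) 1 := hc.blocks_one (Cg.refl _)
  refine ⟨(fromBlocks r 0 0 1).submatrix e.symm e.symm, (fromBlocks x 0 0 1).submatrix e.symm e.symm,
    K1Fun.isUnit_submatrix e (K1Fun.isUnit_tri 0 hr isUnit_one), K1Fun.isUnit_submatrix e u1,
    c1.sub_one e, ?_, ?_⟩
  · rw [he, ex_sub, ex_blocks, submatrix_mul_equiv, fromBlocks_multiply, h1, ex_one,
      Matrix.map_zero _ (map_zero ε), Matrix.map_zero _ (map_zero ε)]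
    simp only [Matrix.mul_zero, Matrix.zero_mul, add_zero, zero_add, Matrix.mul_one]
  · rw [κ.reindex e _ u1 c1, κ.tri _ 0 _ hx isUnit_one hc (Cg.refl _) (Cg.refl _), h2, κ.f_one,
      _root_.mul_one]

theorem Dat.padR (h : Dat κ ε z w k) (q : Type) [Fintype q] [DecidableEq q] :
    Dat κ ε z (fromBlocks w 0 0 (1 : Matrix q q R)) k := by
  refine h.gen (q := q) (Equiv.sumAssoc n m q) ?_
  ext (i | i | i) (j | j | j) <;> rfl

theorem Dat.padL (h : Dat κ ε z w k) (q : Type) [Fintype q] [DecidableEq q] :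
    Dat κ ε z (fromBlocks (1 : Matrix q q R) 0 0 w) k := by
  refine h.gen (q := q) ((Equiv.sumAssoc n m q).trans
    (Equiv.sumCongr (Equiv.refl n) (Equiv.sumComm m q))) ?_
  ext (i | i | i) (j | j | j) <;> rfl

theorem Dat.sumR (h : Dat κ ε z w k) (q : Type) [Fintype q] [DecidableEq q] :
    Dat κ ε (fromBlocks z 0 0 (1 : Matrix q q R)) w k := by
  refine h.gen (q := q) ((Equiv.sumAssoc n m q).trans
    ((Equiv.sumCongr (Equiv.refl n) (Equiv.sumComm m q)).trans (Equiv.sumAssoc n q m).symm)) ?_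
  ext ((i | i) | i) ((j | j) | j) <;> rfl

theorem Dat.sumL (h : Dat κ ε z w k) (q : Type) [Fintype q] [DecidableEq q] :
    Dat κ ε (fromBlocks (1 : Matrix q q R) 0 0 z) w k := by
  refine h.gen (q := q) ((Equiv.sumComm (n ⊕ m) q).trans (Equiv.sumAssoc q n m).symm) ?_
  ext ((i | i) | i) ((j | j) | j) <;> rfl

theorem Dat.re (h : Dat κ ε z w k) (e : n ≃ n₁) : Dat κ ε (z.submatrix e.symm e.symm) w k := by
  refine h.gen (q := Empty) ((Equiv.sumEmpty (n ⊕ m) Empty).trans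
    (Equiv.sumCongr e (Equiv.refl m))) ?_
  ext (i | i) (j | j) <;> rfl

/-- The special part is absorbed. -/
theorem Dat.abs {z' : Matrix n₁ n₁ R} (h : Dat κ ε (fromBlocks z 0 0 z') w k) :
    Dat κ ε z (fromBlocks z' 0 0 w) k := by
  refine h.gen (q := Empty) ((Equiv.sumEmpty ((n ⊕ n₁) ⊕ m) Empty).trans
    (Equiv.sumAssoc n n₁ m)) ?_
  ext (i | i | i) (j | j | j) <;> rfl

theorem Dat.all (h : Dat κ ε z w k) :
    Dat κ ε (1 : Matrix Empty Empty R) (fromBlocks z 0 0 w) k := by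
  refine h.gen (q := Empty) (Equiv.sumComm (n ⊕ m) Empty) ?_
  ext (i | i | i) (j | j | j)
  all_goals first
    | exact i.elim
    | exact j.elim
    | rfl

section Conj

variable [J'.IsTwoSided] (hconj : S_conj) (hLU : LU J')

include hconj hLU

theorem Dat.mul {z₁ z₂ : Matrix n n R} {w₁ w₂ : Matrix m m R} {k₁ k₂ : K}
    (h₁ : Dat κ ε z₁ w₁ k₁) (h₂ : Dat κ ε z₂ w₂ k₂) :
    Dat κ ε (z₁ * z₂) (w₁ * w₂) (k₁ * k₂) := by
  obtain ⟨r₁, x₁, hr₁, hx₁, hc₁, e₁, f₁⟩ := h₁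
  obtain ⟨r₂, x₂, hr₂, hx₂, hc₂, e₂, f₂⟩ := h₂
  obtain ⟨u, hu⟩ := hr₂
  have g1 : Ex ε ((u⁻¹ : (Matrix (n ⊕ m) (n ⊕ m) S)ˣ) : Matrix (n ⊕ m) (n ⊕ m) S) * Ex ε r₂ = 1 := by
    rw [← ex_mul, ← hu, u.inv_mul, ex_one]
  have g2 : Ex ε r₂ * Ex ε ((u⁻¹ : (Matrix (n ⊕ m) (n ⊕ m) S)ˣ) : Matrix (n ⊕ m) (n ⊕ m) S) = 1 := by
    rw [← ex_mul, ← hu, u.mul_inv, ex_one]
  set g := Ex ε ((u⁻¹ : (Matrix (n ⊕ m) (n ⊕ m) S)ˣ) : Matrix (n ⊕ m) (n ⊕ m) S) with hg
  have ug : IsUnit g := ⟨⟨g, Ex ε r₂, g1, g2⟩, rfl⟩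
  have ur : IsUnit (Ex ε r₂) := ⟨⟨Ex ε r₂, g, g2, g1⟩, rfl⟩
  have uc : IsUnit (g * x₁ * Ex ε r₂) := (ug.mul hx₁).mul ur
  have cc : Cg J' (g * x₁ * Ex ε r₂) 1 := by
    have h0 : Cg J' (g * x₁ * Ex ε r₂) (g * 1 * Ex ε r₂) := (hc₁.mul_left g).mul_right _
    rwa [Matrix.mul_one, g1] at h0
  refine ⟨r₁ * r₂, g * x₁ * Ex ε r₂ * x₂, hr₁.mul ⟨u, hu⟩, uc.mul hx₂, cc.mul_one hc₂, ?_, ?_⟩
  · have h0 : fromBlocks (z₁ * z₂) 0 0 (w₁ * w₂) = fromBlocks z₁ 0 0 w₁ * fromBlocks z₂ 0 0 w₂ := by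
      rw [fromBlocks_multiply]
      simp only [Matrix.mul_zero, Matrix.zero_mul, add_zero, zero_add]
    rw [h0, e₁, e₂, ex_mul]
    calc Ex ε r₁ * x₁ * (Ex ε r₂ * x₂) = Ex ε r₁ * 1 * x₁ * (Ex ε r₂ * x₂) := by
          rw [Matrix.mul_one]
      _ = Ex ε r₁ * (Ex ε r₂ * g) * x₁ * (Ex ε r₂ * x₂) := by rw [g2]
      _ = Ex ε r₁ * Ex ε r₂ * (g * x₁ * Ex ε r₂ * x₂) := by
          simp only [Matrix.mul_assoc]
  · rw [κ.mul _ _ uc hx₂ cc hc₂, hconj R J' K κ hLU (n ⊕ m) g (Ex ε r₂) x₁ g1 g2 hx₁ hc₁, f₁, f₂]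

theorem Dat.inv {z z' : Matrix n n R} {w w' : Matrix m m R} {k : K} (h : Dat κ ε z w k)
    (hz : z' * z = 1) (hw : w' * w = 1) : Dat κ ε z' w' k⁻¹ := by
  obtain ⟨r, x, ⟨u, hu⟩, ⟨v, hv⟩, hc, e, f⟩ := h
  have g1 : Ex ε ((u⁻¹ : (Matrix (n ⊕ m) (n ⊕ m) S)ˣ) : Matrix (n ⊕ m) (n ⊕ m) S) * Ex ε r = 1 := by
    rw [← ex_mul, ← hu, u.inv_mul, ex_one]
  have g2 : Ex ε r * Ex ε ((u⁻¹ : (Matrix (n ⊕ m) (n ⊕ m) S)ˣ) : Matrix (n ⊕ m) (n ⊕ m) S) = 1 := by
    rw [← ex_mul, ← hu, u.mul_inv, ex_one]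
  set g := Ex ε ((u⁻¹ : (Matrix (n ⊕ m) (n ⊕ m) S)ˣ) : Matrix (n ⊕ m) (n ⊕ m) S) with hg
  have ug : IsUnit g := ⟨⟨g, Ex ε r, g1, g2⟩, rfl⟩
  have ur : IsUnit (Ex ε r) := ⟨⟨Ex ε r, g, g2, g1⟩, rfl⟩
  set y : Matrix (n ⊕ m) (n ⊕ m) R := ((v⁻¹ : (Matrix (n ⊕ m) (n ⊕ m) R)ˣ) :
    Matrix (n ⊕ m) (n ⊕ m) R) with hy
  have y1 : y * x = 1 := by rw [hy, ← hv, v.inv_mul]
  have y2 : x * y = 1 := by rw [hy, ← hv, v.mul_inv]
  have uy : IsUnit y := ⟨⟨y, x, y1, y2⟩, rfl⟩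
  have cy : Cg J' y 1 := hc.inv y1
  have uc : IsUnit (Ex ε r * y * g) := (ur.mul uy).mul ug
  have cc : Cg J' (Ex ε r * y * g) 1 := by
    have h0 : Cg J' (Ex ε r * y * g) (Ex ε r * 1 * g) := (cy.mul_left _).mul_right _
    rwa [Matrix.mul_one, g2] at h0
  refine ⟨((u⁻¹ : (Matrix (n ⊕ m) (n ⊕ m) S)ˣ) : Matrix (n ⊕ m) (n ⊕ m) S), Ex ε r * y * g,
    (u⁻¹).isUnit, uc, cc, ?_, ?_⟩
  · have h1 : fromBlocks z' 0 0 w' * fromBlocks z 0 0 w = (1 : Matrix (n ⊕ m) (n ⊕ m) R) := by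
      rw [fromBlocks_multiply]
      simp only [Matrix.mul_zero, Matrix.zero_mul, add_zero, zero_add, hz, hw, fromBlocks_one]
    have h2 : fromBlocks z 0 0 w * (y * g) = (1 : Matrix (n ⊕ m) (n ⊕ m) R) := by
      rw [e, Matrix.mul_assoc, ← Matrix.mul_assoc x, y2, Matrix.one_mul, g2]
    have h3 : fromBlocks z' 0 0 w' = y * g := by
      calc fromBlocks z' 0 0 w' = fromBlocks z' 0 0 w' * (fromBlocks z 0 0 w * (y * g)) := by
            rw [h2, Matrix.mul_one]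
        _ = y * g := by rw [← Matrix.mul_assoc, h1, Matrix.one_mul]
    rw [h3]
    change y * g = g * (Ex ε r * y * g)
    rw [← Matrix.mul_assoc, ← Matrix.mul_assoc g, g1, Matrix.one_mul]
  · rw [hconj R J' K κ hLU (n ⊕ m) (Ex ε r) g y g2 g1 uy cy]
    have h4 := κ.mul y x uy ⟨v, hv⟩ cy hc
    rw [y1, κ.f_one, f] at h4
    exact eq_inv_of_mul_eq_one_left h4.symm

end Conj

end Dat

section VV

variable {R : Type} [Ring R] {J' J : Ideal R} [J'.IsTwoSided] {K : Type} [CommGroup K]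
  (κ : KR R J' K) {S : Type} [Ring S] (ε : S →ₙ+* R)
  (M : ∀ (n : Type) [Fintype n] [DecidableEq n], Matrix n n R → Prop)

/-- `k` is a value at `z`. -/
def VV {n : Type} [Fintype n] [DecidableEq n] (z : Matrix n n R) (k : K) : Prop :=
  ∃ (m : Type) (_ : Fintype m) (_ : DecidableEq m) (w : Matrix m m R), M m w ∧ Dat κ ε z w k

variable {κ ε M}

omit [J'.IsTwoSided] in
theorem VV.re {n n₁ : Type} [Fintype n] [DecidableEq n] [Fintype n₁] [DecidableEq n₁]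
    {z : Matrix n n R} {k : K} (h : VV κ ε M z k) (e : n ≃ n₁) :
    VV κ ε M (z.submatrix e.symm e.symm) k := by
  obtain ⟨m, i1, i2, w, hw, hd⟩ := h
  exact ⟨m, i1, i2, w, hw, hd.re e⟩

variable (hM : Spc R J M)

include hM

omit [J'.IsTwoSided] in
theorem VV.restr {n : Type} [Fintype n] [DecidableEq n] {z : Matrix n n R} (hz : IsUnit z)
    (hc : Cg J' z 1) : VV κ ε M z (κ.f z) := by
  refine ⟨Empty, inferInstance, inferInstance, 1, hM.one Empty, 1, fromBlocks z 0 0 1, isUnit_one,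
    K1Fun.isUnit_tri 0 hz isUnit_one, hc.blocks_one (Cg.refl _), ?_, ?_⟩
  · rw [ex_one, Matrix.one_mul]
  · rw [κ.tri _ 0 _ hz isUnit_one hc (Cg.refl _) (Cg.refl _), κ.f_one, _root_.mul_one]

omit [J'.IsTwoSided] in
/-- Unipotent matrices. -/
theorem VV.unip {n m : Type} [Fintype n] [DecidableEq n] [Fintype m] [DecidableEq m]
    (C : Matrix n m R) (c : Matrix n m S) (hC : Cg J' C (c.map ε)) :
    VV κ ε M (fromBlocks 1 C 0 1) 1 := by
  set c'' := C - c.map ε with hc''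
  have h0 : Cg J' c'' 0 := fun i j => by
    rw [Matrix.zero_apply, sub_zero]
    exact hC i j
  have u0 : IsUnit (fromBlocks (1 : Matrix n n R) c'' 0 (1 : Matrix m m R)) :=
    K1Fun.isUnit_tri c'' isUnit_one isUnit_one
  have c0 : Cg J' (fromBlocks (1 : Matrix n n R) c'' 0 (1 : Matrix m m R)) 1 := by
    have := (Cg.refl (J := J') (1 : Matrix n n R)).blocks h0 (Cg.refl (0 : Matrix m n R))
      (Cg.refl (1 : Matrix m m R))
    rwa [fromBlocks_one] at this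
  refine ⟨Empty, inferInstance, inferInstance, 1, hM.one Empty,
    fromBlocks (fromBlocks 1 c 0 1) 0 0 1, fromBlocks (fromBlocks 1 c'' 0 1) 0 0 1,
    K1Fun.isUnit_tri 0 (K1Fun.isUnit_tri c isUnit_one isUnit_one) isUnit_one,
    K1Fun.isUnit_tri 0 u0 isUnit_one, c0.blocks_one (Cg.refl _), ?_, ?_⟩
  · have h1 : C = c'' + c.map ε := by rw [hc'', sub_add_cancel]
    rw [ex_blocks, ex_blocks, fromBlocks_multiply, fromBlocks_multiply]
    simp only [ex_one, Matrix.map_zero _ (map_zero ε), Matrix.mul_zero, Matrix.zero_mul, add_zero,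
      zero_add, Matrix.mul_one, Matrix.one_mul]
    rw [← h1]
  · rw [κ.tri _ 0 _ u0 isUnit_one c0 (Cg.refl _) (Cg.refl _), κ.f_one, _root_.mul_one,
      κ.tri _ c'' _ isUnit_one isUnit_one (Cg.refl _) h0 (Cg.refl _), κ.f_one, κ.f_one,
      _root_.mul_one]

omit [J'.IsTwoSided] in
/-- Existence. -/
theorem VV.ex {β : Type} {T : β → Type} [∀ b, Ring (T b)] {ε : ∀ b, T b →ₙ+* R}
    (hG : Gen J' J T ε M) (b : β) {n : Type} [Fintype n] [DecidableEq n] {z : Matrix n n R}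
    (hz : IsUnit z) (hc : Cg J z 1) (z' : Matrix n n (T b)) (h : Cg J' z (Ex (ε b) z')) :
    ∃ k, VV κ (ε b) M z k := by
  obtain ⟨m, i1, i2, w, r, hw, ⟨u, hu⟩, hr⟩ := hG b n z z' hz hc h
  have g1 : Ex (ε b) ((u⁻¹ : (Matrix (n ⊕ m) (n ⊕ m) (T b))ˣ) : Matrix (n ⊕ m) (n ⊕ m) (T b)) *
      Ex (ε b) r = 1 := by
    rw [← ex_mul, ← hu, u.inv_mul, ex_one]
  have g2 : Ex (ε b) r * Ex (ε b) ((u⁻¹ : (Matrix (n ⊕ m) (n ⊕ m) (T b))ˣ) :
      Matrix (n ⊕ m) (n ⊕ m) (T b)) = 1 := by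
    rw [← ex_mul, ← hu, u.mul_inv, ex_one]
  set g := Ex (ε b) ((u⁻¹ : (Matrix (n ⊕ m) (n ⊕ m) (T b))ˣ) : Matrix (n ⊕ m) (n ⊕ m) (T b))
    with hg
  have ug : IsUnit g := ⟨⟨g, Ex (ε b) r, g1, g2⟩, rfl⟩
  refine ⟨_, m, i1, i2, w, hw, r, g * fromBlocks z 0 0 w, ⟨u, hu⟩,
    ug.mul (K1Fun.isUnit_tri 0 hz (hM.unit m w hw).1), ?_, ?_, rfl⟩
  · have := hr.mul_left g
    rwa [g1] at this
  · rw [← Matrix.mul_assoc, g2, Matrix.one_mul]

variable (hconj : S_conj) (hLU : LU J')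

include hconj hLU

theorem VV.mul {n : Type} [Fintype n] [DecidableEq n] {z₁ z₂ : Matrix n n R} {k₁ k₂ : K}
    (h₁ : VV κ ε M z₁ k₁) (h₂ : VV κ ε M z₂ k₂) : VV κ ε M (z₁ * z₂) (k₁ * k₂) := by
  obtain ⟨m₁, _, _, w₁, hw₁, hd₁⟩ := h₁
  obtain ⟨m₂, _, _, w₂, hw₂, hd₂⟩ := h₂
  refine ⟨m₁ ⊕ m₂, inferInstance, inferInstance, fromBlocks w₁ 0 0 w₂, hM.sum _ _ _ _ hw₁ hw₂, ?_⟩
  have h := Dat.mul hconj hLU (hd₁.padR m₂) (hd₂.padL m₁)
  have h0 : fromBlocks w₁ 0 0 (1 : Matrix m₂ m₂ R) * fromBlocks (1 : Matrix m₁ m₁ R) 0 0 w₂ =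
      fromBlocks w₁ 0 0 w₂ := by
    rw [fromBlocks_multiply]
    simp only [Matrix.mul_zero, Matrix.zero_mul, add_zero, zero_add, Matrix.mul_one,
      Matrix.one_mul]
  rwa [h0] at h

theorem VV.tri {n m : Type} [Fintype n] [DecidableEq n] [Fintype m] [DecidableEq m]
    {A : Matrix n n R} {D : Matrix m m R} {k₁ k₂ : K} (h₁ : VV κ ε M A k₁) (h₂ : VV κ ε M D k₂)
    (B C : Matrix n m R) (hB : A * C = B) (c : Matrix n m S) (hC : Cg J' C (c.map ε)) :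
    VV κ ε M (fromBlocks A B 0 D) (k₁ * k₂) := by
  obtain ⟨m₁, i₁, j₁, w₁, hw₁, hd₁⟩ := h₁
  obtain ⟨m₂, i₂, j₂, w₂, hw₂, hd₂⟩ := h₂
  have h1 : VV κ ε M (fromBlocks A 0 0 (1 : Matrix m m R)) k₁ := ⟨m₁, i₁, j₁, w₁, hw₁, hd₁.sumR m⟩
  have h2 : VV κ ε M (fromBlocks (1 : Matrix n n R) 0 0 D) k₂ := ⟨m₂, i₂, j₂, w₂, hw₂, hd₂.sumL n⟩
  have h3 := VV.mul hM hconj hLU (VV.mul hM hconj hLU h1 h2) (VV.unip (κ := κ) hM C c hC)
  have h0 : fromBlocks A 0 0 (1 : Matrix m m R) * fromBlocks (1 : Matrix n n R) 0 0 D *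
      fromBlocks 1 C 0 1 = fromBlocks A B 0 D := by
    rw [fromBlocks_multiply, fromBlocks_multiply]
    simp only [Matrix.mul_zero, Matrix.zero_mul, add_zero, zero_add, Matrix.mul_one,
      Matrix.one_mul, hB]
  rwa [h0, _root_.mul_one] at h3

theorem VV.uniq (ht : ∀ (n m : Type) [Fintype n] [DecidableEq n] [Fintype m] [DecidableEq m]
      (w : Matrix m m R) (r : Matrix (n ⊕ m) (n ⊕ m) S) (x : Matrix (n ⊕ m) (n ⊕ m) R),
      M m w → IsUnit r → IsUnit x → Cg J' x 1 → fromBlocks 1 0 0 w = Ex ε r * x → κ.f x = 1)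
    {n : Type} [Fintype n] [DecidableEq n] {z : Matrix n n R} (hz : IsUnit z) {k₁ k₂ : K}
    (h₁ : VV κ ε M z k₁) (h₂ : VV κ ε M z k₂) : k₁ = k₂ := by
  obtain ⟨m₁, _, _, w₁, hw₁, hd₁⟩ := h₁
  obtain ⟨m₂, _, _, w₂, hw₂, hd₂⟩ := h₂
  obtain ⟨u, hu⟩ := hz
  obtain ⟨v, hv⟩ := (hM.unit m₁ w₁ hw₁).1
  have a1 : ((u⁻¹ : (Matrix n n R)ˣ) : Matrix n n R) * z = 1 := by rw [← hu, u.inv_mul]
  have a2 : ((v⁻¹ : (Matrix m₁ m₁ R)ˣ) : Matrix m₁ m₁ R) * w₁ = 1 := by rw [← hv, v.inv_mul]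
  have a3 : w₁ * ((v⁻¹ : (Matrix m₁ m₁ R)ˣ) : Matrix m₁ m₁ R) = 1 := by rw [← hv, v.mul_inv]
  have h1 : Dat κ ε ((u⁻¹ : (Matrix n n R)ˣ) : Matrix n n R)
      (fromBlocks ((v⁻¹ : (Matrix m₁ m₁ R)ˣ) : Matrix m₁ m₁ R) 0 0 (1 : Matrix m₂ m₂ R)) k₁⁻¹ := by
    refine Dat.inv hconj hLU (hd₁.padR m₂) a1 ?_
    rw [fromBlocks_multiply, a2]
    simp only [Matrix.mul_zero, Matrix.zero_mul, add_zero, zero_add, Matrix.mul_one,
      fromBlocks_one]
  have h2 := Dat.mul hconj hLU h1 (hd₂.padL m₁)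
  have h0 : fromBlocks ((v⁻¹ : (Matrix m₁ m₁ R)ˣ) : Matrix m₁ m₁ R) 0 0 (1 : Matrix m₂ m₂ R) *
      fromBlocks (1 : Matrix m₁ m₁ R) 0 0 w₂ =
      fromBlocks ((v⁻¹ : (Matrix m₁ m₁ R)ˣ) : Matrix m₁ m₁ R) 0 0 w₂ := by
    rw [fromBlocks_multiply]
    simp only [Matrix.mul_zero, Matrix.zero_mul, add_zero, zero_add, Matrix.mul_one,
      Matrix.one_mul]
  rw [h0, a1] at h2
  obtain ⟨r, x, hr, hx, hc, e, f⟩ := h2
  have h3 := ht n (m₁ ⊕ m₂) _ r x (hM.sum _ _ _ _ (hM.inv _ _ _ hw₁ a3 a2) hw₂) hr hx hc e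
  rw [f] at h3
  exact (inv_mul_eq_one.1 h3)

end VV

section Fin

variable {R : Type} [Ring R] {J' J : Ideal R} {β : Type} [Preorder β] {T : β → Type}
  [∀ b, Ring (T b)] {I : ∀ b, Ideal (T b)} {ε : ∀ b, T b →ₙ+* R}

theorem Lad.up (hL : Lad R J' J β T I ε) {b b' : β} (h : b ≤ b') {n m : Type}
    (c : Matrix n m (T b)) : ∃ c' : Matrix n m (T b'), Cg J' (c.map (ε b)) (c'.map (ε b')) := by
  choose c' hc' using hL.mono b b' h
  exact ⟨c.map c', fun i j => hc' _⟩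

theorem Lad.fam [Nonempty β] (hL : Lad R J' J β T I ε) {n m : Type} [Finite n] [Finite m]
    (x : Matrix n m R) (hx : ∀ i j, x i j ∈ J) :
    ∃ b, ∃ c : Matrix n m (T b), Cg J' x (c.map (ε b)) := by
  have : IsDirectedOrder β := ⟨hL.dir⟩
  choose b c hc using fun p : n × m => hL.dec (x p.1 p.2) (hx p.1 p.2)
  obtain ⟨d, hd⟩ := Finite.exists_le b
  choose c' hc' using fun p : n × m => hL.mono (b p) d (hd p) (c p)
  refine ⟨d, fun i j => c' (i, j), fun i j => ?_⟩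
  have h := J'.add_mem (hc (i, j)) (hc' (i, j))
  rwa [sub_add_sub_cancel] at h

theorem cg_ex_map {b : β} {n : Type} [DecidableEq n] {z : Matrix n n R}
    {c : Matrix n n (T b)} (h : Cg J' (z - 1) (c.map (ε b))) :
    Cg J' z (Ex (ε b) (1 + c)) := fun i j => by
  have h1 := h i j
  rw [Ex, add_sub_cancel_left, Matrix.add_apply]
  rwa [Matrix.sub_apply, sub_sub] at h1

end Fin

theorem ext_inv (hconj : S_conj) : S_ext := by
  classical
  intro R _ J' J _ _ β _ _ T _ I ε M hL hM hG hF hLU K _ κ ht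
  -- comparison
  have indep : ∀ (b b' : β), b ≤ b' → ∀ (n : Type) [Fintype n] [DecidableEq n]
      (z : Matrix n n R) (k : K), VV κ (ε b) M z k → VV κ (ε b') M z k := by
    intro b b' hbb
    have hex : ∀ (n : Type) [Fintype n] [DecidableEq n] (r : Matrix n n (T b)), IsUnit r →
        ∃ k, VV κ (ε b') M (Ex (ε b) r) k := by
      intro n _ _ r hr
      obtain ⟨c', hc'⟩ := hL.up hbb (r - 1)
      refine VV.ex hM hG b' (ex_unit _ hr) (cg_ex (hL.mem b) r) (1 + c') (cg_ex_map ?_)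
      rw [Ex, add_sub_cancel_left]
      exact hc'
    let val : ∀ {n : Type} [Fintype n] [DecidableEq n], Matrix n n (T b) → K :=
      fun {n} _ _ r => if h : ∃ k, VV κ (ε b') M (Ex (ε b) r) k then h.choose else 1
    have hval : ∀ (n : Type) [Fintype n] [DecidableEq n] (r : Matrix n n (T b)), IsUnit r →
        VV κ (ε b') M (Ex (ε b) r) (val r) := by
      intro n _ _ r hr
      have h := hex n r hr
      change VV κ (ε b') M (Ex (ε b) r) (if h : ∃ k, VV κ (ε b') M (Ex (ε b) r) k then h.choose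
        else 1)
      rw [dif_pos h]
      exact h.choose_spec
    have key : ∀ (n : Type) [Fintype n] [DecidableEq n] (r : Matrix n n (T b)) (k : K), IsUnit r →
        VV κ (ε b') M (Ex (ε b) r) k → val r = k := fun n _ _ r k hr h =>
      VV.uniq hM hconj hLU (ht b') (ex_unit _ hr) (hval n r hr) h
    let κ₁ : K1Fun (T b) K :=
      { f := val
        mul := fun {n} _ _ A B hA hB => key n _ _ (hA.mul hB) (by
          rw [ex_mul]
          exact VV.mul hM hconj hLU (hval n A hA) (hval n B hB))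
        reindex := fun {n m} _ _ _ _ e A hA => key m _ _ (K1Fun.isUnit_submatrix e hA) (by
          rw [ex_sub]
          exact (hval n A hA).re e)
        tri := fun {n m} _ _ _ _ A B D hA hD => key (n ⊕ m) _ _ (K1Fun.isUnit_tri B hA hD) (by
          obtain ⟨u, hu⟩ := hA
          obtain ⟨c, hc⟩ := hL.up hbb (((u⁻¹ : (Matrix n n (T b))ˣ) : Matrix n n (T b)) * B)
          rw [ex_blocks, Matrix.map_zero _ (map_zero (ε b))]
          refine VV.tri hM hconj hLU (hval n A ⟨u, hu⟩) (hval m D hD) _ _ ?_ c hc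
          have h1 : A * (((u⁻¹ : (Matrix n n (T b))ˣ) : Matrix n n (T b)) * B) = B := by
            rw [← Matrix.mul_assoc, ← hu, u.mul_inv, Matrix.one_mul]
          conv_rhs => rw [← h1]
          rw [Ex, Matrix.add_mul, Matrix.one_mul, ← mp_mul, ← mp_add, Matrix.sub_mul,
            Matrix.one_mul, add_sub_cancel]) }
    have h1 : ∀ (n : Type) [Fintype n] [DecidableEq n] (r : Matrix n n (T b)), IsUnit r →
        VV κ (ε b') M (Ex (ε b) r) 1 := by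
      intro n _ _ r hr
      have h := hF b K κ₁ n r hr
      change val r = 1 at h
      rw [← h]
      exact hval n r hr
    intro n _ _ z k h
    obtain ⟨m, _, _, w, hw, r, x, hr, hx, hc, e, f⟩ := h
    have h2 := VV.mul hM hconj hLU (h1 _ r hr) (VV.restr (κ := κ) hM hx hc)
    rw [_root_.one_mul, ← e, f] at h2
    obtain ⟨m', _, _, w', hw', hd⟩ := h2
    exact ⟨m ⊕ m', inferInstance, inferInstance, fromBlocks w 0 0 w', hM.sum _ _ _ _ hw hw', hd.abs⟩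
  have hex : ∀ (n : Type) [Fintype n] [DecidableEq n] (z : Matrix n n R), IsUnit z → Cg J z 1 →
      ∃ k, ∃ b, VV κ (ε b) M z k := by
    intro n _ _ z hz hc
    obtain ⟨b, c, hb⟩ := hL.fam (z - 1) fun i j => hc i j
    obtain ⟨k, hk⟩ := VV.ex (κ := κ) hM hG b hz hc (1 + c) (cg_ex_map hb)
    exact ⟨k, b, hk⟩
  let val : ∀ {n : Type} [Fintype n] [DecidableEq n], Matrix n n R → K :=
    fun {n} _ _ z => if h : ∃ k, ∃ b, VV κ (ε b) M z k then h.choose else 1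
  have hval : ∀ (n : Type) [Fintype n] [DecidableEq n] (z : Matrix n n R), IsUnit z → Cg J z 1 →
      ∃ b, VV κ (ε b) M z (val z) := by
    intro n _ _ z hz hc
    have h := hex n z hz hc
    change ∃ b, VV κ (ε b) M z (if h : ∃ k, ∃ b, VV κ (ε b) M z k then h.choose else 1)
    rw [dif_pos h]
    exact h.choose_spec
  have key : ∀ (n : Type) [Fintype n] [DecidableEq n] (z : Matrix n n R) (k : K) (b : β),
      IsUnit z → Cg J z 1 → VV κ (ε b) M z k → val z = k := by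
    intro n _ _ z k b hz hc h
    obtain ⟨c, hc'⟩ := hval n z hz hc
    obtain ⟨d, h1, h2⟩ := hL.dir c b
    exact VV.uniq hM hconj hLU (ht d) hz (indep c d h1 n z _ hc') (indep b d h2 n z _ h)
  refine ⟨{ f := val, mul := ?_, reindex := ?_, tri := ?_ }, ?_, ?_⟩
  · intro n _ _ A B hA hB cA cB
    obtain ⟨b, hb⟩ := hval n A hA cA
    obtain ⟨c, hc⟩ := hval n B hB cB
    obtain ⟨d, h1, h2⟩ := hL.dir b c
    exact key n _ _ d (hA.mul hB) (cA.mul_one cB)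
      (VV.mul hM hconj hLU (indep b d h1 n A _ hb) (indep c d h2 n B _ hc))
  · intro n m _ _ _ _ e A hA cA
    obtain ⟨b, hb⟩ := hval n A hA cA
    exact key m _ _ b (K1Fun.isUnit_submatrix e hA) (cA.sub_one e) (hb.re e)
  · intro n m _ _ _ _ A B D hA hD cA cB cD
    obtain ⟨b, hb⟩ := hval n A hA cA
    obtain ⟨c, hc⟩ := hval m D hD cD
    obtain ⟨u, hu⟩ := hA
    have cC : ∀ i j, (((u⁻¹ : (Matrix n n R)ˣ) : Matrix n n R) * B) i j ∈ J := by
      intro i j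
      have := (cB.mul_left ((u⁻¹ : (Matrix n n R)ˣ) : Matrix n n R)) i j
      rwa [Matrix.mul_zero, Matrix.zero_apply, sub_zero] at this
    obtain ⟨b₁, c₁, hc₁⟩ := hL.fam _ cC
    obtain ⟨d₀, h1, h2⟩ := hL.dir b c
    obtain ⟨d, h3, h4⟩ := hL.dir d₀ b₁
    obtain ⟨c₂, hc₂⟩ := hL.up h4 c₁
    refine key (n ⊕ m) _ _ d (K1Fun.isUnit_tri B ⟨u, hu⟩ hD) ?_
      (VV.tri hM hconj hLU (indep b d (h1.trans h3) n A _ hb) (indep c d (h2.trans h3) m D _ hc) B _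
        ?_ c₂ (hc₁.trans hc₂))
    · rw [← fromBlocks_one]
      exact cA.blocks cB (Cg.refl _) cD
    · rw [← Matrix.mul_assoc, ← hu, u.mul_inv, Matrix.one_mul]
  · intro n _ _ z hz hc
    exact key n z _ (Classical.arbitrary β) hz (hc.le hL.le) (VV.restr hM hz hc)
  · intro n _ _ z hz
    obtain ⟨uz, cz⟩ := hM.unit n z hz
    obtain ⟨b, m, _, _, w, hw, hd⟩ := hval n z uz cz
    change val z = 1
    obtain ⟨r, x, hr, hx, hc, e, f⟩ := hd.all
    rw [← f]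
    exact ht b Empty (n ⊕ m) _ r x (hM.sum _ _ _ _ hz hw) hr hx hc e

end Pool.Agent.CC
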