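import Pool.Agent.Lib.MP_8f66f0_al_CC.End.FinSpec
import Pool.Agent.Lib.MP_8f66f0_al_CC.SFt
import Pool.Agent.Lib.MP_8f66f0_al_Hier.Nil

/-!
# Theorem CC: homotopy invariance for the group algebra
-/

set_option autoImplicit false

namespace Pool.Agent.CC

open Pool.Agent.Wald Pool.Agent.Ind Pool.Agent.WaldL Pool.Agent.Hier Matrix
open scoped Polynomial

private noncomputable def nkC (L Γ : Type) [CommRing L] [Group Γ] :
    MonoidAlgebra L Γ →ₐ[L] (MonoidAlgebra L Γ)[X] := Polynomial.CAlgHom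

private theorem nk_lt (L Γ : Type) [CommRing L] [Group Γ] :
    IsLT L (nkC L Γ) (MonoidAlgebra.of L Γ) fun _ : Unit => (Polynomial.X : (MonoidAlgebra L Γ)[X]) := by
  have hg : (gr L (rhoX L Γ) : MonoidAlgebra L Γ →+* (MonoidAlgebra L Γ)[X]) =
      (nkC L Γ : MonoidAlgebra L Γ →+* (MonoidAlgebra L Γ)[X]) :=
    RingHom.ext fun x => gr_rhoX L Γ x
  have hr : ∀ x, gr L (MonoidAlgebra.of L Γ) x = x := by
    intro x
    have h : gr L (MonoidAlgebra.of L Γ) = AlgHom.id L _ :=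
      (MonoidAlgebra.lift L (MonoidAlgebra L Γ) Γ).apply_symm_apply (AlgHom.id L _)
    rw [h]
    rfl
  refine ⟨?_, fun i q => ⟨0, Finsupp.single () q, ?_⟩, LinearMap.id, hr⟩
  · have h := (blkX L Γ).free
    rw [hg] at h
    exact h
  · rw [map_zero, zero_add, Finsupp.sum_single_index, hr]
    · exact (Polynomial.X_mul_C q)
    · rw [map_zero, map_zero, zero_mul]

private theorem nk_ev {L Γ : Type} [CommRing L] [Group Γ] (c : L) (x : MonoidAlgebra L Γ) :
    MonoidAlgebra.mapRingHom Γ (Polynomial.evalRingHom c) (polM L Γ (Polynomial.C x)) = x := by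
  have h : polM L Γ (Polynomial.C x) = MonoidAlgebra.mapRingHom Γ Polynomial.C x :=
    Polynomial.eval₂_C _ _
  rw [h]
  refine MonoidAlgebra.ext (Finsupp.ext fun g => ?_)
  rw [MonoidAlgebra.coeff_mapRingHom, MonoidAlgebra.coeff_mapRingHom]
  exact Polynomial.eval_C

theorem nk : S_nk := by
  intro Γ L K _ _ _ _ hS hL κ n _ _ A hA
  have h := hS L hL _ _ _ _ _ _ (nk_lt L Γ)
  let e : L → (MonoidAlgebra L Γ)[X] →+* MonoidAlgebra L Γ := fun c =>
    (MonoidAlgebra.mapRingHom Γ (Polynomial.evalRingHom c)).comp (polM L Γ)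
  have h1 : ∀ c x, e c ((nkC L Γ : MonoidAlgebra L Γ →+* (MonoidAlgebra L Γ)[X]) x) = x :=
    fun c x => nk_ev c x
  have key := kt_retract _ (e 1) (h1 1) h (nPull (e 0) κ) (A.map (polE L Γ).symm)
    (hA.map (polE L Γ).symm.toRingHom.mapMatrix)
  have h2 : ∀ c, (A.map (polE L Γ).symm).map (e c) =
      A.map (MonoidAlgebra.mapRingHom Γ (Polynomial.evalRingHom c)) := by
    intro c
    refine Matrix.ext fun i j => ?_
    exact congrArg (MonoidAlgebra.mapRingHom Γ (Polynomial.evalRingHom c))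
      ((polE L Γ).apply_symm_apply (A i j))
  have h3 : (((A.map (polE L Γ).symm).map (e 1)).map
      (nkC L Γ : MonoidAlgebra L Γ →+* (MonoidAlgebra L Γ)[X])).map (e 0) =
      (A.map (polE L Γ).symm).map (e 1) := by
    refine Matrix.ext fun i j => ?_
    exact h1 0 _
  have h4 : κ.f ((A.map (polE L Γ).symm).map (e 0)) =
      κ.f ((((A.map (polE L Γ).symm).map (e 1)).map
      (nkC L Γ : MonoidAlgebra L Γ →+* (MonoidAlgebra L Γ)[X])).map (e 0)) := key
  rw [h3, h2, h2] at h4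
  exact h4

end Pool.Agent.CC
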