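import Pool.Agent.Lib.MP_8f66f0_al_CC.End.Sh

/-!
# The index of an invertible matrix which is a diagonal matrix of shifts up to a finite matrix
-/

set_option autoImplicit false

namespace Pool.Agent.CC

open Pool.Agent.TQ Matrix

namespace Idx0Aux

section Abs

variable {k V : Type} [Field k] [AddCommGroup V] [Module k V]

/-- `1 + c` has index `0` if `c` has finite rank. -/
theorem ix_one (c : Module.End k V) (hc : FiniteDimensional k (LinearMap.range c)) :
    Module.finrank k (LinearMap.ker (1 + c)) =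
      Module.finrank k (V ⧸ LinearMap.range (1 + c)) := by
  set W := LinearMap.range c with hW
  set T : Module.End k V := 1 + c with hT
  have hTv : ∀ v, T v = v + c v := fun v => rfl
  have hTW : ∀ v ∈ W, T v ∈ W := fun v hv => by
    rw [hTv]
    exact W.add_mem hv ⟨v, rfl⟩
  let TW : W →ₗ[k] W := T.restrict hTW
  have e1 : Module.finrank k (LinearMap.ker TW) = Module.finrank k (LinearMap.ker T) := by
    have hle : LinearMap.ker T ≤ W := by
      intro v hv
      rw [LinearMap.mem_ker, hTv] at hv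
      rw [eq_neg_of_add_eq_zero_left hv]
      exact W.neg_mem ⟨v, rfl⟩
    have h1 : LinearMap.ker TW = (LinearMap.ker T).comap W.subtype := by
      ext v
      rw [LinearMap.mem_ker, Submodule.mem_comap, LinearMap.mem_ker]
      exact Subtype.ext_iff
    rw [h1]
    exact (Submodule.comapSubtypeEquivOfLe hle).finrank_eq
  let φ : W →ₗ[k] V ⧸ LinearMap.range T := (LinearMap.range T).mkQ.comp W.subtype
  have hφ : Function.Surjective φ := by
    intro x
    obtain ⟨v, rfl⟩ := Submodule.mkQ_surjective _ x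
    refine ⟨⟨- c v, W.neg_mem ⟨v, rfl⟩⟩, ?_⟩
    change (LinearMap.range T).mkQ (- c v) = (LinearMap.range T).mkQ v
    rw [← sub_eq_zero, ← map_sub, Submodule.mkQ_apply, Submodule.Quotient.mk_eq_zero]
    refine ⟨-v, ?_⟩
    rw [hTv, map_neg]
    abel
  have hk : LinearMap.ker φ = LinearMap.range TW := by
    ext w
    rw [LinearMap.mem_ker]
    change (LinearMap.range T).mkQ (w : V) = 0 ↔ _
    rw [Submodule.mkQ_apply, Submodule.Quotient.mk_eq_zero]
    constructor
    · rintro ⟨v, hv⟩
      have hvW : v ∈ W := by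
        have h1 : v = w - c v := by rw [← hv, hTv]; abel
        rw [h1]
        exact W.sub_mem w.2 ⟨v, rfl⟩
      exact ⟨⟨v, hvW⟩, Subtype.ext hv⟩
    · rintro ⟨v, hv⟩
      exact ⟨v, congrArg Subtype.val hv⟩
  have e2 : Module.finrank k (V ⧸ LinearMap.range T) = Module.finrank k (W ⧸ LinearMap.ker φ) :=
    (φ.quotKerEquivOfSurjective hφ).finrank_eq.symm
  have e3 := LinearMap.finrank_range_add_finrank_ker TW
  have e4 := Submodule.finrank_quotient_add_finrank (LinearMap.ker φ)
  rw [hk] at e4
  rw [e2, hk]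
  omega

theorem ix_abs (D D' r r' c p q : Module.End k V) (h1 : r * r' = 1) (h2 : r' * r = 1)
    (hD : D = r * (1 + c)) (hp : D' * D = 1 - p) (hq : D * D' = 1 - q) (hDp : D * p = 0)
    (hqD : q * D = 0) (hc : FiniteDimensional k (LinearMap.range c)) :
    Module.finrank k (LinearMap.range p) = Module.finrank k (LinearMap.range q) := by
  let re : V ≃ₗ[k] V := LinearEquiv.ofLinearMap r r' h1 h2
  have a1 : LinearMap.ker D = LinearMap.range p := by
    ext v
    rw [LinearMap.mem_ker]
    constructor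
    · intro h
      refine ⟨v, ?_⟩
      have h3 : (D' * D) v = 0 := by rw [Module.End.mul_apply, h, map_zero]
      rw [hp, LinearMap.sub_apply, Module.End.one_apply, sub_eq_zero] at h3
      exact h3.symm
    · rintro ⟨w, rfl⟩
      rw [← Module.End.mul_apply, hDp, LinearMap.zero_apply]
  have a2 : LinearMap.range D = LinearMap.ker q := by
    ext v
    rw [LinearMap.mem_ker]
    constructor
    · rintro ⟨w, rfl⟩
      rw [← Module.End.mul_apply, hqD, LinearMap.zero_apply]
    · intro h
      refine ⟨D' v, ?_⟩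
      rw [← Module.End.mul_apply, hq, LinearMap.sub_apply, h, sub_zero, Module.End.one_apply]
  have a3 : LinearMap.ker D = LinearMap.ker (1 + c) := by
    ext v
    rw [LinearMap.mem_ker, LinearMap.mem_ker, hD, Module.End.mul_apply]
    exact re.map_eq_zero_iff
  have a4 : Module.finrank k (V ⧸ LinearMap.range (1 + c)) =
      Module.finrank k (V ⧸ LinearMap.range D) := by
    refine (Submodule.Quotient.equiv _ _ re ?_).finrank_eq
    rw [hD]
    exact (LinearMap.range_comp (1 + c) r).symm
  rw [← a1, a3, ix_one c hc, a4, a2]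
  exact q.quotKerEquivRange.finrank_eq

end Abs

section Rep

variable {Y F m : Type} [Field F] [Fintype m] [DecidableEq m]

/-- The operator of a matrix over `RCF Y F`. -/
noncomputable def Ph : Matrix m m (RCF Y F) →+* Module.End Fᵐᵒᵖ (m → (Y →₀ F)) :=
  (endVecRingEquivMatrixEnd m Fᵐᵒᵖ (Y →₀ F)).symm.toRingHom.comp (RCF Y F).subtype.mapMatrix

theorem Ph_apply (z : Matrix m m (RCF Y F)) (v : m → (Y →₀ F)) (i : m) :
    Ph z v i = ∑ j, (z i j).1 (v j) := rfl

/-- The basis vectors. -/
noncomputable def bv (i : m × Y) : m → (Y →₀ F) := Pi.single i.1 (Finsupp.single i.2 1)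

omit [Fintype m] in
theorem bv_apply (i : m × Y) (l : m) [DecidableEq Y] (y : Y) :
    bv (F := F) i l y = if i = (l, y) then 1 else 0 := by
  rw [bv, Pi.single_apply]
  by_cases h1 : l = i.1
  · rw [if_pos h1, Finsupp.single_apply]
    by_cases h2 : i.2 = y
    · rw [if_pos h2, if_pos (Prod.ext h1.symm h2)]
    · rw [if_neg h2, if_neg fun h => h2 (by rw [h])]
  · rw [if_neg h1, if_neg fun h => h1 (by rw [h])]
    rfl

omit [Fintype m] in
theorem bv_indep {ι : Type} (b : ι → m × Y) (hb : Function.Injective b) :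
    LinearIndependent Fᵐᵒᵖ (fun i => bv (F := F) (b i)) := by
  classical
  rw [linearIndependent_iff']
  intro s g hg i hi
  have h1 := congrFun hg (b i).1
  have h2 := DFunLike.congr_fun h1 (b i).2
  rw [Finset.sum_apply, Finsupp.finsetSum_apply] at h2
  have h3 : ∀ j ∈ s, ((g j • bv (F := F) (b j)) (b i).1) (b i).2 =
      if j = i then (g j).unop else 0 := by
    intro j _
    rw [Pi.smul_apply, Finsupp.smul_apply, bv_apply]
    by_cases h : j = i
    · rw [if_pos h, h, if_pos rfl, MulOpposite.smul_eq_mul_unop, one_mul]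
    · rw [if_neg h, if_neg fun h' => h (hb h'), smul_zero]
  rw [Finset.sum_congr rfl h3, Finset.sum_ite_eq' s i, if_pos hi] at h2
  exact MulOpposite.unop_injective h2

/-- A vector with finite support in `m × s`. -/
theorem mem_span (s : Set (m × Y)) (v : m → (Y →₀ F)) (h : ∀ l y, v l y ≠ 0 → (l, y) ∈ s) :
    v ∈ Submodule.span Fᵐᵒᵖ (bv '' s) := by
  classical
  have h1 : v = ∑ l, ∑ y ∈ (v l).support, MulOpposite.op (v l y) • bv (l, y) := by
    funext i
    ext y
    rw [Finset.sum_apply, Finsupp.finsetSum_apply]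
    have h2 : ∀ l ∈ Finset.univ, ((∑ x ∈ (v l).support, MulOpposite.op (v l x) •
        bv (F := F) (l, x)) i) y = if l = i then v l y else 0 := by
      intro l _
      rw [Finset.sum_apply, Finsupp.finsetSum_apply]
      have h3 : ∀ x ∈ (v l).support, ((MulOpposite.op (v l x) • bv (F := F) (l, x)) i) y =
          if x = y then (if l = i then v l y else 0) else 0 := by
        intro x _
        rw [Pi.smul_apply, Finsupp.smul_apply, bv_apply]
        by_cases hx : x = y
        · subst hx
          by_cases hl : l = i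
          · subst hl
            rw [if_pos rfl, if_pos rfl, if_pos rfl, MulOpposite.smul_eq_mul_unop, one_mul]
            rfl
          · rw [if_neg fun h' => hl (congrArg Prod.fst h'), if_pos rfl, if_neg hl, smul_zero]
        · rw [if_neg fun h' => hx (congrArg Prod.snd h'), if_neg hx, smul_zero]
      rw [Finset.sum_congr rfl h3, Finset.sum_ite_eq' _ y]
      by_cases hy : y ∈ (v l).support
      · rw [if_pos hy]
      · rw [if_neg hy, Finsupp.notMem_support_iff.1 hy, ite_self]
    rw [Finset.sum_congr rfl h2, Finset.sum_ite_eq' Finset.univ i, if_pos (Finset.mem_univ i)]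
  rw [h1]
  refine Submodule.sum_mem _ fun l _ => Submodule.sum_mem _ fun y hy => Submodule.smul_mem _ _ ?_
  exact Submodule.subset_span ⟨(l, y), h l y (Finsupp.mem_support_iff.1 hy), rfl⟩

/-- A matrix with finite entries has finite rank. -/
theorem fin_rank (z : Matrix m m (RCF Y F)) (hz : ∀ i j, z i j ∈ Jfin Y F) :
    FiniteDimensional Fᵐᵒᵖ (LinearMap.range (Ph z)) := by
  classical
  let s : Set (m × Y) := ⋃ i, ⋃ j, (fun p : Y × Y => (i, p.1)) '' {p | ent (z i j) p.1 p.2 ≠ 0}
  have hs : s.Finite := Set.finite_iUnion fun i => Set.finite_iUnion fun j => (hz i j).image _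
  have h1 : LinearMap.range (Ph z) ≤ Submodule.span Fᵐᵒᵖ (bv '' s) := by
    rintro _ ⟨v, rfl⟩
    refine mem_span s _ fun l y h => ?_
    rw [Ph_apply, Finsupp.finsetSum_apply] at h
    obtain ⟨j, _, hj⟩ := Finset.exists_ne_zero_of_sum_ne_zero h
    rw [entE_apply, Finsupp.sum] at hj
    obtain ⟨x, _, hx⟩ := Finset.exists_ne_zero_of_sum_ne_zero hj
    refine Set.mem_iUnion.2 ⟨l, Set.mem_iUnion.2 ⟨j, (y, x), left_ne_zero_of_mul hx, rfl⟩⟩
  have := FiniteDimensional.span_of_finite Fᵐᵒᵖ (hs.image (bv (F := F)))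
  exact Submodule.finiteDimensional_of_le h1

/-- The diagonal matrix with the entries `E(ρ 0, ρ 0)` at the places `S`. -/
theorem rank_E (ρ : m → ℕ ↪ Y) (S : Finset m) (P : Matrix m m (RCF Y F))
    (hP : ∀ i j y x, ent (P i j) y x ≠ 0 → i = j ∧ i ∈ S ∧ y = ρ i 0 ∧ x = ρ i 0)
    (hP' : ∀ i ∈ S, ent (P i i) (ρ i 0) (ρ i 0) = 1) :
    Module.finrank Fᵐᵒᵖ (LinearMap.range (Ph P)) = S.card := by
  classical
  let b : S → m × Y := fun l => (l.1, ρ l.1 0)
  have hb : Function.Injective b := fun l l' h => Subtype.ext (congrArg Prod.fst h)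
  have h1 : LinearMap.range (Ph P) = Submodule.span Fᵐᵒᵖ (Set.range fun i => bv (F := F) (b i)) := by
    apply le_antisymm
    · rintro _ ⟨v, rfl⟩
      have h2 : Ph P v ∈ Submodule.span Fᵐᵒᵖ (bv (F := F) '' (Set.range b)) := by
        refine mem_span _ _ fun l y h => ?_
        rw [Ph_apply, Finsupp.finsetSum_apply] at h
        obtain ⟨j, _, hj⟩ := Finset.exists_ne_zero_of_sum_ne_zero h
        rw [entE_apply, Finsupp.sum] at hj
        obtain ⟨x, _, hx⟩ := Finset.exists_ne_zero_of_sum_ne_zero hj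
        obtain ⟨_, h4, h5, _⟩ := hP l j y x (left_ne_zero_of_mul hx)
        exact ⟨⟨l, h4⟩, Prod.ext rfl h5.symm⟩
      rw [← Set.range_comp] at h2
      exact h2
    · rw [Submodule.span_le]
      rintro _ ⟨i, rfl⟩
      refine ⟨bv (b i), ?_⟩
      funext l
      ext y
      rw [Ph_apply, Finsupp.finsetSum_apply, bv_apply]
      have h3 : ∀ j ∈ Finset.univ, ((P l j).1 (bv (F := F) (b i) j)) y =
          if j = i.1 then ent (P l i.1) y (ρ i.1 0) else 0 := by
        intro j _
        by_cases hj : j = i.1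
        · rw [if_pos hj, hj]
          have h5 : bv (F := F) (b i) i.1 = Finsupp.single (ρ i.1 0) 1 := by
            rw [bv]
            exact Pi.single_eq_same _ _
          rw [h5]
          rfl
        · have h5 : bv (F := F) (b i) j = 0 := by
            rw [bv]
            exact Pi.single_eq_of_ne hj _
          rw [if_neg hj, h5, map_zero]
          rfl
      rw [Finset.sum_congr rfl h3, Finset.sum_ite_eq' Finset.univ i.1,
        if_pos (Finset.mem_univ _)]
      by_cases h : b i = (l, y)
      · have h6 : i.1 = l := congrArg Prod.fst h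
        have h7 : ρ i.1 0 = y := congrArg Prod.snd h
        rw [if_pos h, ← h6, ← h7]
        exact hP' i.1 i.2
      · rw [if_neg h]
        by_contra h'
        obtain ⟨h6, _, h7, _⟩ := hP _ _ _ _ h'
        exact h (Prod.ext h6.symm (by rw [h7, h6]))
  rw [h1, finrank_span_eq_card (bv_indep b hb), Fintype.card_coe]

end Rep

section Sgn

variable {Y F : Type} [Field F]

theorem sgn_mid (ρ : ℕ ↪ Y) (a : SignType) :
    shE F ρ a * shE F ρ (-a) * shE F ρ a = shE F ρ a := by
  have h := (sh Y F ρ).1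
  cases a with
  | zero =>
    change (1 : RCF Y F) * 1 * 1 = 1
    rw [mul_one, mul_one]
  | pos =>
    change shR F ρ * shL F ρ * shR F ρ = shR F ρ
    rw [mul_assoc, h, mul_one]
  | neg =>
    change shL F ρ * shR F ρ * shL F ρ = shL F ρ
    rw [h, one_mul]

theorem sgn_ent (ρ : ℕ ↪ Y) (a : SignType) (y x : Y)
    (h : ent (1 - shE F ρ (-a) * shE F ρ a) y x ≠ 0) : a = -1 ∧ y = ρ 0 ∧ x = ρ 0 := by
  classical
  obtain ⟨h1, h2, h3⟩ := sh Y F ρ
  cases a with
  | zero =>
    refine absurd ?_ h
    change ent (1 - (1 : RCF Y F) * 1) y x = 0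
    rw [mul_one, sub_self, ent_zero]
  | pos =>
    refine absurd ?_ h
    change ent (1 - shL F ρ * shR F ρ) y x = 0
    rw [h1, sub_self, ent_zero]
  | neg =>
    have h' : ent (1 - shR F ρ * shL F ρ) y x ≠ 0 := h
    rw [ent_sub, ent_one] at h'
    have h4 : y = x := by
      by_contra hyx
      rw [if_neg hyx, zero_sub, neg_ne_zero] at h'
      exact hyx (h2 y x h').1
    subst h4
    have h5 : y = ρ 0 := by
      by_contra hy
      rw [if_pos rfl, h3 y hy, sub_self] at h'
      exact h' rfl
    exact ⟨rfl, h5, h5⟩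

theorem sgn_one (ρ : ℕ ↪ Y) (a : SignType) (ha : a = -1) :
    ent (1 - shE F ρ (-a) * shE F ρ a) (ρ 0) (ρ 0) = 1 := by
  classical
  obtain ⟨h1, h2, h3⟩ := sh Y F ρ
  subst ha
  change ent (1 - shR F ρ * shL F ρ) (ρ 0) (ρ 0) = 1
  rw [ent_sub, ent_one, if_pos rfl]
  have h4 : ent (shR F ρ * shL F ρ) (ρ 0) (ρ 0) = 0 := by
    by_contra h
    exact (h2 _ _ h).2 rfl
  rw [h4, sub_zero]

variable {m : Type} [Fintype m] [DecidableEq m]

theorem sgn_rank (ρ : m → ℕ ↪ Y) (e : m → SignType) :
    Module.finrank Fᵐᵒᵖ (LinearMap.range (Ph (1 - dg F ρ (fun l => - e l) * dg F ρ e))) =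
      (Finset.univ.filter fun l => e l = -1).card := by
  classical
  have h1 : (1 : Matrix m m (RCF Y F)) - dg F ρ (fun l => - e l) * dg F ρ e =
      diagonal fun l => 1 - shE F (ρ l) (- e l) * shE F (ρ l) (e l) := by
    rw [dg, dg, diagonal_mul_diagonal, ← diagonal_one, diagonal_sub]
  rw [h1]
  refine rank_E ρ _ _ (fun i j y x h => ?_) fun i hi => ?_
  · by_cases hij : i = j
    · subst hij
      rw [diagonal_apply_eq] at h
      obtain ⟨h2, h3, h4⟩ := sgn_ent _ _ _ _ h
      exact ⟨rfl, Finset.mem_filter.2 ⟨Finset.mem_univ _, h2⟩, h3, h4⟩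
    · rw [diagonal_apply_ne _ hij, ent_zero] at h
      exact absurd rfl h
  · rw [diagonal_apply_eq]
    exact sgn_one _ _ (Finset.mem_filter.1 hi).2

end Sgn

end Idx0Aux

open Idx0Aux in
theorem idx0 : S_idx0 := by
  intro Y F _ m _ _ ρ e r hr hcg
  classical
  obtain ⟨r', h1, h2⟩ : ∃ r', r * r' = 1 ∧ r' * r = 1 := by
    obtain ⟨u, rfl⟩ := hr
    exact ⟨_, u.mul_inv, u.inv_mul⟩
  have hD : dg F ρ e = r * (1 + r' * (dg F ρ e - r)) := by
    rw [mul_add, ← mul_assoc, h1, one_mul, mul_one]
    abel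
  have hc : ∀ i j, (r' * (dg F ρ e - r)) i j ∈ Jfin Y F := by
    intro i j
    rw [Matrix.mul_apply]
    refine Ideal.sum_mem _ fun l _ => Ideal.mul_mem_left _ _ ?_
    have h := hcg l j
    rw [Matrix.sub_apply, ← neg_sub]
    exact (Ideal.neg_mem_iff _).2 h
  have hmid : dg F ρ e * dg F ρ (fun l => - e l) * dg F ρ e = dg F ρ e := by
    rw [dg, dg, diagonal_mul_diagonal, diagonal_mul_diagonal]
    exact congrArg diagonal (funext fun l => sgn_mid (ρ l) (e l))
  have k1 := sgn_rank (F := F) ρ e
  have k2 := sgn_rank (F := F) ρ (fun l => - e l)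
  have he : (fun l => - (- e l)) = e := funext fun l => neg_neg (e l)
  rw [he] at k2
  have key := ix_abs (Ph (dg F ρ e)) (Ph (dg F ρ fun l => - e l)) (Ph r) (Ph r')
    (Ph (r' * (dg F ρ e - r))) (Ph (1 - dg F ρ (fun l => - e l) * dg F ρ e))
    (Ph (1 - dg F ρ e * dg F ρ (fun l => - e l)))
    (by rw [← map_mul, h1, map_one]) (by rw [← map_mul, h2, map_one])
    (by rw [← map_one Ph, ← map_add, ← map_mul, ← hD])
    (by rw [map_sub Ph, map_one Ph, map_mul Ph, sub_sub_cancel])
    (by rw [map_sub Ph, map_one Ph, map_mul Ph, sub_sub_cancel])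
    (by rw [← map_mul, mul_sub, mul_one, ← mul_assoc, hmid, sub_self, map_zero])
    (by rw [← map_mul, sub_mul, one_mul, hmid, sub_self, map_zero])
    (fin_rank _ hc)
  rw [k1, k2] at key
  have hs : ∀ l, ((e l : SignType) : ℤ) = (if - e l = -1 then 1 else 0) -
      (if e l = -1 then 1 else 0) := by
    intro l
    generalize e l = a
    cases a <;> rfl
  rw [Finset.sum_congr rfl fun l _ => hs l, Finset.sum_sub_distrib, Finset.sum_boole,
    Finset.sum_boole, ← key, sub_self]

end Pool.Agent.CC
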