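import Pool.Agent.Lib.MP_8f66f0_al_CC.End.KR

/-!
# Theorem CC: extension of relative invariants, part 1

Congruences, the extension `Ex ε z`, and the relation `Dc κ ε A k` : `A = Ex ε r * x` with `r`, `x`
invertible, `x = 1 mod J'` and `κ x = k`.
-/

set_option autoImplicit false

namespace Pool.Agent.CC

open Pool.Agent.Wald Matrix

namespace XE

section CgLem

variable {R : Type} [Ring R] {J : Ideal R} {l m n : Type}

theorem cg_refl (a : Matrix m n R) : Cg J a a := fun i j => by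
  rw [sub_self]
  exact J.zero_mem

theorem cg_symm {a b : Matrix m n R} (h : Cg J a b) : Cg J b a := fun i j => by
  rw [← neg_sub]
  exact J.neg_mem (h i j)

theorem cg_trans {a b c : Matrix m n R} (h : Cg J a b) (h' : Cg J b c) : Cg J a c := fun i j => by
  rw [← sub_add_sub_cancel _ (b i j)]
  exact J.add_mem (h i j) (h' i j)

theorem cg_mul_left [Fintype m] (c : Matrix l m R) {a b : Matrix m n R} (h : Cg J a b) :
    Cg J (c * a) (c * b) := fun i j => by
  rw [Matrix.mul_apply, Matrix.mul_apply, ← Finset.sum_sub_distrib]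
  refine J.sum_mem fun k _ => ?_
  rw [← mul_sub]
  exact J.mul_mem_left _ (h k j)

theorem cg_mul_right [J.IsTwoSided] [Fintype m] {a b : Matrix l m R} (h : Cg J a b)
    (c : Matrix m n R) : Cg J (a * c) (b * c) := fun i j => by
  rw [Matrix.mul_apply, Matrix.mul_apply, ← Finset.sum_sub_distrib]
  refine J.sum_mem fun k _ => ?_
  rw [← sub_mul]
  exact J.mul_mem_right _ (h i k)

theorem cg_submatrix {a b : Matrix m n R} (h : Cg J a b) {m' n' : Type} (e : m' → m) (e' : n' → n) :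
    Cg J (a.submatrix e e') (b.submatrix e e') := fun i j => h (e i) (e' j)

theorem cg_one_mul [J.IsTwoSided] [Fintype n] [DecidableEq n] {a b : Matrix n n R} (ha : Cg J a 1)
    (hb : Cg J b 1) : Cg J (a * b) 1 := by
  have h := cg_trans (cg_mul_right ha b) (by rw [Matrix.one_mul]; exact hb)
  exact h

theorem cg_one_conj [J.IsTwoSided] [Fintype n] [DecidableEq n] {g g' a : Matrix n n R}
    (hg : g * g' = 1) (ha : Cg J a 1) : Cg J (g * a * g') 1 := by
  have h := cg_mul_right (cg_mul_left g ha) g'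
  rwa [Matrix.mul_one, hg] at h

theorem cg_one_inv [J.IsTwoSided] [Fintype n] [DecidableEq n] {a a' : Matrix n n R}
    (ha : Cg J a 1) (h : a' * a = 1) : Cg J a' 1 := by
  have h1 := cg_mul_left a' ha
  rw [Matrix.mul_one, h] at h1
  exact cg_symm h1

theorem cg_blocks {m' n' : Type} {a a₁ : Matrix m n R} {b b₁ : Matrix m n' R}
    {c c₁ : Matrix m' n R} {d d₁ : Matrix m' n' R} (ha : Cg J a a₁) (hb : Cg J b b₁)
    (hc : Cg J c c₁) (hd : Cg J d d₁) : Cg J (fromBlocks a b c d) (fromBlocks a₁ b₁ c₁ d₁) := by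
  rintro (i | i) (j | j)
  · exact ha i j
  · exact hb i j
  · exact hc i j
  · exact hd i j

theorem cg_blocks_one [DecidableEq m] [DecidableEq n] {a : Matrix m m R} {b : Matrix m n R}
    {c : Matrix n m R} {d : Matrix n n R} (ha : Cg J a 1) (hb : Cg J b 0) (hc : Cg J c 0)
    (hd : Cg J d 1) : Cg J (fromBlocks a b c d) 1 := by
  rw [← fromBlocks_one]
  exact cg_blocks ha hb hc hd

end CgLem

section Inv

variable {R : Type} [Ring R] {n m : Type} [Fintype n] [DecidableEq n] [Fintype m] [DecidableEq m]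

theorem ex_inv {A : Matrix n n R} (h : IsUnit A) : ∃ X : Matrix n n R, A * X = 1 ∧ X * A = 1 := by
  obtain ⟨u, rfl⟩ := h
  exact ⟨((u⁻¹ : (Matrix n n R)ˣ) : Matrix n n R), u.mul_inv, u.inv_mul⟩

theorem isUnit_of {A X : Matrix n n R} (h : A * X = 1) (h' : X * A = 1) : IsUnit A :=
  ⟨⟨A, X, h, h'⟩, rfl⟩

theorem isUnit_sub {A : Matrix n n R} (e : m ≃ n) (hA : IsUnit A) : IsUnit (A.submatrix e e) := by
  have h := K1Fun.isUnit_submatrix e.symm hA
  rwa [Equiv.symm_symm] at h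

theorem sub_one (e : m ≃ n) : (1 : Matrix n n R).submatrix e e = 1 := submatrix_one_equiv e

end Inv

section ExLem

variable {R S : Type} [Ring R] [Ring S] (ε : S →ₙ+* R) {n m : Type} [Fintype n] [DecidableEq n]
  [Fintype m] [DecidableEq m]

theorem map_mul' {l k j : Type} [Fintype k] (a : Matrix l k S) (b : Matrix k j S) :
    (a * b).map ε = a.map ε * b.map ε := by
  ext i i'
  rw [Matrix.map_apply, Matrix.mul_apply, Matrix.mul_apply, map_sum]
  refine Finset.sum_congr rfl fun k _ => ?_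
  rw [map_mul, Matrix.map_apply, Matrix.map_apply]

theorem map_add' {l k : Type} (a b : Matrix l k S) : (a + b).map ε = a.map ε + b.map ε := by
  ext i i'
  exact map_add ε _ _

theorem map_zero' {l k : Type} : (0 : Matrix l k S).map ε = 0 := by
  ext i i'
  exact map_zero ε

theorem ex_one : Ex ε (1 : Matrix n n S) = 1 := by
  rw [Ex, sub_self, map_zero', add_zero]

theorem ex_mul (r s : Matrix n n S) : Ex ε (r * s) = Ex ε r * Ex ε s := by
  have h : r * s - 1 = (r - 1) + (s - 1) + (r - 1) * (s - 1) := by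
    rw [Matrix.sub_mul, Matrix.mul_sub, Matrix.mul_one, Matrix.one_mul]
    abel
  rw [Ex, Ex, Ex, h, map_add', map_add', map_mul']
  simp only [Matrix.add_mul, Matrix.mul_add, Matrix.mul_one, Matrix.one_mul]
  abel

theorem ex_inv_mul {r r' : Matrix n n S} (h : r * r' = 1) : Ex ε r * Ex ε r' = 1 := by
  rw [← ex_mul, h, ex_one]

theorem ex_unit {r : Matrix n n S} (h : IsUnit r) : IsUnit (Ex ε r) := by
  obtain ⟨r', h1, h2⟩ := ex_inv h
  exact isUnit_of (ex_inv_mul ε h1) (ex_inv_mul ε h2)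

theorem ex_blocks (a : Matrix n n S) (b : Matrix n m S) (c : Matrix m n S) (d : Matrix m m S) :
    Ex ε (fromBlocks a b c d) = fromBlocks (Ex ε a) (b.map ε) (c.map ε) (Ex ε d) := by
  rw [Ex, Ex, Ex, ← fromBlocks_one, ← fromBlocks_one]
  ext (i | i) (j | j) <;>
    simp only [Matrix.add_apply, Matrix.sub_apply, Matrix.map_apply, fromBlocks_apply₁₁,
      fromBlocks_apply₁₂, fromBlocks_apply₂₁, fromBlocks_apply₂₂, Matrix.zero_apply, zero_add,
      sub_zero]

theorem ex_sub (e : m ≃ n) (r : Matrix n n S) :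
    Ex ε (r.submatrix e e) = (Ex ε r).submatrix e e := by
  have h1 : (1 : Matrix m m R) = (1 : Matrix n n R).submatrix e e := (sub_one e).symm
  have h2 : (1 : Matrix m m S) = (1 : Matrix n n S).submatrix e e := (sub_one e).symm
  rw [Ex, Ex, h1, h2]
  rfl

end ExLem

section KRLem

variable {R : Type} [Ring R] {J : Ideal R} {K : Type} [CommGroup K]
  (κ : KR R J K) {n m : Type} [Fintype n] [DecidableEq n] [Fintype m] [DecidableEq m]

theorem f_one : κ.f (1 : Matrix n n R) = 1 := by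
  have h := κ.mul (1 : Matrix n n R) 1 isUnit_one isUnit_one (cg_refl _) (cg_refl _)
  rw [Matrix.one_mul] at h
  exact mul_left_cancel (a := κ.f (1 : Matrix n n R)) (by rw [mul_one]; exact h.symm)

theorem f_sub (e : m ≃ n) {x : Matrix n n R} (hx : IsUnit x) (hJ : Cg J x 1) :
    κ.f (x.submatrix e e) = κ.f x := by
  have h := κ.reindex e.symm x hx hJ
  rwa [Equiv.symm_symm] at h

theorem f_inv [J.IsTwoSided] {x x' : Matrix n n R} (h : x * x' = 1) (h' : x' * x = 1)
    (hJ : Cg J x 1) : κ.f x' = (κ.f x)⁻¹ := by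
  have h1 := κ.mul x' x (isUnit_of h' h) (isUnit_of h h') (cg_one_inv hJ h') hJ
  rw [h', f_one] at h1
  exact eq_inv_of_mul_eq_one_left h1.symm

end KRLem

section DcLem

variable {R T : Type} [Ring R] [Ring T] {J : Ideal R} {K : Type} [CommGroup K]
  (κ : KR R J K) (ε : T →ₙ+* R)

/-- Conjugation invariance of `κ`. -/
def Cj : Prop :=
  ∀ (n : Type) [Fintype n] [DecidableEq n] (g g' z : Matrix n n R), g * g' = 1 → g' * g = 1 →
    IsUnit z → Cg J z 1 → κ.f (g * z * g') = κ.f z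

/-- `A = Ex ε r * x` with invertible `r`, `x`, `x = 1 mod J` and `κ x = k`. -/
def Dc {n : Type} [Fintype n] [DecidableEq n] (A : Matrix n n R) (k : K) : Prop :=
  ∃ (r : Matrix n n T) (x : Matrix n n R), IsUnit r ∧ IsUnit x ∧ Cg J x 1 ∧ A = Ex ε r * x ∧
    κ.f x = k

variable {κ ε} {n m : Type} [Fintype n] [DecidableEq n] [Fintype m] [DecidableEq m]

theorem dc_unit {A : Matrix n n R} {k : K} (h : Dc κ ε A k) : IsUnit A := by
  obtain ⟨r, x, hr, hx, _, rfl, _⟩ := h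
  exact (ex_unit ε hr).mul hx

theorem dc_of {x : Matrix n n R} (hx : IsUnit x) (hJ : Cg J x 1) : Dc κ ε x (κ.f x) :=
  ⟨1, x, isUnit_one, hx, hJ, by rw [ex_one, Matrix.one_mul], rfl⟩

theorem dc_one : Dc κ ε (1 : Matrix n n R) 1 := by
  have h := dc_of (κ := κ) (ε := ε) (isUnit_one : IsUnit (1 : Matrix n n R)) (cg_refl _)
  rwa [f_one] at h

theorem dc_ex {r : Matrix n n T} (hr : IsUnit r) : Dc κ ε (Ex ε r) 1 :=
  ⟨r, 1, hr, isUnit_one, cg_refl _, by rw [Matrix.mul_one], f_one κ⟩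

theorem dc_sub (e : m ≃ n) {A : Matrix n n R} {k : K} (h : Dc κ ε A k) :
    Dc κ ε (A.submatrix e e) k := by
  obtain ⟨r, x, hr, hx, hJ, rfl, rfl⟩ := h
  refine ⟨r.submatrix e e, x.submatrix e e, isUnit_sub e hr, isUnit_sub e hx, ?_, ?_,
    f_sub κ e hx hJ⟩
  · have h := cg_submatrix hJ e e
    rwa [sub_one] at h
  · rw [ex_sub, submatrix_mul_equiv]

theorem dc_mul [J.IsTwoSided] (hc : Cj κ) {A B : Matrix n n R} {k l : K} (h : Dc κ ε A k)
    (h' : Dc κ ε B l) : Dc κ ε (A * B) (k * l) := by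
  obtain ⟨r, x, hr, hx, hJ, rfl, rfl⟩ := h
  obtain ⟨s, y, hs, hy, hJ', rfl, rfl⟩ := h'
  obtain ⟨s', hs1, hs2⟩ := ex_inv hs
  have e1 := ex_inv_mul ε hs1
  have e2 := ex_inv_mul ε hs2
  have u1 : IsUnit (Ex ε s' * x * Ex ε s) :=
    ((isUnit_of e2 e1).mul hx).mul (isUnit_of e1 e2)
  have c1 : Cg J (Ex ε s' * x * Ex ε s) 1 := cg_one_conj e2 hJ
  refine ⟨r * s, Ex ε s' * x * Ex ε s * y, hr.mul hs, u1.mul hy, cg_one_mul c1 hJ', ?_, ?_⟩
  · rw [ex_mul]
    simp only [← Matrix.mul_assoc]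
    rw [Matrix.mul_assoc (Ex ε r) (Ex ε s) (Ex ε s'), e1, Matrix.mul_one]
  · rw [κ.mul _ _ u1 hy c1 hJ', hc n _ _ x e2 e1 hx hJ]

theorem dc_inv [J.IsTwoSided] (hc : Cj κ) {A A' : Matrix n n R} {k : K} (h : Dc κ ε A k)
    (h1 : A * A' = 1) (h2 : A' * A = 1) : Dc κ ε A' k⁻¹ := by
  obtain ⟨r, x, hr, hx, hJ, rfl, rfl⟩ := h
  obtain ⟨r', hr1, hr2⟩ := ex_inv hr
  obtain ⟨x', hx1, hx2⟩ := ex_inv hx
  have e1 := ex_inv_mul ε hr1
  have e2 := ex_inv_mul ε hr2
  have hJ' : Cg J x' 1 := cg_one_inv hJ hx2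
  have hA : A' = x' * Ex ε r' := by
    have h3 : (x' * Ex ε r') * (Ex ε r * x) = 1 := by
      rw [Matrix.mul_assoc, ← Matrix.mul_assoc (Ex ε r'), e2, Matrix.one_mul, hx2]
    calc A' = (x' * Ex ε r') * (Ex ε r * x) * A' := by rw [h3, Matrix.one_mul]
      _ = x' * Ex ε r' := by rw [Matrix.mul_assoc (x' * Ex ε r'), h1, Matrix.mul_one]
  refine ⟨r', Ex ε r * x' * Ex ε r', ⟨⟨r', r, hr2, hr1⟩, rfl⟩,
    ((isUnit_of e1 e2).mul (isUnit_of hx2 hx1)).mul (isUnit_of e2 e1), cg_one_conj e1 hJ', ?_, ?_⟩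
  · rw [hA, Matrix.mul_assoc (Ex ε r), ← Matrix.mul_assoc (Ex ε r'), e2, Matrix.one_mul]
  · rw [hc n _ _ x' e1 e2 (isUnit_of hx2 hx1) hJ', f_inv κ hx1 hx2 hJ]

theorem dc_tri [J.IsTwoSided] {A : Matrix n n R} {B : Matrix n m R} {D : Matrix m m R} {k l : K}
    (h : Dc κ ε A k) (h' : Dc κ ε D l) (c : Matrix n m T) (hB : Cg J B (c.map ε)) :
    Dc κ ε (fromBlocks A B 0 D) (k * l) := by
  obtain ⟨r, x, hr, hx, hJ, rfl, rfl⟩ := h
  obtain ⟨s, y, hs, hy, hJ', rfl, rfl⟩ := h'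
  obtain ⟨r', hr1, hr2⟩ := ex_inv hr
  have e1 := ex_inv_mul ε hr1
  let X : Matrix n m R := Ex ε r' * (B - c.map ε * y)
  have hX : Cg J X 0 := by
    have h1 : Cg J (B - c.map ε * y) 0 := by
      have h2 : Cg J (c.map ε * y) (c.map ε) := by
        have h3 := cg_mul_left (c.map ε) hJ'
        rwa [Matrix.mul_one] at h3
      have h4 := cg_trans hB (cg_symm h2)
      intro i j
      rw [Matrix.zero_apply, sub_zero]
      exact h4 i j
    have h5 := cg_mul_left (Ex ε r') h1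
    rwa [Matrix.mul_zero] at h5
  refine ⟨fromBlocks r c 0 s, fromBlocks x X 0 y, K1Fun.isUnit_tri c hr hs, K1Fun.isUnit_tri X hx hy,
    cg_blocks_one hJ hX (cg_refl _) hJ', ?_, κ.tri x X y hx hy hJ hX hJ'⟩
  have h6 : Ex ε r * X + c.map ε * y = B := by
    rw [← Matrix.mul_assoc, e1, Matrix.one_mul, sub_add_cancel]
  rw [ex_blocks, fromBlocks_multiply, map_zero', h6]
  simp only [Matrix.mul_zero, Matrix.zero_mul, add_zero, zero_add]

theorem dc_diag [J.IsTwoSided] {A : Matrix n n R} {D : Matrix m m R} {k l : K}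
    (h : Dc κ ε A k) (h' : Dc κ ε D l) : Dc κ ε (fromBlocks A 0 0 D) (k * l) :=
  dc_tri h h' 0 (by rw [map_zero']; exact cg_refl _)

end DcLem

end XE

end Pool.Agent.CC
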