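import Pool.Agent.Lib.MP_8f66f0_al_CC.End.Spec
import Pool.Agent.Lib.MP_8f66f0_al_CC.End.Ext

/-!
# Theorem CC: the ideal `J 0` consists of the finite matrices; pull back of relative invariants
-/

set_option autoImplicit false

namespace Pool.Agent.CC

open Pool.Agent.Wald Pool.Agent.TQ Matrix

private theorem j0_cf {Y Γ k : Type} [CommRing k] [Group Γ] {z : RCF Y (MonoidAlgebra k Γ)}
    {y x : Y} (h : ent z y x ≠ 0) : ∃ g, cf z g y x ≠ 0 := by
  by_contra hc
  refine h (MonoidAlgebra.ext (Finsupp.ext fun g => ?_))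
  by_contra hg
  exact hc ⟨g, fun h0 => hg (by rw [MonoidAlgebra.coeff_zero]; exact h0)⟩

/-- `J 0` consists of the finite matrices. -/
theorem J0 : S_J0 := by
  classical
  intro O Y C Γ k _ _ _ _ _ S z
  constructor
  · rintro ⟨h, H⟩
    have hE := S.F_empty_fin h
    refine (mem_Jfin _ _ _).2 ((hE.prod hE).subset fun p hp => ?_)
    obtain ⟨g, hg⟩ := j0_cf hp
    obtain ⟨h1, h2⟩ := H g p.1 p.2 hg
    exact ⟨Finset.card_eq_zero.1 (Nat.le_zero.1 h1), Finset.card_eq_zero.1 (Nat.le_zero.1 h2)⟩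
  · intro hz
    have hf : {p : Y × Y | ent z.1 p.1 p.2 ≠ 0}.Finite := (mem_Jfin _ _ _).1 hz
    obtain ⟨h, hh⟩ := Sys.exists_height (hf.toFinset.biUnion fun p => S.A p.1 ∪ S.A p.2)
    have key : ∀ y, S.A y ⊆ Sys.low h → (S.F h y).card ≤ 0 := by
      intro y hy
      rw [Nat.le_zero, Finset.card_eq_zero, Finset.eq_empty_iff_forall_notMem]
      intro o ho
      obtain ⟨n, h1, h2⟩ := S.mem_F.1 ho
      have h3 : n < h o := Sys.mem_low.1 (hy h1)
      omega
    refine ⟨h, fun g y' y hc => ?_⟩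
    have hp : (y', y) ∈ hf.toFinset := by
      rw [Set.Finite.mem_toFinset]
      exact cf_ne_of_ne hc
    refine ⟨key y' fun s hs => hh ?_, key y fun s hs => hh ?_⟩
    · exact Finset.mem_biUnion.2 ⟨(y', y), hp, Finset.mem_union_left _ hs⟩
    · exact Finset.mem_biUnion.2 ⟨(y', y), hp, Finset.mem_union_right _ hs⟩

private theorem j0_cg {R T : Type} [Ring R] [Ring T] {J : Ideal R} {I : Ideal T} {ε : T →ₙ+* R}
    (h : ∀ x ∈ I, ε x ∈ J) {n : Type} [DecidableEq n] {z : Matrix n n T} (hz : Cg I z 1) :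
    Cg J (Ex ε z) 1 := fun i j => by
  rw [Ex, Matrix.add_apply, add_sub_cancel_left]
  exact h _ (hz i j)

/-- Pull back of a relative invariant along a non-unital homomorphism. -/
theorem pullKR : S_pull := by
  intro R T K _ _ _ J I ε h κ
  refine ⟨{ f := fun {n} _ _ z => κ.f (Ex ε z)
            mul := ?_
            reindex := ?_
            tri := ?_ }, fun n _ _ z => rfl⟩
  · intro n _ _ A B hA hB cA cB
    rw [ex_mul]
    exact κ.mul _ _ (ex_unit ε hA) (ex_unit ε hB) (j0_cg h cA) (j0_cg h cB)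
  · intro n m _ _ _ _ e A hA cA
    rw [ex_sub]
    exact κ.reindex e _ (ex_unit ε hA) (j0_cg h cA)
  · intro n m _ _ _ _ A B D hA hD cA cB cD
    rw [ex_blocks]
    have h0 : (0 : Matrix m n T).map ε = 0 := by
      ext i j
      rw [map_apply, Matrix.zero_apply, Matrix.zero_apply, map_zero]
    rw [h0]
    refine κ.tri _ _ _ (ex_unit ε hA) (ex_unit ε hD) (j0_cg h cA) (fun i j => ?_) (j0_cg h cD)
    rw [Matrix.zero_apply, sub_zero, map_apply]
    refine h _ ?_
    have := cB i j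
    rwa [Matrix.zero_apply, sub_zero] at this

end Pool.Agent.CC
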