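import Pool.Agent.Lib.MP_8f66f0_al_CC.End.Spec

/-!
# Theorem CC: generation (M1)
-/

set_option autoImplicit false

namespace Pool.Agent.CC

open Pool.Agent.Wald Pool.Agent.TQ Pool.Agent.Ind Pool.Agent.WaldL Pool.Agent.FH Matrix
open scoped Pointwise Polynomial

/-- Restriction of a relative invariant to a smaller ideal. -/
def KR.res {R K : Type} [Ring R] [CommGroup K] {J J' : Ideal R} (κ : KR R J K) (h : J' ≤ J) :
    KR R J' K where
  f := κ.f
  mul A B hA hB h1 h2 := κ.mul A B hA hB (fun i j => h (h1 i j)) fun i j => h (h2 i j)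
  reindex e A hA h1 := κ.reindex e A hA fun i j => h (h1 i j)
  tri A B D hA hD h1 h2 h3 := κ.tri A B D hA hD (fun i j => h (h1 i j)) (fun i j => h (h2 i j))
    fun i j => h (h3 i j)

/-- The class which consists of the identity matrices. -/
theorem spc_one {R : Type} [Ring R] (J : Ideal R) : Spc R J (fun n _ _ w => w = 1) where
  unit n _ _ z hz := by
    subst hz
    refine ⟨isUnit_one, fun i j => ?_⟩
    rw [sub_self]
    exact J.zero_mem
  one n _ _ := rfl
  inv n _ _ z z' hz h1 _ := by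
    subst hz
    rwa [one_mul] at h1
  sum n m _ _ _ _ z w hz hw := by
    subst hz
    subst hw
    exact fromBlocks_one
  reindex n m _ _ _ _ e z hz := by
    subst hz
    exact submatrix_one_equiv e.symm

/-- M1: an invariant on `J f` which kills `J 0` and the special matrices is trivial. -/
theorem M1 (hU : S_uni) (hL : S_lad) (hF : S_flq) (h1 : S_gen1) (hf : S_genf) (hS : S_spc) :
    S_M1 := by
  intro O Y C Γ k _ _ _ _ _ _ S hD f
  induction f with
  | zero =>
    intro K _ κ h0 _
    exact h0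
  | succ f ih =>
    intro K _ κ h0 hM
    have hκ' : Kil (κ.res (J_mono S (Nat.le_succ f))) (J Γ k S f) :=
      ih K (κ.res (J_mono S (Nat.le_succ f))) h0 fun _ => hM (Nat.succ_le_succ (Nat.zero_le f))
    obtain ⟨hlad, _, _⟩ := hL O Y C Γ k S (f + 1) (Nat.succ_le_succ (Nat.zero_le f))
    rcases Nat.eq_zero_or_pos f with rfl | hf0
    · exact hU (U Γ k S) (J Γ k S 0) (J Γ k S 1) (O →₀ ℕ) (fun h => U Γ k (S.der 1 h))
        (fun h => J Γ k (S.der 1 h) 0) (fun h => eps Γ k S 1 h) (fun n _ _ w => Sp S n w) hlad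
        (hS O Y C Γ k S) (h1 O Y C Γ k S hD.1)
        (fun h => hF O _ _ Γ k (S.der 1 h) 1 le_rfl (der_exact S 1 h Γ)) K κ hκ' (hM le_rfl)
    · refine hU (U Γ k S) (J Γ k S f) (J Γ k S (f + 1)) (O →₀ ℕ) (fun h => U Γ k (S.der (f + 1) h))
        (fun h => J Γ k (S.der (f + 1) h) f) (fun h => eps Γ k S (f + 1) h) (fun n _ _ w => w = 1)
        hlad (spc_one _) (hf O Y C Γ k S (f + 1) (Nat.succ_le_succ hf0) fun h =>
          hD.2 (f + 1) h (Nat.succ_le_succ hf0))
        (fun h => hF O _ _ Γ k (S.der (f + 1) h) (f + 1) (Nat.succ_le_succ (Nat.zero_le f))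
          (der_exact S (f + 1) h Γ)) K κ hκ' fun n _ _ w hw => ?_
      subst hw
      have h2 := κ.mul (1 : Matrix n n (U Γ k S)) 1 isUnit_one isUnit_one
        (((spc_one (J Γ k S (f + 1))).unit n 1 rfl).2) (((spc_one (J Γ k S (f + 1))).unit n 1 rfl).2)
      rw [Matrix.one_mul] at h2
      exact (mul_left_cancel (a := κ.f (1 : Matrix n n (U Γ k S))) (by rw [mul_one]; exact h2)).symm

end Pool.Agent.CC
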