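import Pool.Agent.Lib.MP_8f66f0_al_CC.End.FinSpec

/-!
# Theorem CC: base change
-/

set_option autoImplicit false

namespace Pool.Agent.CC

open Pool.Agent.TQ

private theorem bc_cf {Y Γ k k' : Type} [Group Γ] [CommRing k] [CommRing k'] (φ : k →+* k')
    (z : RCF Y (MonoidAlgebra k Γ)) (g : Γ) (y' y : Y) :
    cf (QT.mapK (MonoidAlgebra.mapRingHom Γ φ) z) g y' y = φ (cf z g y' y) := by
  rw [cf, QT.ent_mapK, MonoidAlgebra.coeff_mapRingHom]
  rfl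

private theorem bc_ne {Y Γ k k' : Type} [Group Γ] [CommRing k] [CommRing k'] (φ : k →+* k')
    (z : RCF Y (MonoidAlgebra k Γ)) (g : Γ) (y' y : Y)
    (h : cf (QT.mapK (MonoidAlgebra.mapRingHom Γ φ) z) g y' y ≠ 0) : cf z g y' y ≠ 0 := by
  rw [bc_cf] at h
  intro h0
  exact h (by rw [h0, map_zero])

theorem bc : S_bc := by
  intro O Y C Γ k k' _ _ _ _ _ _ S φ
  refine ⟨((QT.mapK (MonoidAlgebra.mapRingHom Γ φ)).comp (U Γ k S).subtype).codRestrict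
    (U Γ k' S) ?_, fun z g y' y => bc_cf φ z.1 g y' y⟩
  rintro ⟨z, h1, h2, P, hP, h3⟩
  refine ⟨fun g y' y hc => h1 g y' y (bc_ne φ z g y' y hc), fun h' => ?_,
    P.map φ.toAddMonoidHom.toIntLinearMap, hP.map _, fun g y' y => ?_⟩
  · obtain ⟨h, H⟩ := h2 h'
    exact ⟨h, fun g y' y hc => H g y' y (bc_ne φ z g y' y hc)⟩
  · exact ⟨cf z g y' y, h3 g y' y, (bc_cf φ z g y' y).symm⟩

end Pool.Agent.CC
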