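import Pool.Agent.Lib.MP_8f66f0_al_CC.End.FinSpec

/-!
# Theorem CC: the homomorphism of the homotopy

`P x` has the entries `∑ C (x_g) Φ(g)` on the real objects.
-/

set_option autoImplicit false
set_option linter.unusedSectionVars false

namespace Pool.Agent.CC

open Pool.Agent.TQ
open scoped Pointwise Polynomial

section Emb

variable {V Γ L : Type} [Group Γ] [CommRing L] (Φ : Γ → RCF V L[X])

/-- The entries of the homomorphism. -/
noncomputable def embE (x : MonoidAlgebra L Γ) (w v : V) : MonoidAlgebra L[X] Γ :=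
  ∑ g ∈ x.coeff.support, MonoidAlgebra.single g (Polynomial.C (x.coeff g) * ent (Φ g) w v)

theorem embE_coeff (x : MonoidAlgebra L Γ) (w v : V) (g : Γ) :
    (embE Φ x w v).coeff g = Polynomial.C (x.coeff g) * ent (Φ g) w v := by
  classical
  rw [embE, MonoidAlgebra.coeff_sum, Finsupp.finsetSum_apply]
  rw [Finset.sum_eq_single g]
  · rw [MonoidAlgebra.coeff_single, Finsupp.single_eq_same]
  · intro g' _ hne
    rw [MonoidAlgebra.coeff_single, Finsupp.single_eq_of_ne hne.symm]
  · intro hg
    rw [Finsupp.notMem_support_iff.1 hg, map_zero, zero_mul, MonoidAlgebra.single_zero]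
    rfl

theorem embE_ne {x : MonoidAlgebra L Γ} {w v : V} (h : embE Φ x w v ≠ 0) :
    ∃ g ∈ x.coeff.support, ent (Φ g) w v ≠ 0 := by
  by_contra hcon
  push Not at hcon
  refine h (Finset.sum_eq_zero fun g hg => ?_)
  rw [hcon g hg, mul_zero, MonoidAlgebra.single_zero]

/-- The homomorphism, as an additive map. -/
noncomputable def embK (x : MonoidAlgebra L Γ) : RCF V (MonoidAlgebra L[X] Γ) :=
  mkK (embE Φ x)
    (fun w => (Set.Finite.biUnion x.coeff.support.finite_toSet
      fun g _ => ent_row (Φ g) w).subset fun v hv => by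
        obtain ⟨g, hg, hne⟩ := embE_ne Φ hv
        exact Set.mem_biUnion hg hne)
    (fun v => (Set.Finite.biUnion x.coeff.support.finite_toSet
      fun g _ => ent_col (Φ g) v).subset fun w hw => by
        obtain ⟨g, hg, hne⟩ := embE_ne Φ hw
        exact Set.mem_biUnion hg hne)

theorem cf_embK (x : MonoidAlgebra L Γ) (g : Γ) (w v : V) :
    cf (embK Φ x) g w v = Polynomial.C (x.coeff g) * ent (Φ g) w v := by
  rw [cf, embK, ent_mkK, embE_coeff]

theorem ent_embK_single (g : Γ) (a : L) (w v : V) :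
    ent (embK Φ (MonoidAlgebra.single g a)) w v =
      MonoidAlgebra.single g (Polynomial.C a * ent (Φ g) w v) := by
  classical
  refine MonoidAlgebra.ext (Finsupp.ext fun k => ?_)
  change cf (embK Φ (MonoidAlgebra.single g a)) k w v = _
  rw [cf_embK, MonoidAlgebra.coeff_single, MonoidAlgebra.coeff_single, Finsupp.single_apply,
    Finsupp.single_apply]
  by_cases h : g = k
  · rw [if_pos h, if_pos h, h]
  · rw [if_neg h, if_neg h, map_zero, zero_mul]

theorem embK_add (x y : MonoidAlgebra L Γ) : embK Φ (x + y) = embK Φ x + embK Φ y := by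
  refine cf_ext fun g w v => ?_
  rw [cf_add, cf_embK, cf_embK, cf_embK, MonoidAlgebra.coeff_add, Finsupp.add_apply, map_add,
    add_mul]

theorem embK_zero : embK Φ (0 : MonoidAlgebra L Γ) = 0 := by
  refine cf_ext fun g w v => ?_
  rw [cf_zero, cf_embK, MonoidAlgebra.coeff_zero, Finsupp.zero_apply, map_zero, zero_mul]

variable {Φ}

theorem embK_mul (hΦ : ∀ g h, Φ (g * h) = Φ g * Φ h) (x y : MonoidAlgebra L Γ) :
    embK Φ (x * y) = embK Φ x * embK Φ y := by
  classical
  induction x using MonoidAlgebra.induction_linear with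
  | zero => rw [zero_mul, embK_zero, zero_mul]
  | add x x' hx hx' => rw [add_mul, embK_add, embK_add, add_mul, hx, hx']
  | single g a =>
    induction y using MonoidAlgebra.induction_linear with
    | zero => rw [mul_zero, embK_zero, mul_zero]
    | add y y' hy hy' => rw [mul_add, embK_add, embK_add, mul_add, hy, hy']
    | single h b =>
      refine ent_ext fun w v => ?_
      have hs : ∀ u, ent (Φ h) u v ≠ 0 → u ∈ (ent_col (Φ h) v).toFinset := fun u hu => by
        rw [Set.Finite.mem_toFinset]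
        exact hu
      rw [MonoidAlgebra.single_mul_single, ent_embK_single, hΦ, ent_mul_col (Φ g) (Φ h) w v _ hs,
        ent_mul_col (embK Φ (MonoidAlgebra.single g a)) (embK Φ (MonoidAlgebra.single h b)) w v
          (ent_col (Φ h) v).toFinset fun u hu => hs u fun h0 => hu ?_]
      · rw [Finset.mul_sum]
        have e : ∀ (s : Finset V) (f : V → L[X]), MonoidAlgebra.single (g * h) (∑ u ∈ s, f u) =
            ∑ u ∈ s, MonoidAlgebra.single (g * h) (f u) := fun s f =>
          map_sum (MonoidAlgebra.singleAddHom (g * h)) f s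
        rw [e]
        refine Finset.sum_congr rfl fun u _ => ?_
        rw [ent_embK_single, ent_embK_single, MonoidAlgebra.single_mul_single, Polynomial.C_mul]
        congr 1
        ring
      · rw [ent_embK_single, h0, mul_zero, MonoidAlgebra.single_zero]

end Emb

section Mem

variable {V Γ L : Type} [Group Γ] [MulAction Γ V] [CommRing L] {X : Med V} {b : V}
  {Φ : Γ → RCF V L[X]}

theorem emb_cof (hΦ : IsPhi X b Φ) (x : MonoidAlgebra L Γ) :
    Cof (push (rea_inj X b) (embK Φ x)) := by
  classical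
  choose T hT using hΦ.cof
  let B : Finset L[X] := x.coeff.support.biUnion fun g =>
    (T g).image fun p => Polynomial.C (x.coeff g) * p
  refine ⟨Submodule.span ℤ (B : Set L[X]), ⟨B, rfl⟩, fun g y' y => ?_⟩
  by_cases h0 : cf (push (rea_inj X b) (embK Φ x)) g y' y = 0
  · rw [h0]
    exact Submodule.zero_mem _
  obtain ⟨w, v, rfl, rfl, hne⟩ := cf_push_ne _ h0
  rw [cf_push, cf_embK]
  rw [cf_embK] at hne
  have hg : g ∈ x.coeff.support := by
    rw [Finsupp.mem_support_iff]
    rintro h1
    rw [h1, map_zero, zero_mul] at hne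
    exact hne rfl
  refine AddSubgroup.closure_induction
    (p := fun r _ => Polynomial.C (x.coeff g) * r ∈ Submodule.span ℤ (B : Set L[X]))
    ?_ ?_ ?_ ?_ (hT g w v)
  · intro p hp
    exact Submodule.subset_span (Finset.mem_coe.2 (Finset.mem_biUnion.2
      ⟨g, hg, Finset.mem_image_of_mem _ (Finset.mem_coe.1 hp)⟩))
  · rw [mul_zero]
    exact Submodule.zero_mem _
  · intro p q _ _ hp hq
    rw [mul_add]
    exact Submodule.add_mem _ hp hq
  · intro p _ hp
    rw [mul_neg]
    exact Submodule.neg_mem _ hp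

/-- The half spaces which are moved by `g` or are small. -/
def bad (X : Med V) (b : V) (h' : Set V →₀ ℕ) (g : Γ) : Set (Set V) :=
  {a | a ∈ X.H ∧ ¬ (b ∈ g • a ↔ g • b ∈ g • a)} ∪ {a | a ∈ X.H ∧ ¬ (b ∈ a ↔ g • b ∈ a)} ∪
    ({a | h' (g • a) ≠ 0} ∪ {a | h' (g⁻¹ • a) ≠ 0})

theorem bad_finite (hG : ∀ (g : Γ), ∀ h ∈ X.H, g • h ∈ X.H) (h' : Set V →₀ ℕ) (g : Γ) :
    (bad X b h' g).Finite := by
  have h1 : {a | h' a ≠ 0}.Finite :=
    h'.support.finite_toSet.subset fun a ha => Finsupp.mem_support_iff.2 ha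
  have h2 : ∀ k : Γ, {a | h' (k • a) ≠ 0}.Finite := fun k =>
    h1.preimage (MulAction.injective k).injOn
  refine Set.Finite.union (Set.Finite.union ?_ (X.sep_finite b (g • b)))
    ((h2 g).union (h2 g⁻¹))
  refine ((X.sep_finite b (g • b)).preimage (f := fun a => g • a)
    (MulAction.injective g).injOn).subset ?_
  rintro a ⟨ha, hs⟩
  exact ⟨hG g a ha, hs⟩

theorem emb_far (hG : ∀ (g : Γ), ∀ h ∈ X.H, g • h ∈ X.H) (hΦ : IsPhi X b Φ)
    (x : MonoidAlgebra L Γ) : Far (SX X b) (push (rea_inj X b) (embK Φ x)) := by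
  classical
  intro h'
  have hB : (⋃ g ∈ x.coeff.support, bad X b h' g).Finite :=
    Set.Finite.biUnion x.coeff.support.finite_toSet fun g _ => bad_finite hG h' g
  refine ⟨Finsupp.onFinset hB.toFinset
    (fun a => if a ∈ ⋃ g ∈ x.coeff.support, bad X b h' g then 1 else 0) fun a ha => ?_,
    fun g y' y hc => ?_⟩
  · rw [Set.Finite.mem_toFinset]
    by_contra h1
    exact ha (if_neg h1)
  obtain ⟨w, v, rfl, rfl, hne⟩ := cf_push_ne _ hc
  rw [cf_embK] at hne
  have hg : g ∈ x.coeff.support := by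
    rw [Finsupp.mem_support_iff]
    rintro h1
    rw [h1, map_zero, zero_mul] at hne
    exact hne rfl
  have hent : ent (Φ g) w v ≠ 0 := right_ne_zero_of_mul hne
  have key : ∀ a : Set V, (if a ∈ ⋃ g ∈ x.coeff.support, bad X b h' g then 1 else 0) = 0 →
      a ∉ bad X b h' g := by
    intro a ha h1
    have h2 : a ∈ ⋃ g ∈ x.coeff.support, bad X b h' g :=
      Set.mem_biUnion (s := (x.coeff.support : Set Γ)) hg h1
    rw [if_pos h2] at ha
    exact one_ne_zero ha
  constructor
  · intro o ho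
    rw [F_rea] at ho ⊢
    obtain ⟨ho, h0⟩ := ho
    have h1 := key o h0
    have hoH : o ∈ X.H := ho.1.1
    refine ⟨hΦ.far g w v hent o ho ?_, ?_⟩
    · by_contra h2
      exact h1 (Or.inl (Or.inl ⟨hoH, h2⟩))
    · by_contra h2
      exact h1 (Or.inr (Or.inl h2))
  · intro o ho
    rw [F_rea] at ho ⊢
    obtain ⟨ho, h0⟩ := ho
    have h1 := key o h0
    have hoH : o ∈ X.H := ho.1.1
    refine ⟨hΦ.far' g w v hent o ho ?_, ?_⟩
    · by_contra h2
      exact h1 (Or.inl (Or.inr ⟨hoH, h2⟩))
    · by_contra h2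
      exact h1 (Or.inr (Or.inr h2))

end Mem

/-- The homomorphism `Φ_t`. -/
theorem emb : S_emb := by
  intro V Γ L _ _ _ X b Φ hG hΦ
  have hmem : ∀ x : MonoidAlgebra L Γ, push (rea_inj X b) (embK Φ x) ∈ U Γ L[X] (SX X b) :=
    fun x => ⟨fun _ _ _ _ => rfl, emb_far hG hΦ x, emb_cof hΦ x⟩
  refine ⟨{
    toFun := fun x => ⟨push (rea_inj X b) (embK Φ x), hmem x⟩
    map_mul' := fun x y => Subtype.ext ?_
    map_zero' := Subtype.ext ?_
    map_add' := fun x y => Subtype.ext ?_ }, fun x g w v => ?_, fun x g y' y h => ?_⟩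
  · change push (rea_inj X b) (embK Φ (x * y)) =
      push (rea_inj X b) (embK Φ x) * push (rea_inj X b) (embK Φ y)
    rw [embK_mul hΦ.mul]
    exact (push (rea_inj X b)).map_mul' _ _
  · change push (rea_inj X b) (embK Φ 0) = 0
    rw [embK_zero]
    exact (push (rea_inj X b)).map_zero'
  · change push (rea_inj X b) (embK Φ (x + y)) =
      push (rea_inj X b) (embK Φ x) + push (rea_inj X b) (embK Φ y)
    rw [embK_add]
    exact (push (rea_inj X b)).map_add' _ _
  · change cf (push (rea_inj X b) (embK Φ x)) g (rea X b w) (rea X b v) = _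
    rw [cf_push, cf_embK]
  · obtain ⟨w, v, h1, h2, _⟩ := cf_push_ne (rea_inj X b) (z := embK Φ x) h
    exact ⟨w, v, h1.symm, h2.symm⟩

end Pool.Agent.CC
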