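import Pool.Agent.Lib.MP_8f66f0_al_CC.End.Ray

/-!
# Theorem CC: finite matrices which respect labels
-/

set_option autoImplicit false

namespace Pool.Agent.CC

open Pool.Agent.Wald Pool.Agent.TQ Pool.Agent.Ind Pool.Agent.WaldL Pool.Agent.FH Matrix

section

variable {Y A : Type} [Ring A] {m : Type}

private theorem lab0_sum {ι : Type} (t : Finset ι) (S : ι → RCF Y A) (y x : Y) :
    ent (∑ i ∈ t, S i) y x = ∑ i ∈ t, ent (S i) y x := by
  classical
  induction t using Finset.induction_on with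
  | empty => rw [Finset.sum_empty, Finset.sum_empty, ent_zero]
  | insert a t ha ih => rw [Finset.sum_insert ha, Finset.sum_insert ha, ent_add, ih]

private theorem lab0_one [DecidableEq m] {i j : m} {y' y : Y}
    (h : ent ((1 : Matrix m m (RCF Y A)) i j) y' y ≠ 0) : i = j ∧ y' = y := by
  classical
  by_cases hij : i = j
  · subst hij
    rw [one_apply_eq, ent_one] at h
    refine ⟨rfl, ?_⟩
    by_contra hy
    exact h (if_neg hy)
  · rw [one_apply_ne hij, ent_zero] at h
    exact absurd rfl h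

private theorem lab0_sup [DecidableEq m] {s : Finset Y} {z : Matrix m m (RCF Y A)}
    (hz : Spp s z) {i j : m} {y' y : Y} (hy : y ∈ s) (h : ent (z i j) y' y ≠ 0) : y' ∈ s := by
  by_contra hy'
  have h0 : ent (z i j - (1 : Matrix m m (RCF Y A)) i j) y' y = 0 := by
    by_contra h'
    exact hy' (hz i j y' y h').2
  rw [ent_sub, sub_eq_zero] at h0
  rw [h0] at h
  exact hy' (by rw [(lab0_one h).2]; exact hy)

variable [Fintype m]

private theorem lab0_ex {z w : Matrix m m (RCF Y A)} {i j : m} {y' y : Y}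
    (h : ent ((z * w) i j) y' y ≠ 0) :
    ∃ k v, ent (z i k) y' v ≠ 0 ∧ ent (w k j) v y ≠ 0 := by
  rw [mul_apply, lab0_sum] at h
  obtain ⟨k, -, hk⟩ := Finset.exists_ne_zero_of_sum_ne_zero h
  obtain ⟨v, hv⟩ := exists_of_ent_mul hk
  exact ⟨k, v, left_ne_zero_of_mul hv, right_ne_zero_of_mul hv⟩

private theorem lab0_inv [DecidableEq m] {s : Finset Y} {z z' : Matrix m m (RCF Y A)}
    (hz : Spp s z) (h1 : z * z' = 1) (h2 : z' * z = 1) : Spp s z' := by
  intro i j y' y h
  have e1 : z' - 1 = -(z' * (z - 1)) := by rw [mul_sub, h2, mul_one, neg_sub]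
  have e2 : z' - 1 = -((z - 1) * z') := by rw [sub_mul, h1, one_mul, neg_sub]
  constructor
  · have h3 : ent ((z' - 1) i j) y' y ≠ 0 := h
    rw [e1, Matrix.neg_apply, ent_neg, neg_ne_zero] at h3
    obtain ⟨k, v, -, hv⟩ := lab0_ex h3
    exact (hz k j v y hv).1
  · have h3 : ent ((z' - 1) i j) y' y ≠ 0 := h
    rw [e2, Matrix.neg_apply, ent_neg, neg_ne_zero] at h3
    obtain ⟨k, v, hv, -⟩ := lab0_ex h3
    exact (hz i k y' v hv).2

private theorem lab0_mul [DecidableEq m] {s : Finset Y} (z : Matrix m m (RCF Y A))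
    {w : Matrix m m (RCF Y A)} (hw : Spp s w) : blk s z * blk s w = blk s (z * w) := by
  ext p q
  rw [mul_apply, Fintype.sum_prod_type]
  change _ = ent ((z * w) p.1 q.1) p.2 q.2
  rw [mul_apply, lab0_sum]
  refine Finset.sum_congr rfl fun k _ => ?_
  rw [ent_mul_col _ _ _ _ s fun v hv => lab0_sup hw q.2.2 hv]
  exact Finset.sum_coe_sort s fun v => ent (z p.1 k) (p.2 : Y) v * ent (w k q.1) v (q.2 : Y)

omit [Fintype m] in
private theorem lab0_blk [DecidableEq m] [DecidableEq Y] (s : Finset Y) :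
    blk s (1 : Matrix m m (RCF Y A)) = 1 := by
  ext p q
  change ent ((1 : Matrix m m (RCF Y A)) p.1 q.1) p.2 q.2 = _
  by_cases h : p = q
  · subst h
    rw [one_apply_eq, one_apply_eq, ent_one, if_pos rfl]
  · rw [one_apply_ne h]
    by_contra h'
    obtain ⟨h1, h2⟩ := lab0_one h'
    exact h (Prod.ext h1 (Subtype.ext h2))

end

/-- Finite matrices which respect labels with stabilizers in `KK` are killed. -/
theorem lab0 : S_lab0 := by
  intro Y L Γ K C _ _ _ _ _ hL κ hκ m _ _ _ s lab z z' h1 h2 hs hz hz' hK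
  have hs' : Spp s z' := lab0_inv hs h1 h2
  have e1 : blk s z * blk s z' = 1 := by rw [lab0_mul z hs', h1, lab0_blk]
  have e2 : blk s z' * blk s z = 1 := by rw [lab0_mul z' hs, h2, lab0_blk]
  have hU : IsUnit (blk s z) := ⟨⟨blk s z, blk s z', e1, e2⟩, rfl⟩
  rw [← kr_square (kperm_of_ku hκ) hU]
  exact kr_lab hL hκ (fun p => lab p.2) (fun p => lab p.2) e1 e2
    (fun p q g h => hz p.1 q.1 g p.2 q.2 h) (fun p q g h => hz' p.1 q.1 g p.2 q.2 h)
    fun p => hK p.2 p.2.2

end Pool.Agent.CC
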