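import Pool.Agent.Lib.MP_8f66f0_al_CC.End.FinSpec
import Pool.Agent.Lib.MP_8f66f0_al_CC.End.Lab0
import Pool.Agent.Lib.MP_8f66f0_al_CC.End.J0

/-!
# Theorem CC: the end, labels with stabilizers in `KK` (section 6)
-/

set_option autoImplicit false

namespace Pool.Agent.CC

open Pool.Agent.Wald Pool.Agent.TQ Pool.Agent.Ind Pool.Agent.WaldL Pool.Agent.FH Pool.Agent.Hier
  Pool.Agent.TreeC Matrix
open scoped Pointwise Polynomial Classical

/-- The pull back of an invariant. -/
noncomputable def pullK1 {R S K : Type} [Ring R] [Ring S] [CommGroup K] (i : R →+* S)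
    (κ : K1Fun S K) : K1Fun R K where
  f A := κ.f (A.map i)
  mul A B hA hB := by
    rw [Matrix.map_mul]
    exact κ.mul _ _ (hA.map i.mapMatrix) (hB.map i.mapMatrix)
  reindex e A hA := by
    rw [← Matrix.submatrix_map]
    exact κ.reindex e _ (hA.map i.mapMatrix)
  tri A B D hA hD := by
    rw [Matrix.fromBlocks_map, show (0 : Matrix _ _ R).map i = 0 from Matrix.map_zero i (map_zero i)]
    exact κ.tri _ _ _ (hA.map i.mapMatrix) (hD.map i.mapMatrix)

/-- The quotient of two invariants. -/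
noncomputable def divK1 {R K : Type} [Ring R] [CommGroup K] (κ κ' : K1Fun R K) : K1Fun R K where
  f A := κ.f A / κ'.f A
  mul A B hA hB := by
    rw [κ.mul A B hA hB, κ'.mul A B hA hB, mul_div_mul_comm]
  reindex e A hA := by
    rw [κ.reindex e A hA, κ'.reindex e A hA]
  tri A B D hA hD := by
    rw [κ.tri A B D hA hD, κ'.tri A B D hA hD, mul_div_mul_comm]

section

variable {O Y C Γ k : Type} [DecidableEq O] [Group Γ] [MulAction Γ O] [MulAction Γ C] [CommRing k]
  {S : Sys O Y C} {n : Type}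

theorem rcf_one_apply [DecidableEq n] (i j : n) :
    ((1 : Matrix n n (U Γ k S)) i j).1 = (1 : Matrix n n (RCF Y (MonoidAlgebra k Γ))) i j := by
  rw [one_apply, one_apply]
  split_ifs
  · rfl
  · rfl

theorem rcf_mul [Fintype n] (z w : Matrix n n (U Γ k S)) : rcf (z * w) = rcf z * rcf w :=
  Matrix.map_mul (f := (U Γ k S).subtype)

theorem rcf_one [DecidableEq n] : rcf (1 : Matrix n n (U Γ k S)) = 1 :=
  Matrix.map_one (U Γ k S).subtype (map_zero _) (map_one _)

/-- A matrix which is `1` modulo `J 0` is finite. -/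
theorem exists_spp [Fintype n] [DecidableEq n] {z : Matrix n n (U Γ k S)}
    (hz : Cg (J Γ k S 0) z 1) : ∃ s : Finset Y, Spp s (rcf z) := by
  have h1 : ∀ p : n × n, {q : Y × Y | ent (z p.1 p.2 - (1 : Matrix n n (U Γ k S)) p.1 p.2).1
      q.1 q.2 ≠ 0}.Finite := fun p => (mem_Jfin _ _ _).1 ((J0 O Y C Γ k S _).1 (hz p.1 p.2))
  refine ⟨Finset.univ.biUnion fun p => (h1 p).toFinset.image Prod.fst ∪
    (h1 p).toFinset.image Prod.snd, fun i j y' y hc => ?_⟩
  have h2 : (y', y) ∈ (h1 (i, j)).toFinset := by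
    rw [Set.Finite.mem_toFinset]
    change ent ((z i j).1 - ((1 : Matrix n n (U Γ k S)) i j).1) y' y ≠ 0
    rw [rcf_one_apply]
    exact hc
  constructor
  · exact Finset.mem_biUnion.2 ⟨(i, j), Finset.mem_univ _, Finset.mem_union_right _
      (Finset.mem_image.2 ⟨(y', y), h2, rfl⟩)⟩
  · exact Finset.mem_biUnion.2 ⟨(i, j), Finset.mem_univ _, Finset.mem_union_left _
      (Finset.mem_image.2 ⟨(y', y), h2, rfl⟩)⟩

end

section

variable {V C Γ L : Type} [Group Γ] [MulAction Γ V] [MulAction Γ C] [CommRing L] {X : Med V}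
  {b : V} {lab : V → C} {i : U Γ L (cubeSys X b lab) →+* U Γ L (SX X b)}

theorem rcf_map_i (hi : ∀ z, (i z).1 = z.1) {n : Type} (z : Matrix n n (U Γ L (cubeSys X b lab))) :
    rcf (z.map i) = rcf z := Matrix.ext fun p q => hi (z p q)

theorem sp_map_i (hfl : S_fl) (hi : ∀ z, (i z).1 = z.1) {n : Type} [Fintype n] [DecidableEq n]
    {w : Matrix n n (U Γ L (cubeSys X b lab))} (hw : Sp (cubeSys X b lab) n w) :
    Sp (SX X b) n (w.map i) := by
  obtain ⟨i', hi1, -, hi3⟩ := hfl V C Γ L X b lab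
  have hii : i = i' := RingHom.ext fun z => Subtype.ext ((hi z).trans (hi1 z).symm)
  rw [hii]
  exact hi3 n w hw

end

/-- A matrix over the subring of a labelling with stabilizers in `KK` is killed. -/
theorem end0 (hM : S_M1K) (hfl : S_fl) : S_end0 := by
  intro V C Γ L K _ _ _ _ _ _ X b N lab κ κU i hN hL hκ hE hSp hi hLf hK n _ _ z hz
  refine hM (Set V) (YX X b) C Γ L (cubeSys X b lab) N (card_A X b hN lab) hLf K (pullK1 i κU)
    ?_ ?_ n z hz
  · intro n _ _ z hz hz0
    obtain ⟨s, hs⟩ := exists_spp hz0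
    have h1 : rcf (z.map i) = rcf z := rcf_map_i hi z
    change κU.f (z.map i) = 1
    rw [hE n (z.map i) s (hz.map i.mapMatrix) (h1 ▸ hs), h1]
    obtain ⟨u, rfl⟩ := hz
    refine lab0 (YX X b) L Γ K C hL κ hκ n s (fun y => lab y.1.1) (rcf u.1) (rcf u.2)
      (by rw [← rcf_mul, u.val_inv, rcf_one]) (by rw [← rcf_mul, u.inv_val, rcf_one]) hs
      (fun p q g y' y h => (u.1 p q).2.1 g y' y h) (fun p q g y' y h => (u.2 p q).2.1 g y' y h)
      fun y _ => hK y.1.1
  · intro n _ _ w hw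
    exact hSp n (w.map i) (sp_map_i hfl hi hw)

end Pool.Agent.CC
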