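import Pool.Agent.Lib.MP_8f66f0_al_CC.End.End1A

/-!
# Theorem CC: the end, the label of the base point is fixed (section 6)
-/

set_option autoImplicit false

namespace Pool.Agent.CC

open Pool.Agent.Wald Pool.Agent.TQ Pool.Agent.Ind Pool.Agent.WaldL Pool.Agent.FH Pool.Agent.Hier
  Pool.Agent.TreeC Matrix
open scoped Pointwise Polynomial Classical

/-- The label of the base point is fixed and different from the others. -/
theorem end1 (hM : S_M1K) (hfl : S_fl) : S_end1 := by
  intro V C Γ L K _ _ _ _ _ _ X b N lab κ κU i hN hL hκ hE hSp hi hLf hb h hK n _ _ z hz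
  have key : ∀ (n : Type) [Fintype n] [DecidableEq n]
      (z : Matrix n n (U Γ L (cubeSys X b lab))), IsUnit z →
      (divK1 (pullK1 i κU) (pullK1 (bt hb h) κ)).f z = 1 := by
    refine hM (Set V) (YX X b) C Γ L (cubeSys X b lab) N (card_A X b hN lab) hLf K
      (divK1 (pullK1 i κU) (pullK1 (bt hb h) κ)) ?_ ?_
    · intro n _ _ z hz hz0
      obtain ⟨s, hs⟩ := exists_spp hz0
      change κU.f (z.map i) / κ.f (z.map (bt hb h)) = 1
      rw [div_eq_one]
      have u1 : IsUnit (Ex (e1 hb h) z) := ex_unit _ hz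
      have u2 : IsUnit (Ex (e2 hb h) z) := ex_unit _ hz
      have v1 : IsUnit ((Ex (e1 hb h) z).map i) := u1.map i.mapMatrix
      have v2 : IsUnit ((Ex (e2 hb h) z).map i) := u2.map i.mapMatrix
      have h1 : κU.f ((Ex (e1 hb h) z).map i) = κ.f (z.map (bt hb h)) := by
        rw [hE n _ {rea X b b} v1
          (by rw [rcf_map_i hi]; exact spp_e1 hb h z), rcf_map_i hi]
        have h2 : blk {rea X b b} (rcf (Ex (e1 hb h) z)) = (z.map (bt hb h)).submatrix
            (Equiv.prodUnique n ({rea X b b} : Finset (YX X b))).symm.symm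
            (Equiv.prodUnique n ({rea X b b} : Finset (YX X b))).symm.symm := by
          refine Matrix.ext fun p q => ?_
          change ent (rcf (Ex (e1 hb h) z) p.1 q.1) p.2 q.2 =
            ent (z p.1 q.1).1 (rea X b b) (rea X b b)
          rw [Finset.mem_singleton.1 p.2.2, Finset.mem_singleton.1 q.2.2, rcf_e1, ent_add,
            ent_eB_mul, if_pos rfl, ← rcf_one_apply (S := cubeSys X b lab)]
          change _ + ent ((z p.1 q.1).1 - ((1 : Matrix n n (U Γ L (cubeSys X b lab))) p.1 q.1).1)
            _ _ = _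
          rw [ent_sub, add_sub_cancel]
        rw [h2]
        exact κ.reindex _ _ (hz.map (bt hb h).mapMatrix)
      have h2 : κU.f ((Ex (e2 hb h) z).map i) = 1 := by
        rw [hE n _ (s.erase (rea X b b)) v2
          (by rw [rcf_map_i hi]; exact spp_e2 hb h z hs), rcf_map_i hi]
        obtain ⟨u, hu⟩ := u2
        rw [← hu]
        refine lab0 (YX X b) L Γ K C hL κ hκ n (s.erase (rea X b b)) (fun y => lab y.1.1)
          (rcf u.1) (rcf u.2) (by rw [← rcf_mul, u.val_inv, rcf_one])
          (by rw [← rcf_mul, u.inv_val, rcf_one]) (by rw [hu]; exact spp_e2 hb h z hs)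
          (fun p q g y' y h => (u.1 p q).2.1 g y' y h)
          (fun p q g y' y h => (u.2 p q).2.1 g y' y h) fun y hy => hK y.1.1 fun hyb => ?_
        rw [Finset.mem_erase] at hy
        exact hy.1 (eq_rea h y (congrArg lab hyb))
      rw [← h1]
      conv_lhs => rw [← e1_e2 hb h z, Matrix.map_mul, κU.mul _ _ v1 v2, h2, mul_one]
    · intro n _ _ w hw
      change κU.f (w.map i) / κ.f (w.map (bt hb h)) = 1
      rw [hSp n (w.map i) (sp_map_i hfl hi hw)]
      obtain ⟨r, _, hm, _⟩ := hw
      rw [mon_bt hκ hb h w hm, div_one]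
  exact div_eq_one.1 (key n z hz)

end Pool.Agent.CC
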