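import Pool.Agent.Lib.MP_8f66f0_al_CC.End.Spec

/-!
# Theorem CC: the index of shifts on every orbit of labels

The objects with label in the orbit of `c` form a block for the matrices which respect labels; a ring
homomorphism `k[Γ] → F` gives a ring homomorphism from `U Γ k S` to the matrices over `F` on this block.
-/

set_option autoImplicit false
set_option linter.unusedSectionVars false

namespace Pool.Agent.CC

open Pool.Agent.Wald Pool.Agent.TQ Pool.Agent.Ind Pool.Agent.WaldL Pool.Agent.FH Matrix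

section Th

variable {O Y C Γ k F : Type} [DecidableEq O] [Group Γ] [MulAction Γ O] [MulAction Γ C] [CommRing k]
  [Field F] (S : Sys O Y C) (c : C) (φ : MonoidAlgebra k Γ →+* F)

private theorem cf_of_ent {z : RCF Y (MonoidAlgebra k Γ)} {y x : Y} (h : ent z y x ≠ 0) :
    ∃ g, cf z g y x ≠ 0 := by
  by_contra hc
  push Not at hc
  exact h (MonoidAlgebra.ext (Finsupp.ext fun g => by rw [← cf, hc g]; rfl))

private theorem lab_orbit {z : U Γ k S} {v x : Y} (h : ent z.1 v x ≠ 0)
    (hx : S.lab x ∈ MulAction.orbit Γ c) : S.lab v ∈ MulAction.orbit Γ c := by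
  obtain ⟨g, hg⟩ := cf_of_ent h
  obtain ⟨g', hg'⟩ := hx
  refine ⟨g * g', ?_⟩
  change (g * g') • c = S.lab v
  rw [z.2.1 g v x hg, mul_smul]
  exact congrArg (fun d => g • d) hg'

/-- The block. -/
private noncomputable def thK (z : U Γ k S) : RCF {y : Y // S.lab y ∈ MulAction.orbit Γ c} F :=
  mkK (fun y x => φ (ent z.1 y.1 x.1))
    (fun y => ((ent_row z.1 y.1).preimage Subtype.val_injective.injOn).subset fun x hx => by
      intro h
      exact hx (by rw [h, map_zero]))
    (fun x => ((ent_col z.1 x.1).preimage Subtype.val_injective.injOn).subset fun y hy => by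
      intro h
      exact hy (by rw [h, map_zero]))

private theorem ent_thK (z : U Γ k S) (y x : {y : Y // S.lab y ∈ MulAction.orbit Γ c}) :
    ent (thK S c φ z) y x = φ (ent z.1 y.1 x.1) := ent_mkK _ _ _ _ _

/-- The ring homomorphism to the block. -/
private noncomputable def thR : U Γ k S →+* RCF {y : Y // S.lab y ∈ MulAction.orbit Γ c} F where
  toFun := thK S c φ
  map_one' := by
    classical
    refine ent_ext fun y x => ?_
    rw [ent_thK, ent_one]
    change φ (ent (1 : RCF Y (MonoidAlgebra k Γ)) y.1 x.1) = _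
    rw [ent_one]
    by_cases h : y = x
    · rw [if_pos h, if_pos (congrArg Subtype.val h), map_one]
    · rw [if_neg h, if_neg (fun h' => h (Subtype.ext h')), map_zero]
  map_mul' a b := by
    classical
    refine ent_ext fun y x => ?_
    have h1 : ∀ v, ent b.1 v x.1 ≠ 0 → v ∈ (ent_col b.1 x.1).toFinset := fun v hv => by
      rw [Set.Finite.mem_toFinset]
      exact hv
    have h2 : ent (thK S c φ a * thK S c φ b) y x =
        ∑ v ∈ ((ent_col b.1 x.1).toFinset.subtype fun v => S.lab v ∈ MulAction.orbit Γ c),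
          ent (thK S c φ a) y v * ent (thK S c φ b) v x := by
      refine ent_mul_col _ _ _ _ _ fun v hv => ?_
      rw [Finset.mem_subtype]
      refine h1 v.1 fun h => hv ?_
      rw [ent_thK, h, map_zero]
    rw [h2, ent_thK]
    simp only [ent_thK]
    change φ (ent (a.1 * b.1) y.1 x.1) = _
    rw [ent_mul_col a.1 b.1 y.1 x.1 _ h1, map_sum, Finset.sum_subtype_eq_sum_filter
      (s := (ent_col b.1 x.1).toFinset) (p := fun v => S.lab v ∈ MulAction.orbit Γ c)
      (f := fun v => φ (ent a.1 y.1 v) * φ (ent b.1 v x.1))]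
    rw [Finset.filter_true_of_mem]
    · exact Finset.sum_congr rfl fun v _ => map_mul _ _ _
    · intro v hv
      rw [Set.Finite.mem_toFinset] at hv
      exact lab_orbit S c hv x.2
  map_zero' := by
    refine ent_ext fun y x => ?_
    rw [ent_thK, ent_zero]
    change φ (ent (0 : RCF Y (MonoidAlgebra k Γ)) y.1 x.1) = _
    rw [ent_zero, map_zero]
  map_add' a b := by
    refine ent_ext fun y x => ?_
    rw [ent_add, ent_thK, ent_thK, ent_thK, ← map_add]
    rfl

private theorem ent_thR (z : U Γ k S) (y x : {y : Y // S.lab y ∈ MulAction.orbit Γ c}) :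
    ent (thR S c φ z) y x = φ (ent z.1 y.1 x.1) := ent_thK S c φ z y x

private theorem lab_ray {ρ : ℕ ↪ Y} (hρ : IsRay S ρ) (n : ℕ) : S.lab (ρ n) = S.lab (ρ 0) := by
  obtain ⟨o, _, h⟩ := hρ
  induction n with
  | zero => rfl
  | succ n ih => rw [h n, S.lab_re, ih]

end Th

section Main

variable {Y F B : Type} [Ring B] [Field F] {p : Y → Prop}

private theorem ent_shR (A : Type) [Ring A] (ρ : ℕ ↪ Y) (y x : Y) [Decidable
    ((∃ n, x = ρ n ∧ y = ρ (n + 1)) ∨ (x ∉ Set.range ρ ∧ y = x))] : ent (shR A ρ) y x =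
    if (∃ n, x = ρ n ∧ y = ρ (n + 1)) ∨ (x ∉ Set.range ρ ∧ y = x) then 1 else 0 := by
  rw [shR, ent_mkK]
  congr

private theorem ent_shL (A : Type) [Ring A] (ρ : ℕ ↪ Y) (x y : Y) [Decidable
    ((∃ n, x = ρ n ∧ y = ρ (n + 1)) ∨ (x ∉ Set.range ρ ∧ y = x))] : ent (shL A ρ) x y =
    if (∃ n, x = ρ n ∧ y = ρ (n + 1)) ∨ (x ∉ Set.range ρ ∧ y = x) then 1 else 0 := by
  rw [shL, ent_mkK]
  congr

/-- The restriction of a ray. -/
private def res (ρ : ℕ ↪ Y) (h : ∀ n, p (ρ n)) : ℕ ↪ {y : Y // p y} :=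
  ⟨fun n => ⟨ρ n, h n⟩, fun _ _ hab => ρ.injective (congrArg Subtype.val hab)⟩

private theorem cond_res (ρ : ℕ ↪ Y) (h : ∀ n, p (ρ n)) (y x : {y : Y // p y}) :
    ((∃ n, x = res ρ h n ∧ y = res ρ h (n + 1)) ∨ (x ∉ Set.range (res ρ h) ∧ y = x)) ↔
    ((∃ n, x.1 = ρ n ∧ y.1 = ρ (n + 1)) ∨ (x.1 ∉ Set.range ρ ∧ y.1 = x.1)) := by
  have h1 : ∀ (v : {y : Y // p y}) n, v = res ρ h n ↔ v.1 = ρ n := fun v n => Subtype.ext_iff
  have h2 : x ∈ Set.range (res ρ h) ↔ x.1 ∈ Set.range ρ := by
    simp only [Set.mem_range]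
    exact exists_congr fun n => by rw [eq_comm, h1, eq_comm]
  rw [h2, Subtype.ext_iff (a1 := y)]
  simp only [h1]

private theorem cond_out (ρ : ℕ ↪ Y) (h : ∀ n, ¬ p (ρ n)) (y x : {y : Y // p y}) :
    ((∃ n, x.1 = ρ n ∧ y.1 = ρ (n + 1)) ∨ (x.1 ∉ Set.range ρ ∧ y.1 = x.1)) ↔ y = x := by
  constructor
  · rintro (⟨n, h1, _⟩ | ⟨_, h2⟩)
    · exact absurd (h1 ▸ x.2) (h n)
    · exact Subtype.ext h2
  · intro h1
    refine Or.inr ⟨?_, congrArg Subtype.val h1⟩
    rintro ⟨n, hn⟩
    exact h n (hn ▸ x.2)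

end Main

theorem idx (hI : S_idx0) : S_idx := by
  classical
  intro O Y C Γ k _ _ _ _ _ _ S m _ _ r u hr hu hc c
  by_cases hne : ∃ l b ρ, r l = some (b, ρ) ∧ S.lab (ρ 0) ∈ MulAction.orbit Γ c
  swap
  · rw [wgt]
    refine Finset.sum_eq_zero fun l _ => ?_
    rw [if_neg]
    rintro ⟨b, ρ, h1, h2⟩
    exact hne ⟨l, b, ρ, h1, h2⟩
  obtain ⟨l0, b0, ρ0, h0, h0'⟩ := hne
  obtain ⟨M, hM⟩ := Ideal.exists_maximal k
  let _ : Field (k ⧸ M) := Ideal.Quotient.field M
  let φ : MonoidAlgebra k Γ →+* (k ⧸ M) :=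
    (Ideal.Quotient.mk M).comp (MonoidAlgebra.lift k k Γ (1 : Γ →* k)).toRingHom
  let p : Y → Prop := fun y => S.lab y ∈ MulAction.orbit Γ c
  have hp : ∀ {l b ρ}, r l = some (b, ρ) → S.lab (ρ 0) ∈ MulAction.orbit Γ c → ∀ n, p (ρ n) := by
    intro l b ρ h1 h2 n
    change S.lab (ρ n) ∈ _
    rw [lab_ray S (hr l b ρ h1)]
    exact h2
  have hp' : ∀ {l b ρ}, r l = some (b, ρ) → S.lab (ρ 0) ∉ MulAction.orbit Γ c →
      ∀ n, ¬ p (ρ n) := by
    intro l b ρ h1 h2 n
    change S.lab (ρ n) ∉ _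
    rw [lab_ray S (hr l b ρ h1)]
    exact h2
  have key : ∀ l, ∃ (ρ' : ℕ ↪ {y : Y // p y}) (e : SignType),
      ((if ∃ b ρ, r l = some (b, ρ) ∧ S.lab (ρ 0) ∈ MulAction.orbit Γ c then sgn (r l) else 0) =
        ((e : SignType) : ℤ)) ∧
      ∀ y x : {y : Y // p y}, φ (ent (shO (MonoidAlgebra k Γ) (r l)) y.1 x.1) =
        ent (shE (k ⧸ M) ρ' e) y x := by
    intro l
    rcases hl : r l with _ | ⟨b, ρ⟩
    · refine ⟨res ρ0 (hp h0 h0'), 0, ?_, ?_⟩
      · rw [if_neg]
        · rfl
        · rintro ⟨b, ρ, h, _⟩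
          exact absurd h (by simp)
      · intro y x
        change φ (ent (1 : RCF Y (MonoidAlgebra k Γ)) y.1 x.1) = ent (1 : RCF {y : Y // p y} (k ⧸ M)) y x
        rw [ent_one, ent_one]
        by_cases h : y = x
        · rw [if_pos h, if_pos (congrArg Subtype.val h), map_one]
        · rw [if_neg h, if_neg (fun h' => h (Subtype.ext h')), map_zero]
    · by_cases ho : S.lab (ρ 0) ∈ MulAction.orbit Γ c
      · rcases b with _ | _
        · refine ⟨res ρ (hp hl ho), -1, ?_, ?_⟩
          · rw [if_pos ⟨false, ρ, rfl, ho⟩]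
            rfl
          · intro y x
            change φ (ent (shL (MonoidAlgebra k Γ) ρ) y.1 x.1) =
              ent (shL (k ⧸ M) (res ρ (hp hl ho))) y x
            rw [ent_shL, ent_shL]
            by_cases h : ((∃ n, y.1 = ρ n ∧ x.1 = ρ (n + 1)) ∨ (y.1 ∉ Set.range ρ ∧ x.1 = y.1))
            · rw [if_pos h, if_pos ((cond_res ρ (hp hl ho) x y).2 h), map_one]
            · rw [if_neg h, if_neg (fun h' => h ((cond_res ρ (hp hl ho) x y).1 h')), map_zero]
        · refine ⟨res ρ (hp hl ho), 1, ?_, ?_⟩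
          · rw [if_pos ⟨true, ρ, rfl, ho⟩]
            rfl
          · intro y x
            change φ (ent (shR (MonoidAlgebra k Γ) ρ) y.1 x.1) =
              ent (shR (k ⧸ M) (res ρ (hp hl ho))) y x
            rw [ent_shR, ent_shR]
            by_cases h : ((∃ n, x.1 = ρ n ∧ y.1 = ρ (n + 1)) ∨ (x.1 ∉ Set.range ρ ∧ y.1 = x.1))
            · rw [if_pos h, if_pos ((cond_res ρ (hp hl ho) y x).2 h), map_one]
            · rw [if_neg h, if_neg (fun h' => h ((cond_res ρ (hp hl ho) y x).1 h')), map_zero]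
      · refine ⟨res ρ0 (hp h0 h0'), 0, ?_, ?_⟩
        · rw [if_neg]
          · rfl
          · rintro ⟨b', ρ', h, h'⟩
            rw [Option.some.injEq, Prod.mk.injEq] at h
            rw [← h.2] at h'
            exact ho h'
        · intro y x
          change _ = ent (1 : RCF {y : Y // p y} (k ⧸ M)) y x
          rw [ent_one]
          have h1 := cond_out (p := p) ρ (hp' hl ho)
          rcases b with _ | _
          · change φ (ent (shL (MonoidAlgebra k Γ) ρ) y.1 x.1) = _
            rw [ent_shL]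
            by_cases h : y = x
            · rw [if_pos h, if_pos ((h1 x y).2 h.symm), map_one]
            · rw [if_neg h, if_neg (fun h' => h ((h1 x y).1 h').symm), map_zero]
          · change φ (ent (shR (MonoidAlgebra k Γ) ρ) y.1 x.1) = _
            rw [ent_shR]
            by_cases h : y = x
            · rw [if_pos h, if_pos ((h1 y x).2 h), map_one]
            · rw [if_neg h, if_neg (fun h' => h ((h1 y x).1 h')), map_zero]
  choose ρ' e he hE using key
  have h1 := hI {y : Y // p y} (k ⧸ M) m ρ' e (u.map (thR S c φ)) (hu.map (thR S c φ).mapMatrix) ?_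
  · rw [wgt]
    exact Eq.trans (Finset.sum_congr rfl fun l _ => he l) h1
  · intro i j
    rw [mem_Jfin]
    have h2 := (mem_Jfin Y (MonoidAlgebra k Γ) _).1 (hc i j)
    refine (h2.preimage (f := fun q : {y : Y // p y} × {y : Y // p y} => (q.1.1, q.2.1))
      (fun a _ b _ hab => ?_)).subset fun q hq hz => hq ?_
    · rw [Prod.mk.injEq] at hab
      exact Prod.ext (Subtype.ext hab.1) (Subtype.ext hab.2)
    · have h3 : ent (dg (k ⧸ M) ρ' e i j) q.1 q.2 =
          φ (ent (dgO (MonoidAlgebra k Γ) r i j) q.1.1 q.2.1) := by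
        by_cases hij : i = j
        · rw [hij, dg, dgO, diagonal_apply_eq, diagonal_apply_eq, hE]
        · rw [dg, dgO, diagonal_apply_ne _ hij, diagonal_apply_ne _ hij, ent_zero, ent_zero,
            map_zero]
      rw [ent_sub, h3, map_apply, ent_thR, ← map_sub, ← ent_sub]
      change φ (ent (rcf u i j - dgO (MonoidAlgebra k Γ) r i j) q.1.1 q.2.1) = 0
      rw [hz, map_zero]

end Pool.Agent.CC
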