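import Pool.Agent.Lib.MP_8f66f0_al_CC.End.FinSpec
import Pool.Agent.Lib.MP_8f66f0_al_Hier.Iso
import Pool.Agent.Lib.MP_8f66f0_al_Ind.One

/-!
# Theorem CC: `K₁` of the group from the homotopy (section 6)

For `A` invertible over `L[Γ]` and `z = Ex P A` over `U (SX X b; L[t])`: the invariants of the values of
`z` at `t = 0` and at `t = 1` agree (`S_hom`), the value at `0` respects the vertices (`S_end0`), and the
value at `1` respects the unoriented labels (`S_end1`), so its invariant is the invariant of `A`.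
-/

set_option autoImplicit false

namespace Pool.Agent.CC

open Pool.Agent.Wald Pool.Agent.TQ Pool.Agent.Ind Pool.Agent.WaldL Pool.Agent.FH Pool.Agent.Hier
  Pool.Agent.TreeC Matrix
open scoped Pointwise Polynomial Classical

/-- `KS` passes to isomorphic groups. -/
theorem kkc_iso {G G' : Type} [Group G] [Group G'] (e : G ≃* G') (h : KS G) : KS G' :=
  ⟨kk_iso (fun _ _ _ hL _ _ _ => whTL_one hL _) e h.1,
    fun LL _ _ hL => Pool.Agent.Hier.iso LL _ _ e (h.2 LL hL)⟩

/-- The subgroups of a group in `Hd KS`. -/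
theorem kkc_le {G : Type} [Group G] {S H : Subgroup G} (hS : Hd KS S) (h : H ≤ S) : KS H :=
  kkc_iso (Subgroup.subgroupOfEquivOfLe h) (hS (H.subgroupOf S))

/-- The group itself. -/
theorem kkc_top {G : Type} [Group G] (h : Hd KS G) : KS G := kkc_iso Subgroup.topEquiv (h ⊤)

section Exx

variable {R S : Type} [Ring R] [Ring S] (ε : S →ₙ+* R) {n : Type} [Fintype n] [DecidableEq n]

private theorem kkc_ex_mul (r s : Matrix n n S) : Ex ε (r * s) = Ex ε r * Ex ε s := by
  have h : r * s - 1 = (r - 1) + (s - 1) + (r - 1) * (s - 1) := by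
    rw [Matrix.sub_mul, Matrix.mul_sub, Matrix.mul_one, Matrix.one_mul]
    abel
  have h1 : ∀ a b : Matrix n n S, (a + b).map ε = a.map ε + b.map ε := fun a b => by
    ext i j
    exact map_add ε _ _
  have h2 : ∀ a b : Matrix n n S, (a * b).map ε = a.map ε * b.map ε := fun a b => by
    ext i j
    rw [Matrix.map_apply, Matrix.mul_apply, Matrix.mul_apply, map_sum]
    refine Finset.sum_congr rfl fun k _ => ?_
    rw [map_mul, Matrix.map_apply, Matrix.map_apply]
  rw [Ex, Ex, Ex, h, h1, h1, h2]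
  simp only [Matrix.add_mul, Matrix.mul_add, Matrix.mul_one, Matrix.one_mul]
  abel

private theorem kkc_ex_inv {r s : Matrix n n S} (h : r * s = 1) : Ex ε r * Ex ε s = 1 := by
  rw [← kkc_ex_mul, h, Ex, sub_self]
  have h0 : (0 : Matrix n n S).map ε = 0 := by
    ext i j
    exact map_zero ε
  rw [h0, add_zero]

end Exx

section Lift

variable {V C Γ k : Type} [Group Γ] [MulAction Γ V] [MulAction Γ C] [CommRing k] {X : Med V} {b : V}

/-- An invertible matrix which respects the labels comes from the subring of the labelling. -/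
private theorem kkc_lift (lab : V → C) (i : U Γ k (cubeSys X b lab) →+* U Γ k (SX X b))
    (hi : ∀ z, (i z).1 = z.1) {n : Type} [Fintype n] [DecidableEq n]
    (z z' : Matrix n n (U Γ k (SX X b))) (h : z * z' = 1) (h' : z' * z = 1)
    (hz : ∀ p q, Lab (cubeSys X b lab) (z p q).1)
    (hz' : ∀ p q, Lab (cubeSys X b lab) (z' p q).1) :
    ∃ w : Matrix n n (U Γ k (cubeSys X b lab)), IsUnit w ∧ w.map i = z ∧
      ∀ p q, (w p q).1 = (z p q).1 := by
  have key : ∀ x : U Γ k (SX X b), Lab (cubeSys X b lab) x.1 → x.1 ∈ U Γ k (cubeSys X b lab) :=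
    fun x hx => ⟨hx, x.2.2.1, x.2.2.2⟩
  have inj : Function.Injective i := fun x y hxy => Subtype.ext (by rw [← hi x, ← hi y, hxy])
  have hw : ∀ (y : Matrix n n (U Γ k (SX X b))) (hy : ∀ p q, Lab (cubeSys X b lab) (y p q).1),
      (Matrix.of fun p q => (⟨(y p q).1, key _ (hy p q)⟩ : U Γ k (cubeSys X b lab))).map i = y :=
    fun y hy => Matrix.ext fun p q => Subtype.ext (hi _)
  have h1 : ∀ a c : Matrix n n (U Γ k (cubeSys X b lab)), a.map i * c.map i = 1 → a * c = 1 := by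
    intro a c hac
    refine Matrix.map_injective inj ?_
    change (a * c).map i = (1 : Matrix n n (U Γ k (cubeSys X b lab))).map i
    rw [Matrix.map_mul, hac, Matrix.map_one _ (map_zero i) (map_one i)]
  refine ⟨_, ?_, hw z hz, fun _ _ => rfl⟩
  rw [isUnit_iff_exists]
  exact ⟨Matrix.of fun p q => ⟨(z' p q).1, key _ (hz' p q)⟩, h1 _ _ (by rw [hw z hz, hw z' hz', h]),
    h1 _ _ (by rw [hw z' hz', hw z hz, h'])⟩

end Lift

section Val

variable {V C Γ L : Type} [Group Γ] [MulAction Γ V] [MulAction Γ C] [CommRing L] {X : Med V} {b : V}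
  {Φ : Γ → RCF V L[X]} {P : MonoidAlgebra L Γ →ₙ+* U Γ L[X] (SX X b)}

/-- The value of `Ex P a` at `t = c`. -/
private theorem kkc_val (F : U Γ L[X] (SX X b) →+* U Γ L (SX X b)) {n : Type} [DecidableEq n]
    (a : Matrix n n (MonoidAlgebra L Γ)) (p q : n) :
    (Ex P a).map F p q = (1 : Matrix n n (U Γ L (SX X b))) p q + F (P ((a - 1) p q)) := by
  change F ((1 : Matrix n n (U Γ L[X] (SX X b))) p q + P ((a - 1) p q)) = _
  rw [map_add]
  congr 1
  rw [Matrix.one_apply, Matrix.one_apply, apply_ite F, map_one, map_zero]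

private theorem kkc_lab
    (hP1 : ∀ x g w v, cf (P x).1 g (rea X b w) (rea X b v) =
      Polynomial.C (x.coeff g) * ent (Φ g) w v)
    (hP2 : ∀ x g y' y, cf (P x).1 g y' y ≠ 0 → ∃ w v, y' = rea X b w ∧ y = rea X b v) (c : L)
    (F : U Γ L[X] (SX X b) →+* U Γ L (SX X b))
    (hF : IsBc (SX X b) (Polynomial.evalRingHom c) F) (lab : V → C)
    (hl : ∀ g w v, (ent (Φ g) w v).eval c ≠ 0 → lab w = g • lab v) {n : Type} [DecidableEq n]
    (a : Matrix n n (MonoidAlgebra L Γ)) (p q : n) :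
    Lab (cubeSys X b lab) ((Ex P a).map F p q).1 := by
  rw [kkc_val]
  refine Lab.add ?_ ?_
  · by_cases hpq : p = q
    · rw [Matrix.one_apply, if_pos hpq]
      exact Lab.one _
    · rw [Matrix.one_apply, if_neg hpq]
      exact Lab.zero _
  · intro g y' y hne
    rw [hF] at hne
    obtain ⟨w, v, rfl, rfl⟩ := hP2 _ g y' y fun h => hne (by rw [h, map_zero])
    rw [hP1, map_mul] at hne
    exact hl g w v (right_ne_zero_of_mul hne)

end Val

/-- Theorem CC, `K₁`. -/
theorem kk (hM : S_M2K) (hE : S_E) (hbc : S_bc) (hhom : S_hom) (hfl : S_fl) (hsf : S_sfc)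
    (he0 : S_end0) (he1 : S_end1) (hemb : S_emb) : S_kk := by
  intro V Γ _ _ X b N hG hN hS hv hF hl L _ _ hL K _ κ hκ n _ _ A hA
  -- stabilizers
  have hst : ∀ (v : V) (F : Set (Set V)), F ⊆ X.D b v → F.Nonempty → ∀ H : Subgroup Γ,
      (∀ g ∈ H, g • F = F) → KS H := fun v F h1 h2 H h3 =>
    kkc_le (hF v F h1 h2) fun g hg => h3 g hg
  have hlb : X.lab b b = ∅ := Med.lab_self b
  have hsfc0 : ∀ v F, F ⊆ X.D b v → F.Nonempty → ∀ H : Subgroup Γ, (∀ g ∈ H, g • F = F) →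
      (∀ g ∈ H, g • v = v) → KS H := fun v F h1 h2 H h3 _ => hst v F h1 h2 H h3
  have hsfc1 : ∀ v F, F ⊆ X.D b v → F.Nonempty → ∀ H : Subgroup Γ, (∀ g ∈ H, g • F = F) →
      (∀ g ∈ H, g • X.lab b v = X.lab b v) → KS H := fun v F h1 h2 H h3 _ => hst v F h1 h2 H h3
  have hsfc : ∀ v F, F ⊆ X.D b v → F.Nonempty → ∀ H : Subgroup Γ, (∀ g ∈ H, g • F = F) →
      (∀ g ∈ H, g • () = ()) → KS H := fun v F h1 h2 H h3 _ => hst v F h1 h2 H h3
  -- the lifting hypotheses
  have l0 := (hE _ _ _ _ (cubeSys X b fun v : V => v)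
    (hsf V V Γ X b (fun v => v) hsfc0) L hL).1
  have l1 := (hE _ _ _ _ (cubeSys X b fun v : V => X.lab b v)
    (hsf V (Set (Set V)) Γ X b (fun v => X.lab b v) hsfc1) L hL).1
  have l2 := (hE _ _ _ _ (SX X b) (hsf V Unit Γ X b (fun _ => ()) hsfc) L hL).2
  -- the invariant
  obtain ⟨κU, hU, hSp⟩ := hM _ _ _ _ L K (SX X b) N κ hκ hL (card_A X b hN _)
    fun y F h1 h2 H h3 _ => by
      refine hst y.1.1 (F : Set (Set V)) (fun a ha => ?_) (Finset.coe_nonempty.2 h1) H
        fun g hg => ?_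
      · exact (F_zero X b _ y a).1 (h2 ha)
      · rw [← Finset.coe_smul_finset, h3 g hg]
  obtain ⟨Φ, hΦ⟩ := exists_isPhi (L := L) X b hG
  obtain ⟨P, hP1, hP2⟩ := hemb V Γ L X b Φ hG hΦ
  obtain ⟨F0, hF0⟩ := hbc _ _ _ Γ L[X] L (SX X b) (Polynomial.evalRingHom 0)
  obtain ⟨F1, hF1⟩ := hbc _ _ _ Γ L[X] L (SX X b) (Polynomial.evalRingHom 1)
  obtain ⟨i0, hi0, -, -⟩ := hfl V V Γ L X b fun v => v
  obtain ⟨i1, hi1, -, -⟩ := hfl V (Set (Set V)) Γ L X b fun v => X.lab b v
  obtain ⟨A', hA1, hA2⟩ := isUnit_iff_exists.1 hA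
  have z1 := kkc_ex_inv P hA1
  have z2 := kkc_ex_inv P hA2
  have hmap : ∀ (F : U Γ L[X] (SX X b) →+* U Γ L (SX X b))
      (a c : Matrix n n (U Γ L[X] (SX X b))), a * c = 1 → a.map F * c.map F = 1 := by
    intro F a c hac
    rw [← Matrix.map_mul, hac, Matrix.map_one _ (map_zero F) (map_one F)]
  have hz : IsUnit (Ex P A) := isUnit_iff_exists.2 ⟨_, z1, z2⟩
  have e01 := hhom _ _ _ _ L K (SX X b) N κ κU F0 F1 hS hL (card_A X b hN _) l2 hU hSp hF0 hF1 n
    (Ex P A) hz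
  -- `t = 0`
  have lb0 : ∀ (a : Matrix n n (MonoidAlgebra L Γ)) (p q : n),
      Lab (cubeSys X b fun v : V => v) ((Ex P a).map F0 p q).1 :=
    kkc_lab hP1 hP2 0 F0 hF0 (fun v => v) hΦ.zero
  obtain ⟨w0, hw0, hw0', -⟩ := kkc_lift (fun v : V => v) i0 hi0 _ _ (hmap F0 _ _ z1)
    (hmap F0 _ _ z2) (lb0 A) (lb0 A')
  have e0 := he0 V V Γ L K X b N (fun v => v) κ κU i0 hN hL hκ hU hSp hi0 l0
    (fun v => (kkc_top (hv v)).1) n w0 hw0
  -- `t = 1`
  have lb1 : ∀ (a : Matrix n n (MonoidAlgebra L Γ)) (p q : n),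
      Lab (cubeSys X b fun v : V => X.lab b v) ((Ex P a).map F1 p q).1 :=
    kkc_lab hP1 hP2 1 F1 hF1 (fun v => X.lab b v) hΦ.eval1
  obtain ⟨w1, hw1, hw1', hw1''⟩ := kkc_lift (fun v : V => X.lab b v) i1 hi1 _ _
    (hmap F1 _ _ z1) (hmap F1 _ _ z2) (lb1 A) (lb1 A')
  have e1 := he1 V (Set (Set V)) Γ L K X b N (fun v => X.lab b v) κ κU i1 hN hL hκ hU hSp hi1 l1
    (fun g => by rw [hlb, Set.smul_set_empty])
    (fun v hvb h => hvb (Med.eq_of_lab_empty (h.trans hlb)))
    (fun v hvb => (kkc_top (hl v hvb)).1) n w1 hw1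
  have e2 : (Matrix.of fun p q => ent (w1 p q).1 (rea X b b) (rea X b b)) = A := by
    refine Matrix.ext fun p q => MonoidAlgebra.ext (Finsupp.ext fun g => ?_)
    change cf (w1 p q).1 g (rea X b b) (rea X b b) = _
    rw [hw1'', kkc_val]
    change cf (((1 : Matrix n n (U Γ L (SX X b))) p q).1 + (F1 (P ((A - 1) p q))).1) g _ _ = _
    rw [cf_add, hF1, hP1, map_mul, Polynomial.coe_evalRingHom, Polynomial.eval_C, hΦ.root1,
      mul_one, Matrix.sub_apply, MonoidAlgebra.coeff_sub, Finsupp.sub_apply]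
    have e3 : cf ((1 : Matrix n n (U Γ L (SX X b))) p q).1 g (rea X b b) (rea X b b) =
        ((1 : Matrix n n (MonoidAlgebra L Γ)) p q).coeff g := by
      by_cases hpq : p = q
      · rw [Matrix.one_apply, if_pos hpq, Matrix.one_apply, if_pos hpq]
        change (ent (1 : RCF (YX X b) (MonoidAlgebra L Γ)) _ _).coeff g = _
        rw [ent_one, if_pos rfl]
      · rw [Matrix.one_apply, if_neg hpq, Matrix.one_apply, if_neg hpq]
        rfl
    rw [e3]
    ring
  rw [hw0', e01, ← hw1', e1, e2] at e0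
  exact e0

end Pool.Agent.CC
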