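import Pool.Agent.Lib.MP_8f66f0_al_CC.End.Spec
import Pool.Agent.Lib.MP_8f66f0_al_CC.Sys.Ladder

/-!
# Theorem CC: the ladder and the local units
-/

set_option autoImplicit false

namespace Pool.Agent.CC

theorem lad : S_lad := by
  intro O Y C Γ k _ _ _ _ _ S f hf
  obtain ⟨f, rfl⟩ : ∃ f', f = f' + 1 := ⟨f - 1, by omega⟩
  exact ⟨lad_der S f, lu_J S f, lu_J S (f + 1)⟩

end Pool.Agent.CC
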