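import Pool.Agent.Lib.MP_8f66f0_al_CC.End.M1
import Pool.Agent.Lib.MP_8f66f0_al_CC.End.Ext1

/-!
# Theorem CC: extension (M2)
-/

set_option autoImplicit false

namespace Pool.Agent.CC

open Pool.Agent.Wald Pool.Agent.TQ Pool.Agent.Ind Pool.Agent.WaldL Pool.Agent.FH Matrix
open scoped Pointwise Polynomial

theorem eps_lowM {O Y C Γ k : Type} [DecidableEq O] [Group Γ] [MulAction Γ O] [MulAction Γ C]
    [CommRing k] (S : Sys O Y C) (f : ℕ) (h : O →₀ ℕ) (j : ℕ) (x : U Γ k (S.der f h))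
    (hx : x ∈ J Γ k (S.der f h) j) : eps Γ k S f h x ∈ J Γ k S j := by
  obtain ⟨h1, H⟩ := hx
  refine ⟨h + h1, fun g y' y hc => ?_⟩
  obtain ⟨y', y, rfl, rfl, hd⟩ := cf_push_ne _ hc
  have h2 := H g y' y hd
  rw [F_der, F_der] at h2
  exact h2

theorem cg_eps_low {O Y C Γ k : Type} [DecidableEq O] [Group Γ] [MulAction Γ O] [MulAction Γ C]
    [CommRing k] (S : Sys O Y C) (f : ℕ) (h : O →₀ ℕ) (j : ℕ) {n : Type} [DecidableEq n]
    (z : Matrix n n (U Γ k (S.der f h))) (hz : Cg (J Γ k (S.der f h) j) z 1) :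
    Cg (J Γ k S j) (Ex (eps Γ k S f h) z) 1 := by
  intro a b
  rw [Ex, Matrix.add_apply, add_sub_cancel_left]
  exact eps_lowM S f h j _ (hz a b)

/-- `triv` of `S_ext` at `f ≥ 2`. -/
theorem trivf (hL : S_lad) (hm : S_M1) (hP : S_pull) (hE : S_spe) : S_trivf := by
  intro O Y C Γ k K _ _ _ _ _ _ _ S f hf hD κ0 κ hI hκ hM h n _ _ r hr hJ
  obtain ⟨hlad, _, _⟩ := hL O Y C Γ k S f (le_trans one_le_two hf)
  obtain ⟨κ', hκ'⟩ := hP (U Γ k S) (U Γ k (S.der f h)) K (J Γ k S (f - 1))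
    (J Γ k (S.der f h) (f - 1)) (eps Γ k S f h) (fun x hx => (hlad.pre h x).2 hx) κ
  rw [← hκ']
  refine hm O _ _ Γ k (S.der f h) (hD h) (f - 1) K κ' (fun n _ _ z hz hc => ?_)
    (fun _ n _ _ w hw => ?_) n r hr hJ
  · rw [hκ', hκ n _ (XE.ex_unit _ hz) (cg_eps_low S f h 0 z hc)]
    exact hI.1 f h (le_trans one_le_two hf) n z hz hc
  · rw [hκ']
    exact hM n _ (hE O Y C Γ k S f h n w hw)

/-- M2: the extension theorem. -/
theorem M2 (hE : S_ext) (hL : S_lad) (hF : S_flq) (h1 : S_gen1) (hf : S_genf) (hS : S_spc)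
    (ht1 : S_triv1) (htf : S_trivf) : S_M2 := by
  intro O Y C Γ k K _ _ _ _ _ _ _ S hD hD' κ0 hI f
  induction f with
  | zero => exact ⟨κ0, fun n _ _ z _ _ => rfl, fun h => absurd h (Nat.not_succ_le_zero 0)⟩
  | succ f ih =>
    obtain ⟨κ, hκ, hM⟩ := ih
    obtain ⟨hlad, hLU, _⟩ := hL O Y C Γ k S (f + 1) (Nat.succ_le_succ (Nat.zero_le f))
    rcases Nat.eq_zero_or_pos f with rfl | hf0
    · obtain ⟨κ', h2, h3⟩ := hE (U Γ k S) (J Γ k S 0) (J Γ k S 1) (O →₀ ℕ)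
        (fun h => U Γ k (S.der 1 h)) (fun h => J Γ k (S.der 1 h) 0) (fun h => eps Γ k S 1 h)
        (fun n _ _ w => Sp S n w) hlad (hS O Y C Γ k S) (h1 O Y C Γ k S hD.1)
        (fun h => hF O _ _ Γ k (S.der 1 h) 1 le_rfl (der_exact S 1 h Γ)) hLU K κ0
        fun h n m _ _ _ _ w r x => ht1 O Y C Γ k K S κ0 hI h n m w r x
      exact ⟨κ', h2, fun _ => h3⟩
    · obtain ⟨κ', h2, h3⟩ := hE (U Γ k S) (J Γ k S f) (J Γ k S (f + 1)) (O →₀ ℕ)
        (fun h => U Γ k (S.der (f + 1) h)) (fun h => J Γ k (S.der (f + 1) h) f)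
        (fun h => eps Γ k S (f + 1) h) (fun n _ _ w => w = 1) hlad (spc_one _)
        (hf O Y C Γ k S (f + 1) (Nat.succ_le_succ hf0) fun h =>
          hD.2 (f + 1) h (Nat.succ_le_succ hf0))
        (fun h => hF O _ _ Γ k (S.der (f + 1) h) (f + 1) (Nat.succ_le_succ (Nat.zero_le f))
          (der_exact S (f + 1) h Γ)) hLU K κ fun h n m _ _ _ _ w r x hw hr hx hc he => by
        subst hw
        rw [fromBlocks_one] at he
        obtain ⟨r', hr1, hr2⟩ := XE.ex_inv hr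
        have hx' : x = Ex (eps Γ k S (f + 1) h) r' := by
          have h4 : Ex (eps Γ k S (f + 1) h) r' * (Ex (eps Γ k S (f + 1) h) r * x) = x := by
            rw [← Matrix.mul_assoc, XE.ex_inv_mul _ hr2, Matrix.one_mul]
          rw [← he, Matrix.mul_one] at h4
          exact h4.symm
        rw [hx'] at hc ⊢
        refine htf O Y C Γ k K S (f + 1) (Nat.succ_le_succ hf0)
          (fun h => hD' (f + 1) h (Nat.succ_le_succ hf0)) κ0 κ hI hκ (hM hf0) h (n ⊕ m) r'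
          (XE.isUnit_of hr2 hr1) fun i j => ?_
        have h5 := hc i j
        rw [Ex, Matrix.add_apply, add_sub_cancel_left] at h5
        exact (hlad.pre h _).1 h5
      refine ⟨κ', fun n _ _ z hz hc => ?_, fun _ n _ _ w hw => ?_⟩
      · rw [h2 n z hz fun i j => J_mono S (Nat.zero_le f) (hc i j), hκ n z hz hc]
      · obtain ⟨hu, hc⟩ := (hS O Y C Γ k S).unit n w hw
        rw [h2 n w hu fun i j => J_mono S hf0 (hc i j)]
        exact hM hf0 n w hw

end Pool.Agent.CC
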