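import Pool.Agent.Lib.MP_8f66f0_al_CC.End.FinSpec
import Pool.Agent.Lib.MP_8f66f0_al_CC.SFt

/-!
# Theorem CC: the theorems M1 and M2 for `K1Fun`s
-/

set_option autoImplicit false

namespace Pool.Agent.CC

open Pool.Agent.Wald Pool.Agent.TQ Pool.Agent.Ind Pool.Agent.WaldL Pool.Agent.FH Pool.Agent.Hier
  Pool.Agent.TreeC Matrix
open scoped Pointwise Polynomial

section

variable {O Y C Γ k : Type} [DecidableEq O] [Group Γ] [MulAction Γ O] [MulAction Γ C] [CommRing k]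

private theorem mk_top (S : Sys O Y C) {N f : ℕ} (hN : ∀ y, (S.A y).card ≤ N) (hf : N ≤ f)
    (z : U Γ k S) : z ∈ J Γ k S f := by
  have h : ∀ y, (S.F 0 y).card ≤ f := fun y => by
    rw [S.card_F]
    exact (Finset.card_filter_le _ _).trans ((hN y).trans hf)
  exact ⟨0, fun g y' y _ => ⟨h y', h y⟩⟩

/-- A `K1Fun` as a relative invariant. -/
private def krOf {R K : Type} [Ring R] [CommGroup K] (I : Ideal R) (κ : K1Fun R K) : KR R I K where
  f := fun z => κ.f z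
  mul := fun A B hA hB _ _ => κ.mul A B hA hB
  reindex := fun e A hA _ => κ.reindex e A hA
  tri := fun A B D hA hD _ _ _ => κ.tri A B D hA hD

/-- A relative invariant for the unit ideal as a `K1Fun`. -/
private def k1Of {R K : Type} [Ring R] [CommGroup K] (I : Ideal R) (hI : ∀ x, x ∈ I)
    (κ : KR R I K) : K1Fun R K where
  f := fun z => κ.f z
  mul := fun A B hA hB => κ.mul A B hA hB (fun _ _ => hI _) fun _ _ => hI _
  reindex := fun e A hA => κ.reindex e A hA fun _ _ => hI _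
  tri := fun A B D hA hD => κ.tri A B D hA hD (fun _ _ => hI _) (fun _ _ => hI _) fun _ _ => hI _

private theorem mk_cf {z : RCF Y (MonoidAlgebra k Γ)} {g : Γ} {y x : Y} (h : cf z g y x ≠ 0) :
    ent z y x ≠ 0 := fun h0 => h (by
  show (ent z y x).coeff g = 0
  rw [h0]
  rfl)

private theorem mk_cg (S : Sys O Y C) {n : Type} [DecidableEq n] (z : Matrix n n (U Γ k S))
    (s : Finset Y) (hz : Spp s (rcf z)) : Cg (J Γ k S 0) z 1 := by
  obtain ⟨h, hh⟩ := Sys.exists_height (s.biUnion fun y => S.A y)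
  have key : ∀ y ∈ s, (S.F h y).card ≤ 0 := by
    intro y hy
    rw [Nat.le_zero, Finset.card_eq_zero, Finset.eq_empty_iff_forall_notMem]
    intro o ho
    obtain ⟨n, h1, h2⟩ := S.mem_F.1 ho
    have h3 : n < h o := Sys.mem_low.1 (hh (Finset.mem_biUnion.2 ⟨y, hy, h1⟩))
    omega
  intro i j
  refine ⟨h, fun g y' y hc => ?_⟩
  have h1 : ent ((rcf z) i j - (1 : Matrix n n (RCF Y (MonoidAlgebra k Γ))) i j) y' y ≠ 0 := by
    refine mk_cf (g := g) ?_
    have h2 : (z i j - (1 : Matrix n n (U Γ k S)) i j).1 =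
        (rcf z) i j - (1 : Matrix n n (RCF Y (MonoidAlgebra k Γ))) i j := by
      rw [Matrix.one_apply, Matrix.one_apply]
      split_ifs <;> rfl
    rwa [h2] at hc
  exact ⟨key y' (hz i j y' y h1).2, key y (hz i j y' y h1).1⟩

end

/-- M1 for `K1Fun`s. -/
theorem M1K (hM1 : S_M1) : S_M1K := by
  intro O Y C Γ k _ _ _ _ _ _ S N hN hL K _ κ h0 h1 n _ _ z hz
  exact hM1 O Y C Γ k S hL N K (krOf (J Γ k S N) κ) h0 (fun _ => h1) n z hz
    fun _ _ => mk_top S hN le_rfl _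

/-- M2 for `K1Fun`s. -/
theorem M2K (hM2 : S_M2) (hini : S_ini) (hE : S_E) : S_M2K := by
  classical
  intro O Y C Γ L K _ _ _ _ _ _ _ S N κ hκ hL hN hKS
  have hSF : ∀ (L : Type) [CommRing L] [IsDomain L], IsEuc L → SF Γ L S ∧ SF Γ L[X] S :=
    fun L _ _ hL => ⟨fun y F hF hFy H h1 h2 => psf_const hL (hKS y F hF hFy H h1 h2),
      fun y F hF hFy H h1 h2 => psf_poly hL (hKS y F hF hFy H h1 h2)⟩
  obtain ⟨κ0, hκ0, hκ1⟩ := hini O Y C Γ L K S κ hκ hL
    fun y F hF hFy H h1 h2 => (hKS y F hF hFy H h1 h2).1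
  obtain ⟨κ', hκ', hsp⟩ := hM2 O Y C Γ L K S (hE O Y C Γ S hSF L hL).1
    (fun f h _ => (hE O _ (Finset O × C) Γ (S.der f h) (fun L _ _ hL =>
      ⟨der_SF S f h (hSF L hL).1, der_SF S f h (hSF L hL).2⟩) L hL).1) κ0 hκ0 (N + 1)
  refine ⟨k1Of _ (mk_top S hN (Nat.le_succ N)) κ', ?_, hsp (Nat.succ_pos N)⟩
  intro n _ _ z s hz hs
  exact (hκ' n z hz (mk_cg S z s hs)).trans (hκ1 n z s hz hs)

end Pool.Agent.CC
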