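import Pool.Agent.Lib.MP_8f66f0_al_CC.End.Ray

/-!
# Theorem CC: monomial matrices
-/

set_option autoImplicit false

namespace Pool.Agent.CC

open Pool.Agent.Wald Pool.Agent.TQ Pool.Agent.Ind Pool.Agent.WaldL Pool.Agent.FH Matrix

section

variable {Y k Γ : Type} [CommRing k] [Group Γ] {m n : Type}

/-- The entries of a monomial matrix. -/
def MonP (σ : Equiv.Perm (m × Y)) (g : m × Y → Γ) (z : Matrix m m (RCF Y (MonoidAlgebra k Γ))) :
    Prop :=
  ∀ i j y' y, (σ (j, y) = (i, y') → ent (z i j) y' y = MonoidAlgebra.single (g (j, y)) 1) ∧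
    (σ (j, y) ≠ (i, y') → ent (z i j) y' y = 0)

theorem mon_iff {z : Matrix m m (RCF Y (MonoidAlgebra k Γ))} :
    Mon z ↔ ∃ (σ : Equiv.Perm (m × Y)) (g : m × Y → Γ), MonP σ g z := by
  classical
  constructor
  · rintro ⟨σ, g, h⟩
    refine ⟨σ, g, fun i j y' y => ⟨fun e => ?_, fun e => ?_⟩⟩
    · refine MonoidAlgebra.ext (Finsupp.ext fun x => ?_)
      change cf (z i j) x y' y = _
      rw [MonoidAlgebra.coeff_single, Finsupp.single_apply]
      by_cases hx : g (j, y) = x
      · rw [if_pos hx, (h i j y' y x).1 ⟨e, hx.symm⟩]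
      · rw [if_neg hx, (h i j y' y x).2 fun h' => hx h'.2.symm]
    · refine MonoidAlgebra.ext (Finsupp.ext fun x => ?_)
      change cf (z i j) x y' y = _
      rw [MonoidAlgebra.coeff_zero, (h i j y' y x).2 fun h' => e h'.1]
      rfl
  · rintro ⟨σ, g, h⟩
    refine ⟨σ, g, fun i j y' y x => ⟨fun e => ?_, fun e => ?_⟩⟩
    · rw [cf, (h i j y' y).1 e.1, MonoidAlgebra.coeff_single, Finsupp.single_apply, if_pos e.2.symm]
    · by_cases h' : σ (j, y) = (i, y')
      · rw [cf, (h i j y' y).1 h', MonoidAlgebra.coeff_single, Finsupp.single_apply,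
          if_neg fun hx => e ⟨h', hx.symm⟩]
      · rw [cf, (h i j y' y).2 h', MonoidAlgebra.coeff_zero]
        rfl

private theorem mon_sum {A ι : Type} [Ring A] (t : Finset ι) (S : ι → RCF Y A) (y x : Y) :
    ent (∑ i ∈ t, S i) y x = ∑ i ∈ t, ent (S i) y x := by
  classical
  induction t using Finset.induction_on with
  | empty => rw [Finset.sum_empty, Finset.sum_empty, ent_zero]
  | insert a t ha ih => rw [Finset.sum_insert ha, Finset.sum_insert ha, ent_add, ih]

/-- The product with a monomial matrix on the right. -/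
theorem MonP.ent_mul [Fintype m] {τ : Equiv.Perm (m × Y)} {h : m × Y → Γ}
    {w : Matrix m m (RCF Y (MonoidAlgebra k Γ))} (hw : MonP τ h w)
    (z : Matrix n m (RCF Y (MonoidAlgebra k Γ))) (i : n) (j : m) (y' y : Y) :
    ent ((z * w) i j) y' y = ent (z i (τ (j, y)).1) y' (τ (j, y)).2 *
      MonoidAlgebra.single (h (j, y)) 1 := by
  classical
  rw [mul_apply, mon_sum, Finset.sum_eq_single (τ (j, y)).1]
  · rw [ent_mul_col _ _ _ _ {(τ (j, y)).2}, Finset.sum_singleton,
      (hw (τ (j, y)).1 j (τ (j, y)).2 y).1 rfl]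
    intro v hv
    rw [Finset.mem_singleton]
    by_contra h'
    exact hv ((hw (τ (j, y)).1 j v y).2 fun e => h' (congrArg Prod.snd e).symm)
  · intro l _ hl
    rw [ent_mul_col _ _ _ _ ∅, Finset.sum_empty]
    intro v hv
    exact absurd ((hw l j v y).2 fun e => hl (congrArg Prod.fst e).symm) hv
  · intro h'
    exact absurd (Finset.mem_univ _) h'

theorem monP_one [DecidableEq m] :
    MonP (Equiv.refl _) (fun _ => 1) (1 : Matrix m m (RCF Y (MonoidAlgebra k Γ))) := by
  classical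
  intro i j y' y
  constructor
  · intro e
    rw [Equiv.refl_apply, Prod.mk.injEq] at e
    rw [e.1, e.2, one_apply_eq, ent_one, if_pos rfl, MonoidAlgebra.one_def]
  · intro e
    by_cases hij : i = j
    · subst hij
      rw [one_apply_eq, ent_one, if_neg]
      intro hy
      exact e (by rw [hy]; rfl)
    · rw [one_apply_ne hij, ent_zero]

theorem MonP.mul [Fintype m] {σ τ : Equiv.Perm (m × Y)} {g h : m × Y → Γ}
    {z w : Matrix m m (RCF Y (MonoidAlgebra k Γ))} (hz : MonP σ g z) (hw : MonP τ h w) :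
    MonP (τ.trans σ) (fun p => g (τ p) * h p) (z * w) := by
  intro i j y' y
  rw [hw.ent_mul]
  constructor
  · intro e
    rw [(hz i (τ (j, y)).1 y' (τ (j, y)).2).1 e, MonoidAlgebra.single_mul_single, mul_one]
  · intro e
    rw [(hz i (τ (j, y)).1 y' (τ (j, y)).2).2 e, zero_mul]

theorem MonP.inv [Fintype m] [DecidableEq m] {σ : Equiv.Perm (m × Y)} {g : m × Y → Γ}
    {z w : Matrix m m (RCF Y (MonoidAlgebra k Γ))} (hz : MonP σ g z) (h1 : w * z = 1) :
    MonP σ.symm (fun p => (g (σ.symm p))⁻¹) w := by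
  have key : ∀ i l y' v, ent (w i l) y' v =
      ent ((1 : Matrix m m (RCF Y (MonoidAlgebra k Γ))) i (σ.symm (l, v)).1) y' (σ.symm (l, v)).2 *
        MonoidAlgebra.single ((g (σ.symm (l, v)))⁻¹) 1 := by
    intro i l y' v
    have h2 := hz.ent_mul w i (σ.symm (l, v)).1 y' (σ.symm (l, v)).2
    rw [h1, Prod.mk.eta, Equiv.apply_symm_apply] at h2
    rw [h2, mul_assoc, MonoidAlgebra.single_mul_single, mul_inv_cancel, mul_one,
      ← MonoidAlgebra.one_def, mul_one]
  intro i j y' y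
  constructor
  · intro e
    rw [key, ((monP_one (k := k) (Γ := Γ)) i _ y' _).1 (by rw [e]; rfl),
      MonoidAlgebra.single_mul_single, one_mul, one_mul]
  · intro e
    rw [key, ((monP_one (k := k) (Γ := Γ)) i _ y' _).2 (by
      rw [Equiv.refl_apply, Prod.mk.eta]
      exact e), zero_mul]

theorem MonP.sum {σ : Equiv.Perm (m × Y)} {g : m × Y → Γ} {τ : Equiv.Perm (n × Y)}
    {h : n × Y → Γ} {z : Matrix m m (RCF Y (MonoidAlgebra k Γ))}
    {w : Matrix n n (RCF Y (MonoidAlgebra k Γ))} (hz : MonP σ g z) (hw : MonP τ h w) :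
    MonP ((Equiv.sumProdDistrib m n Y).trans ((Equiv.sumCongr σ τ).trans
      (Equiv.sumProdDistrib m n Y).symm))
      (fun p => Sum.elim g h (Equiv.sumProdDistrib m n Y p)) (fromBlocks z 0 0 w) := by
  rintro (i | i) (j | j) y' y
  · constructor
    · intro e
      refine (hz i j y' y).1 ?_
      have e1 := congrArg (Equiv.sumProdDistrib m n Y) e
      rw [Equiv.trans_apply, Equiv.trans_apply, Equiv.apply_symm_apply] at e1
      exact Sum.inl_injective e1
    · intro e
      refine (hz i j y' y).2 fun e1 => e ?_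
      rw [Equiv.trans_apply, Equiv.trans_apply, Equiv.symm_apply_eq]
      exact congrArg Sum.inl e1
  · constructor
    · intro e
      have e1 := congrArg (Equiv.sumProdDistrib m n Y) e
      rw [Equiv.trans_apply, Equiv.trans_apply, Equiv.apply_symm_apply] at e1
      exact absurd e1 Sum.inr_ne_inl
    · intro _
      exact ent_zero _ _
  · constructor
    · intro e
      have e1 := congrArg (Equiv.sumProdDistrib m n Y) e
      rw [Equiv.trans_apply, Equiv.trans_apply, Equiv.apply_symm_apply] at e1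
      exact absurd e1 Sum.inl_ne_inr
    · intro _
      exact ent_zero _ _
  · constructor
    · intro e
      refine (hw i j y' y).1 ?_
      have e1 := congrArg (Equiv.sumProdDistrib m n Y) e
      rw [Equiv.trans_apply, Equiv.trans_apply, Equiv.apply_symm_apply] at e1
      exact Sum.inr_injective e1
    · intro e
      refine (hw i j y' y).2 fun e1 => e ?_
      rw [Equiv.trans_apply, Equiv.trans_apply, Equiv.symm_apply_eq]
      exact congrArg Sum.inr e1

theorem MonP.reindex {σ : Equiv.Perm (m × Y)} {g : m × Y → Γ}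
    {z : Matrix m m (RCF Y (MonoidAlgebra k Γ))} (hz : MonP σ g z) (e : m ≃ n) :
    MonP ((e.symm.prodCongr (Equiv.refl Y)).trans (σ.trans (e.prodCongr (Equiv.refl Y))))
      (fun p => g (e.symm p.1, p.2)) (z.submatrix e.symm e.symm) := by
  intro i j y' y
  have key : ((e.symm.prodCongr (Equiv.refl Y)).trans (σ.trans (e.prodCongr (Equiv.refl Y))))
      (j, y) = (i, y') ↔ σ (e.symm j, y) = (e.symm i, y') := by
    change (e (σ (e.symm j, y)).1, (σ (e.symm j, y)).2) = (i, y') ↔ _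
    rw [Prod.ext_iff, Prod.ext_iff, Equiv.eq_symm_apply]
  exact ⟨fun h => (hz _ _ y' y).1 (key.1 h), fun h => (hz _ _ y' y).2 fun h' => h (key.2 h')⟩

end

/-- Products, inverses and sums of monomial matrices. -/
theorem monc : S_monc := by
  intro Y k Γ _ _ _
  refine ⟨fun m _ _ => mon_iff.2 ⟨_, _, monP_one⟩, fun m _ _ z w hz hw => ?_,
    fun m _ _ z w hz _ h => ?_, fun m n _ _ _ _ z w hz hw => ?_, fun m n _ _ _ _ e z hz => ?_⟩
  · obtain ⟨σ, g, h1⟩ := mon_iff.1 hz
    obtain ⟨τ, h, h2⟩ := mon_iff.1 hw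
    exact mon_iff.2 ⟨_, _, h1.mul h2⟩
  · obtain ⟨σ, g, h1⟩ := mon_iff.1 hz
    exact mon_iff.2 ⟨_, _, h1.inv h⟩
  · obtain ⟨σ, g, h1⟩ := mon_iff.1 hz
    obtain ⟨τ, h, h2⟩ := mon_iff.1 hw
    exact mon_iff.2 ⟨_, _, h1.sum h2⟩
  · obtain ⟨σ, g, h1⟩ := mon_iff.1 hz
    exact mon_iff.2 ⟨_, _, h1.reindex e⟩

/-- Finite monomial matrices are killed. -/
theorem mon0 : S_mon0 := by
  intro Y L Γ K _ _ _ _ κ hκ m _ _ _ s z hz hs
  obtain ⟨σ, g, h⟩ := mon_iff.1 hz
  have h0 : ∀ j y, y ∉ s → σ (j, y) = (j, y) := by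
    intro j y hy
    have h1 : ent (z (σ (j, y)).1 j - (1 : Matrix m m (RCF Y (MonoidAlgebra L Γ))) (σ (j, y)).1 j)
        (σ (j, y)).2 y = 0 := by
      by_contra h'
      exact hy (hs _ _ _ _ h').1
    rw [ent_sub, sub_eq_zero, (h (σ (j, y)).1 j (σ (j, y)).2 y).1 rfl] at h1
    by_contra h'
    rw [(monP_one (k := L) (Γ := Γ) (σ (j, y)).1 j (σ (j, y)).2 y).2 fun e => h' e.symm] at h1
    have h2 := congrArg (fun f : MonoidAlgebra L Γ => f.coeff (g (j, y))) h1
    simp only [MonoidAlgebra.coeff_single, MonoidAlgebra.coeff_zero, Finsupp.single_eq_same] at h2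
    exact one_ne_zero h2
  have h1 : ∀ p : m × s, (σ (p.1, p.2)).2 ∈ s := by
    intro p
    by_contra h'
    have h2 := h0 (σ (p.1, p.2)).1 (σ (p.1, p.2)).2 h'
    rw [Prod.mk.eta] at h2
    have h3 := σ.injective h2
    rw [h3] at h'
    exact h' p.2.2
  have h2 : ∀ p : m × s, (σ.symm (p.1, p.2)).2 ∈ s := by
    intro p
    by_contra h'
    have h2 := h0 (σ.symm (p.1, p.2)).1 (σ.symm (p.1, p.2)).2 h'
    rw [Prod.mk.eta, Equiv.apply_symm_apply] at h2
    rw [← h2] at h'
    exact h' p.2.2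
  let τ : Equiv.Perm (m × s) :=
    { toFun := fun p => ((σ (p.1, p.2)).1, ⟨(σ (p.1, p.2)).2, h1 p⟩)
      invFun := fun p => ((σ.symm (p.1, p.2)).1, ⟨(σ.symm (p.1, p.2)).2, h2 p⟩)
      left_inv := fun p => by
        change ((σ.symm (σ (p.1, p.2))).1, (⟨(σ.symm (σ (p.1, p.2))).2, _⟩ : s)) = p
        refine Prod.ext ?_ (Subtype.ext ?_)
        · change (σ.symm (σ (p.1, p.2))).1 = p.1
          rw [Equiv.symm_apply_apply]
        · change (σ.symm (σ (p.1, p.2))).2 = p.2
          rw [Equiv.symm_apply_apply]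
      right_inv := fun p => by
        change ((σ (σ.symm (p.1, p.2))).1, (⟨(σ (σ.symm (p.1, p.2))).2, _⟩ : s)) = p
        refine Prod.ext ?_ (Subtype.ext ?_)
        · change (σ (σ.symm (p.1, p.2))).1 = p.1
          rw [Equiv.apply_symm_apply]
        · change (σ (σ.symm (p.1, p.2))).2 = p.2
          rw [Equiv.apply_symm_apply] }
  have e : blk s z = (1 : Matrix (m × s) (m × s) (MonoidAlgebra L Γ)).submatrix τ.symm id *
      diagonal fun p => MonoidAlgebra.single (g (p.1, p.2)) (((1 : Lˣ) : Lˣ) : L) := by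
    refine Matrix.ext fun p q => ?_
    rw [mul_diagonal, submatrix_apply, id, one_apply]
    change ent (z p.1 q.1) p.2 q.2 = _
    have key : τ.symm p = q ↔ σ (q.1, q.2) = (p.1, (p.2 : Y)) := by
      rw [Equiv.symm_apply_eq, Prod.ext_iff, Prod.ext_iff, Subtype.ext_iff]
      constructor
      · exact fun h => ⟨h.1.symm, h.2.symm⟩
      · exact fun h => ⟨h.1.symm, h.2.symm⟩
    by_cases hpq : τ.symm p = q
    · rw [if_pos hpq, one_mul, (h p.1 q.1 p.2 q.2).1 (key.1 hpq), Units.val_one]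
    · rw [if_neg hpq, zero_mul, (h p.1 q.1 p.2 q.2).2 fun h' => hpq (key.2 h')]
  have h3 := f_diag hκ (fun p : m × s => g (p.1, p.2)) (fun _ => (1 : Lˣ))
  rw [e, κ.mul _ _ (isUnit_perm _) h3.2, h3.1, mul_one]
  exact kperm_of_ku hκ (n := m × s) τ.symm

end Pool.Agent.CC
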