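import Pool.Agent.Lib.MP_8f66f0_al_CC.End.FinSpec
import Pool.Agent.Lib.MP_8f66f0_al_CC.SFt

/-!
# Theorem CC: the hypothesis `SF` for the systems of a cube complex (`S_sfc`)
-/

set_option autoImplicit false

namespace Pool.Agent.CC

open Pool.Agent.Ind Pool.Agent.WaldL Pool.Agent.TreeC
open scoped Pointwise Polynomial Classical

theorem sfc : S_sfc := by
  intro V C Γ _ _ _ X b lab hS L _ _ hL
  have key : ∀ (y : YX X b) (F : Finset (Set V)), F.Nonempty →
      F ⊆ (cubeSys X b lab).F 0 y → ∀ H : Subgroup Γ, (∀ g ∈ H, g • F = F) →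
      (∀ g ∈ H, g • (cubeSys X b lab).lab y = (cubeSys X b lab).lab y) → KS H := by
    intro y F hF hFy H h1 h2
    refine hS y.1.1 (F : Set (Set V)) (fun a ha => (F_zero X b lab y a).1 (hFy ha))
      (Finset.coe_nonempty.2 hF) H (fun g hg => ?_) h2
    rw [← Finset.coe_smul_finset, h1 g hg]
  exact ⟨fun y F hF hFy H h1 h2 => psf_const hL (key y F hF hFy H h1 h2),
    fun y F hF hFy H h1 h2 => psf_poly hL (key y F hF hFy H h1 h2)⟩

end Pool.Agent.CC
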