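import Pool.Agent.Lib.MP_8f66f0_al_CC.End.Ray

/-!
# The shifts of a ray
-/

set_option autoImplicit false

namespace Pool.Agent.CC

open Pool.Agent.TQ Matrix

section

variable {Y A : Type} [Ring A]

open Classical in
/-- The map `ρ n ↦ ρ (n + 1)`, the identity outside the ray. -/
noncomputable def shM (ρ : ℕ ↪ Y) (x : Y) : Y := if h : ∃ n, x = ρ n then ρ (h.choose + 1) else x

theorem shM_ray (ρ : ℕ ↪ Y) (n : ℕ) : shM ρ (ρ n) = ρ (n + 1) := by
  have h : ∃ k, ρ n = ρ k := ⟨n, rfl⟩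
  rw [shM, dif_pos h]
  congr 2
  exact (ρ.injective h.choose_spec).symm

theorem shM_out (ρ : ℕ ↪ Y) {x : Y} (h : ¬ ∃ n, x = ρ n) : shM ρ x = x := by
  rw [shM, dif_neg h]

theorem shM_iff (ρ : ℕ ↪ Y) (x y : Y) :
    ((∃ n, x = ρ n ∧ y = ρ (n + 1)) ∨ (x ∉ Set.range ρ ∧ y = x)) ↔ y = shM ρ x := by
  by_cases h : ∃ n, x = ρ n
  · obtain ⟨n, rfl⟩ := h
    rw [shM_ray]
    constructor
    · rintro (⟨k, hk, rfl⟩ | ⟨h, _⟩)
      · rw [ρ.injective hk]
      · exact absurd ⟨n, rfl⟩ h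
    · intro h
      exact Or.inl ⟨n, rfl, h⟩
  · rw [shM_out ρ h]
    constructor
    · rintro (⟨k, hk, _⟩ | ⟨_, h⟩)
      · exact absurd ⟨k, hk⟩ h
      · exact h
    · intro h'
      refine Or.inr ⟨?_, h'⟩
      rintro ⟨k, hk⟩
      exact h ⟨k, hk.symm⟩

theorem shM_inj (ρ : ℕ ↪ Y) : Function.Injective (shM ρ) := by
  intro x y hxy
  by_cases hx : ∃ n, x = ρ n
  · obtain ⟨n, rfl⟩ := hx
    by_cases hy : ∃ k, y = ρ k
    · obtain ⟨k, rfl⟩ := hy
      rw [shM_ray, shM_ray] at hxy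
      have := ρ.injective hxy
      rw [show n = k by omega]
    · rw [shM_ray, shM_out ρ hy] at hxy
      exact absurd ⟨n + 1, hxy.symm⟩ hy
  · by_cases hy : ∃ k, y = ρ k
    · obtain ⟨k, rfl⟩ := hy
      rw [shM_ray, shM_out ρ hx] at hxy
      exact absurd ⟨k + 1, hxy⟩ hx
    · rwa [shM_out ρ hx, shM_out ρ hy] at hxy

theorem shM_ne (ρ : ℕ ↪ Y) (x : Y) : shM ρ x ≠ ρ 0 := by
  intro h
  by_cases hx : ∃ n, x = ρ n
  · obtain ⟨n, rfl⟩ := hx
    rw [shM_ray] at h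
    have := ρ.injective h
    omega
  · rw [shM_out ρ hx] at h
    exact hx ⟨0, h⟩

theorem shM_surj (ρ : ℕ ↪ Y) {y : Y} (hy : y ≠ ρ 0) : ∃ x, shM ρ x = y := by
  by_cases h : ∃ n, y = ρ n
  · obtain ⟨n, rfl⟩ := h
    cases n with
    | zero => exact absurd rfl hy
    | succ n => exact ⟨ρ n, shM_ray ρ n⟩
  · exact ⟨y, shM_out ρ h⟩

open Classical in
theorem ent_shRm (ρ : ℕ ↪ Y) (y x : Y) : ent (shR A ρ) y x = if y = shM ρ x then 1 else 0 := by
  rw [shR, ent_mkK]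
  exact if_congr (shM_iff ρ x y) rfl rfl

open Classical in
theorem ent_shLm (ρ : ℕ ↪ Y) (x y : Y) : ent (shL A ρ) x y = if y = shM ρ x then 1 else 0 := by
  rw [shL, ent_mkK]
  exact if_congr (shM_iff ρ x y) rfl rfl

end

theorem sh : S_sh := by
  intro Y A _ ρ
  classical
  refine ⟨?_, ?_, ?_⟩
  · refine ent_ext fun y x => ?_
    rw [ent_one, ent_mul_col _ _ _ _ {shM ρ x} fun v hv => ?_, Finset.sum_singleton, ent_shLm,
      ent_shRm, if_pos rfl, mul_one]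
    · exact if_congr ⟨fun h => (shM_inj ρ h).symm, fun h => by rw [h]⟩ rfl rfl
    · rw [ent_shRm, ne_eq, ite_eq_right_iff, Classical.not_imp] at hv
      exact Finset.mem_singleton.2 hv.1
  · intro y x h
    obtain ⟨v, hv⟩ := exists_of_ent_mul h
    have h1 := left_ne_zero_of_mul hv
    have h2 := right_ne_zero_of_mul hv
    rw [ent_shRm, ne_eq, ite_eq_right_iff, Classical.not_imp] at h1
    rw [ent_shLm, ne_eq, ite_eq_right_iff, Classical.not_imp] at h2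
    rw [h1.1, h2.1]
    exact ⟨rfl, shM_ne ρ v⟩
  · intro x hx
    obtain ⟨w, rfl⟩ := shM_surj ρ hx
    rw [ent_mul_col _ _ _ _ {w} fun v hv => ?_, Finset.sum_singleton, ent_shLm, ent_shRm,
      if_pos rfl, mul_one]
    rw [ent_shLm, ne_eq, ite_eq_right_iff, Classical.not_imp] at hv
    exact Finset.mem_singleton.2 (shM_inj ρ hv.1).symm

end Pool.Agent.CC
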