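import Pool.Agent.Lib.MP_8f66f0_al_CC.End.Spec
import Pool.Agent.Lib.MP_8f66f0_al_CC.End.Ext

/-!
# Theorem CC: the special matrices form a class
-/

set_option autoImplicit false
set_option linter.unusedSectionVars false

namespace Pool.Agent.CC

open Pool.Agent.Wald Pool.Agent.TQ Matrix

section Ray

variable {O Y C : Type} [DecidableEq O]

private theorem spc_slot {S : Sys O Y C} {ρ : ℕ ↪ Y} {o : O}
    (h : ∀ n, ρ (n + 1) = S.re (fun o' m => if o' = o then m + 1 else m) (ρ n)) (n : ℕ) :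
    ∀ s ∈ S.A (ρ n), s.1 = o ∨ s ∈ S.A (ρ 0) := by
  induction n with
  | zero => exact fun s hs => Or.inr hs
  | succ n ih =>
    intro s hs
    rw [h n, S.A_re, Finset.mem_image] at hs
    obtain ⟨t, ht, rfl⟩ := hs
    by_cases hto : t.1 = o
    · exact Or.inl hto
    · rcases ih t ht with h1 | h1
      · exact absurd h1 hto
      · refine Or.inr ?_
        rw [if_neg hto]
        exact h1

private theorem spc_ray {S : Sys O Y C} {ρ : ℕ ↪ Y} (h : IsRay S ρ) :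
    ∃ h : O →₀ ℕ, ∀ n, (S.F h (ρ n)).card ≤ 1 := by
  obtain ⟨o, -, h1⟩ := h
  obtain ⟨h, hh⟩ := Sys.exists_height (S.A (ρ 0))
  refine ⟨h, fun n => ?_⟩
  have h2 : S.F h (ρ n) ⊆ {o} := by
    intro o' ho'
    obtain ⟨m, h3, h4⟩ := S.mem_F.1 ho'
    rw [Finset.mem_singleton]
    rcases spc_slot h1 n _ h3 with h5 | h5
    · exact h5
    · have h6 : m < h o' := Sys.mem_low.1 (hh h5)
      omega
  exact le_trans (Finset.card_le_card h2) (le_of_eq (Finset.card_singleton o))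

variable {A : Type} [Ring A]

private theorem spc_shR {ρ : ℕ ↪ Y} {y' y : Y} (h : ent (shR A ρ - 1) y' y ≠ 0) :
    y' ∈ Set.range ρ ∧ y ∈ Set.range ρ := by
  classical
  rw [ent_sub, shR, ent_mkK, ent_one] at h
  by_cases hy : y ∈ Set.range ρ
  · obtain ⟨n, rfl⟩ := hy
    by_cases h1 : y' = ρ (n + 1)
    · exact ⟨⟨n + 1, h1.symm⟩, n, rfl⟩
    · rw [if_neg, zero_sub, ne_eq, neg_eq_zero, ite_eq_right_iff, Classical.not_imp] at h
      · exact ⟨⟨n, h.1.symm⟩, n, rfl⟩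
      · rintro (⟨k, h2, h3⟩ | ⟨h2, -⟩)
        · rw [ρ.injective h2] at h1
          exact h1 h3
        · exact h2 ⟨n, rfl⟩
  · refine absurd ?_ h
    by_cases h1 : y' = y
    · rw [if_pos (Or.inr ⟨hy, h1⟩), if_pos h1, sub_self]
    · rw [if_neg, if_neg h1, sub_self]
      rintro (⟨k, h2, h3⟩ | ⟨-, h2⟩)
      · exact hy ⟨k, h2.symm⟩
      · exact h1 h2

private theorem spc_shL {ρ : ℕ ↪ Y} {y' y : Y} (h : ent (shL A ρ - 1) y' y ≠ 0) :
    y' ∈ Set.range ρ ∧ y ∈ Set.range ρ := by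
  classical
  rw [ent_sub, shL, ent_mkK, ent_one] at h
  by_cases hy : y' ∈ Set.range ρ
  · obtain ⟨n, rfl⟩ := hy
    by_cases h1 : y = ρ (n + 1)
    · exact ⟨⟨n, rfl⟩, n + 1, h1.symm⟩
    · rw [if_neg, zero_sub, ne_eq, neg_eq_zero, ite_eq_right_iff, Classical.not_imp] at h
      · exact ⟨⟨n, rfl⟩, n, h.1⟩
      · rintro (⟨k, h2, h3⟩ | ⟨h2, -⟩)
        · rw [ρ.injective h2] at h1
          exact h1 h3
        · exact h2 ⟨n, rfl⟩
  · refine absurd ?_ h
    by_cases h1 : y' = y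
    · rw [if_pos (Or.inr ⟨hy, h1.symm⟩), if_pos h1, sub_self]
    · rw [if_neg, if_neg h1, sub_self]
      rintro (⟨k, h2, h3⟩ | ⟨-, h2⟩)
      · exact hy ⟨k, h2.symm⟩
      · exact h1 h2.symm

end Ray

section Lw

variable {O Y C Γ k : Type} [DecidableEq O] [Group Γ] [MulAction Γ O] [MulAction Γ C] [CommRing k]

private theorem spc_fin (S : Sys O Y C) {z : RCF Y (MonoidAlgebra k Γ)}
    (hz : z ∈ Jfin Y (MonoidAlgebra k Γ)) : Low S 1 z := by
  classical
  have hf : {p : Y × Y | ent z p.1 p.2 ≠ 0}.Finite := hz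
  obtain ⟨h, hh⟩ := Sys.exists_height (hf.toFinset.biUnion fun p => S.A p.1 ∪ S.A p.2)
  have key : ∀ y, S.A y ⊆ Sys.low h → (S.F h y).card ≤ 1 := by
    intro y hy
    rw [Finset.card_eq_zero.2 (Finset.eq_empty_iff_forall_notMem.2 fun o ho => ?_)]
    · exact Nat.zero_le _
    · obtain ⟨n, h1, h2⟩ := S.mem_F.1 ho
      have h3 : n < h o := Sys.mem_low.1 (hy h1)
      omega
  refine ⟨h, fun g y' y hc => ?_⟩
  have hp : (y', y) ∈ hf.toFinset := by
    rw [Set.Finite.mem_toFinset]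
    exact cf_ne_of_ne hc
  refine ⟨key y' fun s hs => hh ?_, key y fun s hs => hh ?_⟩
  · exact Finset.mem_biUnion.2 ⟨(y', y), hp, Finset.mem_union_left _ hs⟩
  · exact Finset.mem_biUnion.2 ⟨(y', y), hp, Finset.mem_union_right _ hs⟩

private theorem spc_low (S : Sys O Y C) {ρ : ℕ ↪ Y} (hρ : IsRay S ρ)
    {z : RCF Y (MonoidAlgebra k Γ)}
    (hz : ∀ y' y, ent z y' y ≠ 0 → y' ∈ Set.range ρ ∧ y ∈ Set.range ρ) : Low S 1 z := by
  obtain ⟨h, H⟩ := spc_ray hρ
  refine ⟨h, fun g y' y hc => ?_⟩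
  obtain ⟨⟨n, rfl⟩, m, rfl⟩ := hz y' y (cf_ne_of_ne hc)
  exact ⟨H n, H m⟩

private theorem spc_shO (S : Sys O Y C) {r : Option (Bool × (ℕ ↪ Y))}
    (hr : ∀ b ρ, r = some (b, ρ) → IsRay S ρ) :
    Low S 1 (shO (MonoidAlgebra k Γ) r - 1) := by
  rcases r with _ | ⟨_ | _, ρ⟩
  · have h0 : shO (MonoidAlgebra k Γ) (none : Option (Bool × (ℕ ↪ Y))) - 1 = 0 := sub_self _
    rw [h0]
    exact ⟨0, fun g y' y h => absurd (cf_zero g y' y) h⟩
  · exact spc_low S (hr _ _ rfl) fun _ _ h => spc_shL h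
  · exact spc_low S (hr _ _ rfl) fun _ _ h => spc_shR h

variable {S : Sys O Y C} {m : Type} [Fintype m] [DecidableEq m]

private theorem spc_mul (a b : Matrix m m (U Γ k S)) : rcf (a * b) = rcf a * rcf b :=
  Matrix.map_mul (f := (U Γ k S).subtype)

omit [Fintype m] in
private theorem spc_one : rcf (1 : Matrix m m (U Γ k S)) = 1 :=
  Matrix.map_one _ rfl rfl

private theorem spc_cg {r : m → Option (Bool × (ℕ ↪ Y))} {w : Matrix m m (U Γ k S)}
    (hr : Rys S r) (hc : Cg (Jfin Y (MonoidAlgebra k Γ)) (rcf w) (dgO (MonoidAlgebra k Γ) r)) :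
    Cg (J Γ k S 1) w 1 := by
  intro i j
  rw [mem_J]
  have e : (w i j - (1 : Matrix m m (U Γ k S)) i j).1 =
      (rcf w i j - dgO (MonoidAlgebra k Γ) r i j) +
        (dgO (MonoidAlgebra k Γ) r i j - rcf (1 : Matrix m m (U Γ k S)) i j) := by
    rw [sub_add_sub_cancel]
    rfl
  rw [e, spc_one]
  refine (spc_fin S (hc i j)).add ?_
  by_cases hij : i = j
  · subst hij
    rw [dgO, diagonal_apply_eq, one_apply_eq]
    exact spc_shO S fun b ρ h => hr i b ρ h
  · rw [dgO, diagonal_apply_ne _ hij, one_apply_ne hij, sub_self]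
    exact ⟨0, fun g y' y h => absurd (cf_zero g y' y) h⟩

/-- The opposite shift. -/
def opO {Y : Type} (r : Option (Bool × (ℕ ↪ Y))) : Option (Bool × (ℕ ↪ Y)) :=
  r.map fun p => (!p.1, p.2)

omit [Fintype m] in
private theorem spc_opp (hsh : S_sh) (r : Option (Bool × (ℕ ↪ Y))) :
    shO (MonoidAlgebra k Γ) (opO r) * shO (MonoidAlgebra k Γ) r - 1 ∈
      Jfin Y (MonoidAlgebra k Γ) := by
  classical
  rcases r with _ | ⟨_ | _, ρ⟩
  · have h0 : shO (MonoidAlgebra k Γ) (opO none) * shO (MonoidAlgebra k Γ)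
        (none : Option (Bool × (ℕ ↪ Y))) - 1 = 0 := by
      change (1 : RCF Y (MonoidAlgebra k Γ)) * 1 - 1 = 0
      rw [one_mul, sub_self]
    rw [h0]
    exact Ideal.zero_mem _
  · obtain ⟨-, h1, h2⟩ := hsh Y (MonoidAlgebra k Γ) ρ
    change {p : Y × Y | ent (shR (MonoidAlgebra k Γ) ρ * shL (MonoidAlgebra k Γ) ρ - 1) p.1 p.2
      ≠ 0}.Finite
    refine (Set.finite_singleton (ρ 0, ρ 0)).subset fun p hp => ?_
    rw [Set.mem_ofPred_eq, ent_sub, ent_one] at hp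
    by_cases hd : p.1 = p.2
    · rw [if_pos hd] at hp
      by_cases hx : p.2 = ρ 0
      · exact Prod.ext (hd.trans hx) hx
      · exact absurd (by rw [hd, h2 _ hx, sub_self]) hp
    · rw [if_neg hd, sub_zero] at hp
      exact absurd (h1 _ _ hp).1 hd
  · obtain ⟨h1, -⟩ := hsh Y (MonoidAlgebra k Γ) ρ
    change shL (MonoidAlgebra k Γ) ρ * shR (MonoidAlgebra k Γ) ρ - 1 ∈ _
    rw [h1, sub_self]
    exact Ideal.zero_mem _

private theorem spc_dgO (hsh : S_sh) (r : m → Option (Bool × (ℕ ↪ Y))) :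
    Cg (Jfin Y (MonoidAlgebra k Γ))
      (dgO (MonoidAlgebra k Γ) (fun l => opO (r l)) * dgO (MonoidAlgebra k Γ) r) 1 := by
  intro i j
  rw [dgO, dgO, diagonal_mul_diagonal]
  by_cases hij : i = j
  · subst hij
    rw [diagonal_apply_eq, one_apply_eq]
    exact spc_opp hsh (r i)
  · rw [diagonal_apply_ne _ hij, one_apply_ne hij, sub_self]
    exact Ideal.zero_mem _

end Lw

/-- The special matrices form a class in the sense of `Spc`. -/
theorem spc (hsh : S_sh) (hmonc : S_monc) : S_spc := by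
  classical
  intro O Y C Γ k _ _ _ _ _ S
  obtain ⟨m1, -, m3, m4, m5⟩ := hmonc Y k Γ
  refine ⟨?_, ?_, ?_, ?_, ?_⟩
  · rintro n _ _ z ⟨r, h1, -, h3, h4⟩
    exact ⟨h1, spc_cg h3 h4⟩
  · intro n _ _
    refine ⟨fun _ => none, isUnit_one, ?_, fun l b ρ h => ?_, ?_⟩
    · rw [spc_one]
      exact m1 n
    · exact absurd h (by simp)
    · rw [spc_one]
      have h0 : dgO (MonoidAlgebra k Γ) (fun _ : n => (none : Option (Bool × (ℕ ↪ Y)))) = 1 :=
        diagonal_one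
      rw [h0]
      exact Cg.refl _
  · rintro n _ _ z z' ⟨r, h1, h2, h3, h4⟩ e1 e2
    have f1 : rcf z * rcf z' = 1 := by rw [← spc_mul, e1, spc_one]
    have f2 : rcf z' * rcf z = 1 := by rw [← spc_mul, e2, spc_one]
    refine ⟨fun l => opO (r l), ⟨⟨z', z, e2, e1⟩, rfl⟩, m3 n _ _ h2 f1 f2, fun l b ρ h => ?_, ?_⟩
    · have h6 : opO (r l) = some (b, ρ) := h
      rcases hl : r l with _ | ⟨b', ρ'⟩
      · rw [hl] at h6
        exact absurd h6 (by simp [opO])
      · rw [hl] at h6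
        have h5 : ρ' = ρ := (Prod.ext_iff.1 (Option.some.inj h6)).2
        exact h3 l b' ρ (h5 ▸ hl)
    · have c1 := (spc_dgO (m := n) (Γ := Γ) (k := k) hsh r).mul_right (rcf z')
      rw [Matrix.one_mul, Matrix.mul_assoc] at c1
      have c2 := ((h4.symm).mul_right (rcf z')).mul_left
        (dgO (MonoidAlgebra k Γ) fun l => opO (r l))
      rw [f1, Matrix.mul_one] at c2
      exact c1.symm.trans c2
  · rintro n m _ _ _ _ z w ⟨r, h1, h2, h3, h4⟩ ⟨r', h1', h2', h3', h4'⟩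
    have e1 : rcf (fromBlocks z 0 0 w) = fromBlocks (rcf z) 0 0 (rcf w) := by
      ext (i | i) (j | j) <;> rfl
    have e2 : dgO (MonoidAlgebra k Γ) (Sum.elim r r') =
        fromBlocks (dgO (MonoidAlgebra k Γ) r) 0 0 (dgO (MonoidAlgebra k Γ) r') := by
      rw [dgO, dgO, dgO, fromBlocks_diagonal]
      congr 1
      funext l
      rcases l with l | l <;> rfl
    refine ⟨Sum.elim r r', K1Fun.isUnit_tri 0 h1 h1', ?_, fun l b ρ h => ?_, ?_⟩
    · rw [e1]
      exact m4 n m _ _ h2 h2'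
    · rcases l with l | l
      · exact h3 l b ρ h
      · exact h3' l b ρ h
    · rw [e1, e2]
      exact h4.blocks (Cg.refl _) (Cg.refl _) h4'
  · rintro n m _ _ _ _ e z ⟨r, h1, h2, h3, h4⟩
    refine ⟨fun l => r (e.symm l), K1Fun.isUnit_submatrix e h1, m5 n m e _ h2,
      fun l b ρ h => h3 _ b ρ h, ?_⟩
    have e2 : dgO (MonoidAlgebra k Γ) (fun l => r (e.symm l)) =
        (dgO (MonoidAlgebra k Γ) r).submatrix e.symm e.symm := by
      rw [dgO, dgO, submatrix_diagonal_equiv]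
      rfl
    rw [e2]
    exact h4.sub _ _

end Pool.Agent.CC
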