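import Pool.Agent.Lib.MP_8f66f0_al_CC.End.Spec

/-!
# Theorem CC: special matrices of a derived system are special
-/

set_option autoImplicit false

namespace Pool.Agent.CC

open Pool.Agent.Wald Pool.Agent.TQ Matrix
open scoped Pointwise

namespace SpeAux

private theorem ite_dec {A : Type} (P : Prop) (i j : Decidable P) (a b : A) :
    @ite A P i a b = @ite A P j a b := by
  cases Subsingleton.elim i j
  rfl

section Gen

variable {R S : Type} [Ring R] [Ring S] (ε : S →ₙ+* R) {n : Type} [DecidableEq n]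

private theorem Ex_one : Ex ε (1 : Matrix n n S) = 1 := by
  rw [Ex, sub_self]
  ext i j
  simp

private theorem Ex_mul [Fintype n] (a b : Matrix n n S) : Ex ε (a * b) = Ex ε a * Ex ε b := by
  have h1 : ∀ x y : Matrix n n S, (x * y).map ε = x.map ε * y.map ε := fun x y => by
    ext i j
    simp only [Matrix.map_apply, Matrix.mul_apply, map_sum, map_mul]
  have h2 : ∀ x y : Matrix n n S, (x + y).map ε = x.map ε + y.map ε := fun x y => by
    ext i j
    simp only [Matrix.map_apply, Matrix.add_apply, map_add]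
  have h3 : a * b - 1 = (a - 1) + (b - 1) + (a - 1) * (b - 1) := by noncomm_ring
  rw [Ex, Ex, Ex, h3, h2, h2, h1]
  noncomm_ring

private theorem Ex_unit [Fintype n] {a : Matrix n n S} (ha : IsUnit a) : IsUnit (Ex ε a) := by
  obtain ⟨u, rfl⟩ := ha
  refine ⟨⟨Ex ε u.val, Ex ε u.inv, ?_, ?_⟩, rfl⟩
  · rw [← Ex_mul, u.val_inv, Ex_one]
  · rw [← Ex_mul, u.inv_val, Ex_one]

end Gen

section Push

variable {Y Y' A : Type} [Ring A] {ι : Y' → Y} (hι : Function.Injective ι)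

private theorem push_Jfin {z : RCF Y' A} (hz : z ∈ Jfin Y' A) : push hι z ∈ Jfin Y A := by
  rw [mem_Jfin] at hz ⊢
  refine (hz.image fun p => (ι p.1, ι p.2)).subset fun p hp => ?_
  obtain ⟨y', x', h1, h2, h3⟩ := ent_push_ne hι hp
  exact ⟨(y', x'), h3, Prod.ext h1 h2⟩

end Push

section Ray

variable {Y A : Type} [Ring A] {p : Y → Prop}

/-- The ray in the bigger set of objects. -/
private def emb (ρ : ℕ ↪ {y : Y // p y}) : ℕ ↪ Y := ρ.trans (Function.Embedding.subtype p)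

private theorem emb_apply (ρ : ℕ ↪ {y : Y // p y}) (n : ℕ) : emb ρ n = (ρ n).1 := rfl

private theorem shR_emb (ρ : ℕ ↪ {y : Y // p y}) :
    shR A (emb ρ) = 1 + push Subtype.val_injective (shR A ρ - 1) := by
  classical
  refine ent_ext fun y x => ?_
  rw [ent_add, shR, ent_mkK, ent_one]
  by_cases hyx : p y ∧ p x
  · obtain ⟨hy, hx⟩ := hyx
    have h1 : ent (push Subtype.val_injective (shR A ρ - 1)) y x =
        ent (shR A ρ - 1) ⟨y, hy⟩ ⟨x, hx⟩ :=
      ent_push Subtype.val_injective (shR A ρ - 1) ⟨y, hy⟩ ⟨x, hx⟩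
    have h2 : ent (shR A ρ - 1) ⟨y, hy⟩ ⟨x, hx⟩ =
        ent (shR A ρ) ⟨y, hy⟩ ⟨x, hx⟩ - (if y = x then 1 else 0) := by
      rw [ent_sub, ent_one]
      simp only [Subtype.mk.injEq]
    rw [h1, h2, shR, ent_mkK]
    have h3 : ((∃ n, x = emb ρ n ∧ y = emb ρ (n + 1)) ∨ (x ∉ Set.range (emb ρ) ∧ y = x)) ↔
        ((∃ n, (⟨x, hx⟩ : {y : Y // p y}) = ρ n ∧ (⟨y, hy⟩ : {y : Y // p y}) = ρ (n + 1)) ∨
        ((⟨x, hx⟩ : {y : Y // p y}) ∉ Set.range ρ ∧
          (⟨y, hy⟩ : {y : Y // p y}) = ⟨x, hx⟩)) := by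
      simp only [emb_apply, Set.mem_range, Subtype.ext_iff]
    rw [if_congr h3 rfl rfl]
    have h4 : ∀ a a' b b' : A, a = a' → b = b' → a = b + (a' - b') := fun a a' b b' e e' => by
      rw [e, e']
      abel
    exact h4 _ _ _ _ (ite_dec _ _ _ _ _) (ite_dec _ _ _ _ _)
  · have h1 : ent (push Subtype.val_injective (shR A ρ - 1)) y x = 0 := by
      by_contra hne
      obtain ⟨y', x', rfl, rfl, _⟩ := ent_push_ne Subtype.val_injective hne
      exact hyx ⟨y'.2, x'.2⟩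
    rw [h1, add_zero]
    refine if_congr ⟨?_, fun h => Or.inr ⟨?_, h⟩⟩ rfl rfl
    · rintro (⟨n, hx, hy⟩ | ⟨_, h⟩)
      · exact absurd ⟨hy ▸ (ρ (n + 1)).2, hx ▸ (ρ n).2⟩ hyx
      · exact h
    · rintro ⟨n, hn⟩
      have hx : p x := hn ▸ (ρ n).2
      exact hyx ⟨h ▸ hx, hx⟩

private theorem shL_emb (ρ : ℕ ↪ {y : Y // p y}) :
    shL A (emb ρ) = 1 + push Subtype.val_injective (shL A ρ - 1) := by
  classical
  refine ent_ext fun x y => ?_
  rw [ent_add, shL, ent_mkK, ent_one]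
  by_cases hyx : p y ∧ p x
  · obtain ⟨hy, hx⟩ := hyx
    have h1 : ent (push Subtype.val_injective (shL A ρ - 1)) x y =
        ent (shL A ρ - 1) ⟨x, hx⟩ ⟨y, hy⟩ :=
      ent_push Subtype.val_injective (shL A ρ - 1) ⟨x, hx⟩ ⟨y, hy⟩
    have h2 : ent (shL A ρ - 1) ⟨x, hx⟩ ⟨y, hy⟩ =
        ent (shL A ρ) ⟨x, hx⟩ ⟨y, hy⟩ - (if x = y then 1 else 0) := by
      rw [ent_sub, ent_one]
      simp only [Subtype.mk.injEq]
    rw [h1, h2, shL, ent_mkK]
    have h3 : ((∃ n, x = emb ρ n ∧ y = emb ρ (n + 1)) ∨ (x ∉ Set.range (emb ρ) ∧ y = x)) ↔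
        ((∃ n, (⟨x, hx⟩ : {y : Y // p y}) = ρ n ∧ (⟨y, hy⟩ : {y : Y // p y}) = ρ (n + 1)) ∨
        ((⟨x, hx⟩ : {y : Y // p y}) ∉ Set.range ρ ∧
          (⟨y, hy⟩ : {y : Y // p y}) = ⟨x, hx⟩)) := by
      simp only [emb_apply, Set.mem_range, Subtype.ext_iff]
    rw [if_congr h3 rfl rfl]
    have h4 : ∀ a a' b b' : A, a = a' → b = b' → a = b + (a' - b') := fun a a' b b' e e' => by
      rw [e, e']
      abel
    exact h4 _ _ _ _ (ite_dec _ _ _ _ _) (ite_dec _ _ _ _ _)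
  · have h1 : ent (push Subtype.val_injective (shL A ρ - 1)) x y = 0 := by
      by_contra hne
      obtain ⟨y', x', rfl, rfl, _⟩ := ent_push_ne Subtype.val_injective hne
      exact hyx ⟨x'.2, y'.2⟩
    rw [h1, add_zero]
    refine if_congr ⟨?_, fun h => Or.inr ⟨?_, h.symm⟩⟩ rfl rfl
    · rintro (⟨n, hx, hy⟩ | ⟨_, h⟩)
      · exact absurd ⟨hy ▸ (ρ (n + 1)).2, hx ▸ (ρ n).2⟩ hyx
      · exact h.symm
    · rintro ⟨n, hn⟩
      have hx : p x := hn ▸ (ρ n).2
      exact hyx ⟨h ▸ hx, hx⟩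

/-- The shift in the bigger set of objects. -/
private def embO (r : Option (Bool × (ℕ ↪ {y : Y // p y}))) : Option (Bool × (ℕ ↪ Y)) :=
  r.map fun q => (q.1, emb q.2)

private theorem shO_emb (r : Option (Bool × (ℕ ↪ {y : Y // p y}))) :
    shO A (embO r) = 1 + push Subtype.val_injective (shO A r - 1) := by
  rcases r with _ | ⟨_ | _, ρ⟩
  · change (1 : RCF Y A) = 1 + push Subtype.val_injective (1 - 1)
    rw [sub_self, map_zero, add_zero]
  · exact shL_emb ρ
  · exact shR_emb ρ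

end Ray

section Cf

variable {Y k Γ m : Type} [CommRing k] [Group Γ] [DecidableEq m]

open Classical in
private theorem cfI (i j : m) (x : Γ) (y' y : Y) :
    cf ((1 : Matrix m m (RCF Y (MonoidAlgebra k Γ))) i j) x y' y =
      if i = j ∧ y' = y ∧ x = 1 then 1 else 0 := by
  by_cases hij : i = j
  · subst hij
    rw [Matrix.one_apply_eq, cf, ent_one]
    by_cases hy : y' = y
    · rw [if_pos hy, MonoidAlgebra.one_def, MonoidAlgebra.coeff_single, Finsupp.single_apply]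
      by_cases hx : x = 1
      · rw [if_pos hx.symm, if_pos ⟨rfl, hy, hx⟩]
      · rw [if_neg fun h => hx h.symm, if_neg fun h => hx h.2.2]
    · rw [if_neg hy, if_neg fun h => hy h.2.1, MonoidAlgebra.coeff_zero]
      rfl
  · rw [Matrix.one_apply_ne hij, cf_zero, if_neg fun h => hij h.1]

variable {O C : Type} [DecidableEq O] [MulAction Γ O] [MulAction Γ C]

private theorem rcf_Ex (S : Sys O Y C) (f : ℕ) (h : O →₀ ℕ)
    (w : Matrix m m (U Γ k (S.der f h))) (i j : m) :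
    rcf (Ex (eps Γ k S f h) w) i j = (1 : Matrix m m (RCF Y (MonoidAlgebra k Γ))) i j +
      push Subtype.val_injective (rcf w i j -
        (1 : Matrix m m (RCF {y : Y // (S.F h y).card = f} (MonoidAlgebra k Γ))) i j) := by
  by_cases hij : i = j
  · subst hij
    simp only [rcf, Ex, Matrix.map_apply, Matrix.add_apply, Matrix.sub_apply, Matrix.one_apply_eq]
    rfl
  · simp only [rcf, Ex, Matrix.map_apply, Matrix.add_apply, Matrix.sub_apply,
      Matrix.one_apply_ne hij]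
    rfl

private theorem cf_Ex_in (S : Sys O Y C) (f : ℕ) (h : O →₀ ℕ)
    (w : Matrix m m (U Γ k (S.der f h))) (i j : m) (x : Γ)
    (y' y : {y : Y // (S.F h y).card = f}) :
    cf (rcf (Ex (eps Γ k S f h) w) i j) x y'.1 y.1 = cf (rcf w i j) x y' y := by
  classical
  rw [rcf_Ex, cf_add, cf_push, sub_eq_add_neg, cf_add, cf_neg, cfI, cfI]
  simp only [Subtype.ext_iff]
  abel

private theorem cf_Ex_out (S : Sys O Y C) (f : ℕ) (h : O →₀ ℕ)
    (w : Matrix m m (U Γ k (S.der f h))) (i j : m) (x : Γ) (y' y : Y)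
    (hy : ¬ ((S.F h y').card = f ∧ (S.F h y).card = f)) :
    cf (rcf (Ex (eps Γ k S f h) w) i j) x y' y =
      cf ((1 : Matrix m m (RCF Y (MonoidAlgebra k Γ))) i j) x y' y := by
  rw [rcf_Ex, cf_add]
  have h1 : cf (push Subtype.val_injective (rcf w i j -
        (1 : Matrix m m (RCF {y : Y // (S.F h y).card = f} (MonoidAlgebra k Γ))) i j)) x y' y = 0 := by
    by_contra hne
    obtain ⟨a, b, rfl, rfl, _⟩ := cf_push_ne Subtype.val_injective hne
    exact hy ⟨a.2, b.2⟩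
  rw [h1, add_zero]

private theorem mon_Ex (S : Sys O Y C) (f : ℕ) (h : O →₀ ℕ)
    (w : Matrix m m (U Γ k (S.der f h))) (hM : Mon (rcf w)) :
    Mon (rcf (Ex (eps Γ k S f h) w)) := by
  classical
  obtain ⟨σ, g, hσ⟩ := hM
  let e : m × {y : Y // (S.F h y).card = f} ≃ {q : m × Y // (S.F h q.2).card = f} :=
    { toFun := fun q => ⟨(q.1, q.2.1), q.2.2⟩
      invFun := fun q => (q.1.1, ⟨q.1.2, q.2⟩)
      left_inv := fun _ => rfl
      right_inv := fun _ => rfl }
  have key : ∃ g' : m × Y → Γ, (∀ (j : m) (y : Y) (hy : (S.F h y).card = f),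
      g' (j, y) = g (j, ⟨y, hy⟩)) ∧ ∀ (j : m) (y : Y), ¬ (S.F h y).card = f → g' (j, y) = 1 :=
    ⟨fun q => if hq : (S.F h q.2).card = f then g (q.1, ⟨q.2, hq⟩) else 1,
      fun j y hy => dif_pos hy, fun j y hy => dif_neg hy⟩
  obtain ⟨g', hg1, hg2⟩ := key
  refine ⟨σ.extendDomain e, g', fun i j y' y x => ?_⟩
  by_cases hy : (S.F h y).card = f
  · have hs : σ.extendDomain e (j, y) = ((σ (j, ⟨y, hy⟩)).1, (σ (j, ⟨y, hy⟩)).2.1) :=
      Equiv.Perm.extendDomain_apply_image σ e (j, ⟨y, hy⟩)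
    rw [hs, hg1 j y hy]
    by_cases hy' : (S.F h y').card = f
    · have h1 := hσ i j ⟨y', hy'⟩ ⟨y, hy⟩ x
      have h2 : cf (rcf (Ex (eps Γ k S f h) w) i j) x y' y = cf (rcf w i j) x ⟨y', hy'⟩ ⟨y, hy⟩ :=
        cf_Ex_in S f h w i j x ⟨y', hy'⟩ ⟨y, hy⟩
      have h3 : ((σ (j, ⟨y, hy⟩)).1, (σ (j, ⟨y, hy⟩)).2.1) = (i, y') ↔
          σ (j, ⟨y, hy⟩) = (i, ⟨y', hy'⟩) := by
        rw [Prod.ext_iff, Prod.ext_iff, Subtype.ext_iff]
      rw [h2, h3]
      exact h1
    · have h3 : ¬ ((σ (j, ⟨y, hy⟩)).1, (σ (j, ⟨y, hy⟩)).2.1) = (i, y') := by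
        intro h5
        rw [Prod.mk.injEq] at h5
        exact hy' (h5.2 ▸ (σ (j, ⟨y, hy⟩)).2.2)
      refine ⟨fun h => absurd h.1 h3, fun _ => ?_⟩
      rw [cf_Ex_out S f h w i j x y' y fun h => hy' h.1, cfI, if_neg]
      rintro ⟨_, rfl, _⟩
      exact hy' hy
  · have hs : σ.extendDomain e (j, y) = (j, y) :=
      Equiv.Perm.extendDomain_apply_not_subtype σ e (b := (j, y)) hy
    rw [hs, hg2 j y hy, cf_Ex_out S f h w i j x y' y fun h => hy h.2, cfI]
    constructor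
    · rintro ⟨h1, rfl⟩
      rw [Prod.mk.injEq] at h1
      exact if_pos ⟨h1.1.symm, h1.2.symm, rfl⟩
    · intro h1
      refine if_neg fun h2 => h1 ⟨?_, h2.2.2⟩
      rw [h2.1, h2.2.1]

private theorem dgO_emb {A : Type} [Ring A] {p : Y → Prop} (r : m → Option (Bool × (ℕ ↪ {y : Y // p y})))
    (i j : m) : dgO A (fun l => embO (r l)) i j = (1 : Matrix m m (RCF Y A)) i j +
      push Subtype.val_injective (dgO A r i j -
        (1 : Matrix m m (RCF {y : Y // p y} A)) i j) := by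
  by_cases hij : i = j
  · subst hij
    rw [dgO, dgO, diagonal_apply_eq, diagonal_apply_eq, one_apply_eq, one_apply_eq, shO_emb]
  · rw [dgO, dgO, diagonal_apply_ne _ hij, diagonal_apply_ne _ hij, one_apply_ne hij,
      one_apply_ne hij, sub_zero, map_zero, add_zero]

private theorem ray_emb (S : Sys O Y C) (f : ℕ) (h : O →₀ ℕ)
    {ρ : ℕ ↪ {y : Y // (S.F h y).card = f}} (hρ : IsRay (S.der f h) ρ) : IsRay S (emb ρ) := by
  obtain ⟨o, ho, hr⟩ := hρ
  rw [F_der_zero] at ho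
  have hoF : ∀ n, o ∈ S.F h (ρ n).1 := by
    intro n
    induction n with
    | zero => exact ho
    | succ n ih =>
      rw [hr n]
      change o ∈ S.F h (S.re (shf h _) (ρ n).1)
      rw [F_re_shf]
      exact ih
  refine ⟨o, S.F_anti (fun _ => Nat.zero_le _) _ ho, fun n => ?_⟩
  rw [emb_apply, emb_apply, hr n]
  change S.re (shf h _) (ρ n).1 = _
  refine S.re_congr _ _ _ fun s hs => ?_
  unfold shf
  obtain ⟨q, hq, hqh⟩ := S.mem_F.1 (hoF n)
  by_cases hso : s.1 = o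
  · have h1 : s = (o, q) := S.inj _ s hs (o, q) hq hso
    have h2 : ¬ s.2 < h s.1 := by
      rw [h1]
      exact not_lt.2 hqh
    rw [if_neg h2]
    beta_reduce
    rw [if_pos hso, if_pos hso]
    omega
  · beta_reduce
    rw [if_neg hso, if_neg hso]
    split_ifs with h3
    · rfl
    · omega

end Cf

end SpeAux

open SpeAux

theorem spe : S_spe := by
  intro O Y C Γ k _ _ _ _ _ S f h m _ _ w hw
  obtain ⟨r, hu, hM, hr, hc⟩ := hw
  refine ⟨fun l => embO (r l), Ex_unit _ hu, mon_Ex S f h w hM, ?_, ?_⟩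
  · intro l b ρ hl
    obtain ⟨q, hq, hqe⟩ := Option.map_eq_some_iff.1 hl
    rw [Prod.mk.injEq] at hqe
    obtain ⟨-, rfl⟩ := hqe
    exact ray_emb S f h (hr l q.1 q.2 hq)
  · intro i j
    have h1 := push_Jfin (ι := Subtype.val) Subtype.val_injective (hc i j)
    rw [rcf_Ex, dgO_emb]
    have h2 : ∀ a b c d : RCF Y (MonoidAlgebra k Γ), a + b - (a + c) = b - c := fun a b c _ => by
      abel
    rw [h2 _ _ _ 0, ← map_sub]
    have h3 : ∀ a b c : RCF {y : Y // (S.F h y).card = f} (MonoidAlgebra k Γ),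
        a - b - (c - b) = a - c := fun a b c => by abel
    rw [h3]
    exact h1

end Pool.Agent.CC
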