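import Pool.Agent.Lib.MP_8f66f0_al_CC.Sys.RayIff
import Pool.Agent.Lib.MP_8f66f0_al_CC.End.Ext
import Pool.Agent.Lib.MP_8f66f0_al_CC.End.Mon

/-!
# Theorem CC: `triv` of the extension theorem at `f = 1`

`shO_tail`: the shifts along a ray and along a tail of it agree up to a finite matrix. `tail_exists`: if
`1 ⊕ push z` is a shift along `ρ` up to a finite matrix, then a tail of `ρ` consists of objects of the
derived system. `triv1`: the statement `S_triv1`.
-/

set_option autoImplicit false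
set_option linter.unusedSectionVars false

namespace Pool.Agent.CC

open Pool.Agent.Wald Pool.Agent.TQ Pool.Agent.Ind Pool.Agent.WaldL Pool.Agent.FH Matrix
open scoped Pointwise

section Sh

variable {Y Y' A : Type} [Ring A]

/-- A matrix with entries in finitely many columns is finite. -/
theorem fin_of_col {z : RCF Y A} {T : Set Y} (hT : T.Finite)
    (h : ∀ y x, ent z y x ≠ 0 → x ∈ T) : z ∈ Jfin Y A := by
  refine (Set.Finite.biUnion hT fun x _ => (ent_col z x).image fun y => (y, x)).subset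
    fun p hp => ?_
  simp only [Set.mem_iUnion]
  exact ⟨p.2, h p.1 p.2 hp, p.1, hp, rfl⟩

/-- A matrix with entries in finitely many rows is finite. -/
theorem fin_of_row {z : RCF Y A} {T : Set Y} (hT : T.Finite)
    (h : ∀ y x, ent z y x ≠ 0 → y ∈ T) : z ∈ Jfin Y A := by
  refine (Set.Finite.biUnion hT fun y _ => (ent_row z y).image fun x => (y, x)).subset
    fun p hp => ?_
  simp only [Set.mem_iUnion]
  exact ⟨p.1, h p.1 p.2 hp, p.2, hp, rfl⟩

open Classical in
theorem ent_shR_ray (ρ : ℕ ↪ Y) (y : Y) (n : ℕ) :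
    ent (shR A ρ) y (ρ n) = if y = ρ (n + 1) then 1 else 0 := by
  rw [shR, ent_mkK]
  refine if_congr ⟨?_, fun h => Or.inl ⟨n, rfl, h⟩⟩ rfl rfl
  rintro (⟨m, h1, h2⟩ | ⟨h1, _⟩)
  · rw [ρ.injective h1]
    exact h2
  · exact absurd ⟨n, rfl⟩ h1

open Classical in
theorem ent_shR_out (ρ : ℕ ↪ Y) (y : Y) {x : Y} (hx : ∀ n, x ≠ ρ n) :
    ent (shR A ρ) y x = if y = x then 1 else 0 := by
  rw [shR, ent_mkK]
  refine if_congr ⟨?_, fun h => Or.inr ⟨?_, h⟩⟩ rfl rfl
  · rintro (⟨m, h1, _⟩ | ⟨_, h1⟩)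
    · exact absurd h1 (hx m)
    · exact h1
  · rintro ⟨n, hn⟩
    exact hx n hn.symm

theorem ent_shL (ρ : ℕ ↪ Y) (y x : Y) : ent (shL A ρ) y x = ent (shR A ρ) x y := by
  rw [shL, shR, ent_mkK, ent_mkK]

variable {ι : Y' → Y} (hι : Function.Injective ι)

theorem pull_fin {z : RCF Y A} (hz : z ∈ Jfin Y A) : pull hι z ∈ Jfin Y' A := by
  have h1 : Function.Injective fun p : Y' × Y' => (ι p.1, ι p.2) := fun p q h =>
    Prod.ext (hι (Prod.ext_iff.1 h).1) (hι (Prod.ext_iff.1 h).2)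
  refine (Set.Finite.preimage h1.injOn hz).subset fun p hp => ?_
  have hp' : ent (pull hι z) p.1 p.2 ≠ 0 := hp
  rw [ent_pull] at hp'
  exact hp'

theorem push_fin {z : RCF Y' A} (hz : z ∈ Jfin Y' A) : push hι z ∈ Jfin Y A := by
  refine (Set.Finite.image (fun p : Y' × Y' => (ι p.1, ι p.2)) hz).subset fun p hp => ?_
  obtain ⟨y, x, h1, h2, h3⟩ := ent_push_ne hι hp
  exact ⟨(y, x), h3, Prod.ext h1 h2⟩

include hι

/-- The shift along a tail of a ray. -/
theorem shR_tail (ρ : ℕ ↪ Y) (N : ℕ) (ρ' : ℕ ↪ Y') (h : ∀ n, ι (ρ' n) = ρ (n + N)) (y x : Y')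
    (hx : ∀ n < N, ι x ≠ ρ n) : ent (shR A ρ) (ι y) (ι x) = ent (shR A ρ') y x := by
  classical
  by_cases h1 : ∃ n, x = ρ' n
  · obtain ⟨n, rfl⟩ := h1
    rw [ent_shR_ray, h, ent_shR_ray]
    refine if_congr ?_ rfl rfl
    rw [show n + N + 1 = n + 1 + N by omega, ← h, hι.eq_iff]
  · push Not at h1
    rw [ent_shR_out ρ' y h1, ent_shR_out ρ (ι y) fun n hn => ?_]
    · exact if_congr hι.eq_iff rfl rfl
    · by_cases hnN : n < N
      · exact hx n hnN hn
      · refine h1 (n - N) (hι ?_)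
        rw [h, hn]
        congr 1
        omega

theorem fin_tail (ρ : ℕ ↪ Y) (N : ℕ) : {x : Y' | ∃ n < N, ι x = ρ n}.Finite := by
  refine (Set.Finite.preimage hι.injOn ((Finset.range N).finite_toSet.image ρ)).subset ?_
  rintro x ⟨n, h1, h2⟩
  exact ⟨n, Finset.mem_coe.2 (Finset.mem_range.2 h1), h2.symm⟩

theorem shO_tail (b : Bool) (ρ : ℕ ↪ Y) (N : ℕ) (ρ' : ℕ ↪ Y') (h : ∀ n, ι (ρ' n) = ρ (n + N)) :
    pull hι (shO A (some (b, ρ))) - shO A (some (b, ρ')) ∈ Jfin Y' A := by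
  cases b with
  | true =>
    refine fin_of_col (fin_tail hι ρ N) fun y x hne => ?_
    by_contra hc
    refine hne ?_
    rw [ent_sub, ent_pull]
    change ent (shR A ρ) (ι y) (ι x) - ent (shR A ρ') y x = 0
    rw [shR_tail hι ρ N ρ' h y x fun n hn he => hc ⟨n, hn, he⟩, sub_self]
  | false =>
    refine fin_of_row (fin_tail hι ρ N) fun y x hne => ?_
    by_contra hc
    refine hne ?_
    rw [ent_sub, ent_pull]
    change ent (shL A ρ) (ι y) (ι x) - ent (shL A ρ') y x = 0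
    rw [ent_shL, ent_shL, shR_tail hι ρ N ρ' h x y fun n hn he => hc ⟨n, hn, he⟩, sub_self]

omit hι in
/-- If a matrix which is the identity outside `range ι` is a shift along `ρ` up to a finite matrix, then
a tail of `ρ` is in `range ι`. -/
theorem tail_exists [Nontrivial A] (b : Bool) (ρ : ℕ ↪ Y) (e : RCF Y A)
    (he : ∀ y x, y ≠ x → ent e y x ≠ 0 → (∃ y', ι y' = y) ∧ ∃ x', ι x' = x)
    (h : e - shO A (some (b, ρ)) ∈ Jfin Y A) : ∃ N, ∀ n, ∃ y', ι y' = ρ (n + N) := by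
  classical
  have key : ∀ y : ℕ → Y × Y, Function.Injective y →
      (∀ n, (y n).1 ≠ (y n).2 ∧ ent (shO A (some (b, ρ))) (y n).1 (y n).2 = 1) →
      ∃ N, ∀ n, ent e (y (n + N)).1 (y (n + N)).2 ≠ 0 := by
    intro y hy h1
    have h2 : {n | ent (e - shO A (some (b, ρ))) (y n).1 (y n).2 ≠ 0}.Finite :=
      Set.Finite.preimage hy.injOn h
    obtain ⟨N, hN⟩ := h2.bddAbove
    refine ⟨N + 1, fun n => ?_⟩
    have h3 : ent (e - shO A (some (b, ρ))) (y (n + (N + 1))).1 (y (n + (N + 1))).2 = 0 := by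
      by_contra hc
      have := hN hc
      omega
    rw [ent_sub, (h1 _).2, sub_eq_zero] at h3
    rw [h3]
    exact one_ne_zero
  have hne : ∀ n, ρ (n + 1) ≠ ρ n := fun n h0 => by
    have := ρ.injective h0
    omega
  cases b with
  | true =>
    obtain ⟨N, hN⟩ := key (fun n => (ρ (n + 1), ρ n))
      (fun n m hnm => ρ.injective (Prod.ext_iff.1 hnm).2) fun n => ⟨hne n, by
        change ent (shR A ρ) (ρ (n + 1)) (ρ n) = 1
        rw [ent_shR_ray, if_pos rfl]⟩
    exact ⟨N, fun n => (he _ _ (hne (n + N)) (hN n)).2⟩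
  | false =>
    obtain ⟨N, hN⟩ := key (fun n => (ρ n, ρ (n + 1)))
      (fun n m hnm => ρ.injective (Prod.ext_iff.1 hnm).1) fun n => ⟨(hne n).symm, by
        change ent (shL A ρ) (ρ n) (ρ (n + 1)) = 1
        rw [ent_shL, ent_shR_ray, if_pos rfl]⟩
    exact ⟨N, fun n => (he _ _ (hne (n + N)).symm (hN n)).1⟩

omit hι in
theorem pull_one (hι : Function.Injective ι) : pull hι (1 : RCF Y A) = 1 := by
  classical
  refine ent_ext fun y x => ?_
  rw [ent_pull, ent_one, ent_one]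
  exact if_congr hι.eq_iff rfl rfl

end Sh

section Der

variable {O Y C Γ k : Type} [DecidableEq O] [Group Γ] [MulAction Γ O] [MulAction Γ C] [CommRing k]

/-- A tail of a ray which consists of objects of the derived system is a ray of the derived system. -/
theorem isRay_tail {S : Sys O Y C} {h : O →₀ ℕ} {ρ : ℕ ↪ Y} (hρ : IsRay S ρ) {N : ℕ}
    (hN : ∀ n, (S.F h (ρ (n + N))).card = 1) (ρ' : ℕ ↪ {y : Y // (S.F h y).card = 1})
    (h' : ∀ n, (ρ' n).1 = ρ (n + N)) : IsRay (S.der 1 h) ρ' := by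
  classical
  obtain ⟨y, o, m, ho, hr⟩ := hρ.ry
  -- the slot `o` is far at `ρ (n + N)`, and it is the only far slot
  have h1 : ∀ n, o ∈ S.F h (ρ (n + N)) := by
    intro n
    -- far at a large index
    have h2 : o ∈ S.F h (ρ (n + N + h o)) := by
      rw [hr, mem_F_upd S ho]
      exact Or.inl ⟨rfl, by omega⟩
    have h3 : S.F h (ρ (n + N)) ⊆ S.F h (ρ (n + N + h o)) := by
      intro o' ho'
      rw [hr, mem_F_upd S ho] at ho' ⊢
      rcases ho' with ⟨h4, h5⟩ | h4
      · exact Or.inl ⟨h4, by omega⟩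
      · exact Or.inr h4
    have h4 : S.F h (ρ (n + N)) = S.F h (ρ (n + N + h o)) := by
      refine Finset.eq_of_subset_of_card_le h3 ?_
      have h5 := hN (n + h o)
      rw [show n + h o + N = n + N + h o by omega] at h5
      rw [hN n, h5]
    rw [h4]
    exact h2
  refine ⟨o, ?_, fun n => Subtype.ext ?_⟩
  · rw [F_der_zero, h' 0]
    exact h1 0
  · change (ρ' (n + 1)).1 = S.re (shf h fun o' m => if o' = o then m + 1 else m) (ρ' n).1
    rw [h', h']
    have h2 := h1 n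
    rw [hr] at h2
    rw [hr, hr]
    rw [show n + 1 + N + m = (n + N + m) + 1 by omega, ← re_succ_upd]
    refine S.re_congr _ _ _ fun s hs => ?_
    change (if s.1 = o then s.2 + 1 else s.2) = if s.2 < h s.1 then s.2 else
      h s.1 + if s.1 = o then s.2 - h s.1 + 1 else s.2 - h s.1
    by_cases hso : s.1 = o
    · have h3 : h s.1 ≤ s.2 := by
        rcases (mem_A_upd S ho (n + N + m) s.1 s.2).1 hs with ⟨_, h4⟩ | ⟨h4, _⟩
        · rcases (mem_F_upd S ho (n + N + m) h o).1 h2 with ⟨_, h5⟩ | ⟨h5, _⟩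
          · rw [h4, hso]
            exact h5
          · exact absurd rfl h5
        · exact absurd hso h4
      rw [if_pos hso, if_neg (by omega), if_pos hso]
      omega
    · rw [if_neg hso, if_neg hso]
      split_ifs <;> omega

end Der

section Main

variable {O Y C Γ k : Type} [DecidableEq O] [Group Γ] [MulAction Γ O] [MulAction Γ C] [CommRing k]
variable {S : Sys O Y C}

private theorem rcf_mul {n m p : Type} [Fintype m] (a : Matrix n m (U Γ k S)) (b : Matrix m p (U Γ k S)) :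
    rcf (a * b) = rcf a * rcf b :=
  Matrix.map_mul (f := (U Γ k S).subtype)

private theorem rcf_one {n : Type} [DecidableEq n] :
    rcf (1 : Matrix n n (U Γ k S)) = 1 :=
  Matrix.map_one (U Γ k S).subtype (map_zero _) (map_one _)

theorem rcf_blocks {n m : Type} (a : Matrix n n (U Γ k S)) (b : Matrix m m (U Γ k S)) :
    rcf (fromBlocks a 0 0 b) = fromBlocks (rcf a) 0 0 (rcf b) := by
  refine Matrix.ext fun i j => ?_
  rcases i with i | i <;> rcases j with j | j <;> rfl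

theorem rcf_ex (h : O →₀ ℕ) {n : Type} [DecidableEq n]
    (r : Matrix n n (U Γ k (S.der 1 h))) (i j : n) :
    rcf (Ex (eps Γ k S 1 h) r) i j = (1 : Matrix n n (RCF Y (MonoidAlgebra k Γ))) i j +
      push Subtype.val_injective (rcf r i j - (1 : Matrix n n
        (RCF {y : Y // (S.F h y).card = 1} (MonoidAlgebra k Γ))) i j) := by
  have h1 : ∀ (S' : Sys O Y C), ((1 : Matrix n n (U Γ k S')) i j).1 =
      (1 : Matrix n n (RCF Y (MonoidAlgebra k Γ))) i j := fun S' =>
    congrFun (congrFun (rcf_one (S := S')) i) j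
  have h2 : ((1 : Matrix n n (U Γ k (S.der 1 h))) i j).1 =
      (1 : Matrix n n (RCF {y : Y // (S.F h y).card = 1} (MonoidAlgebra k Γ))) i j :=
    congrFun (congrFun (rcf_one (S := S.der 1 h)) i) j
  rw [← h1 S, ← h2]
  rfl

theorem ent_one_ne {Z A n : Type} [Ring A] [DecidableEq n] {i j : n} {y x : Z} (hyx : y ≠ x) :
    ent ((1 : Matrix n n (RCF Z A)) i j) y x = 0 := by
  classical
  by_cases hij : i = j
  · subst hij
    rw [one_apply_eq, ent_one, if_neg hyx]
  · rw [one_apply_ne hij, ent_zero]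

theorem pull_ex (h : O →₀ ℕ) {n : Type} [DecidableEq n]
    (r : Matrix n n (U Γ k (S.der 1 h))) (i j : n) :
    pull Subtype.val_injective (rcf (Ex (eps Γ k S 1 h) r) i j) = rcf r i j := by
  classical
  refine ent_ext fun y x => ?_
  rw [ent_pull, rcf_ex, ent_add, ent_push, ent_sub]
  have h1 : ent ((1 : Matrix n n (RCF Y (MonoidAlgebra k Γ))) i j) y.1 x.1 =
      ent ((1 : Matrix n n (RCF {y : Y // (S.F h y).card = 1} (MonoidAlgebra k Γ))) i j) y x := by
    by_cases hij : i = j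
    · subst hij
      rw [one_apply_eq, one_apply_eq, ent_one, ent_one]
      exact if_congr Subtype.val_injective.eq_iff rfl rfl
    · rw [one_apply_ne hij, one_apply_ne hij, ent_zero, ent_zero]
  rw [h1]
  abel

theorem pull_sub {Z Z' A : Type} [Ring A] {ι : Z' → Z} (hι : Function.Injective ι)
    (a b : RCF Z A) : pull hι (a - b) = pull hι a - pull hι b := by
  refine ent_ext fun y x => ?_
  rw [ent_sub, ent_pull, ent_pull, ent_pull, ent_sub]

theorem cg_fin {m n : Type} {a b : Matrix m n (U Γ k S)} (h : Cg (J Γ k S 0) a b) :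
    Cg (Jfin Y (MonoidAlgebra k Γ)) (rcf a) (rcf b) := fun i j => mem_J_zero.1 (h i j)

theorem cg_of_fin {m n : Type} {a b : Matrix m n (U Γ k S)}
    (h : Cg (Jfin Y (MonoidAlgebra k Γ)) (rcf a) (rcf b)) : Cg (J Γ k S 0) a b :=
  fun i j => mem_J_zero.2 (h i j)

/-- The shifts of the derived system. -/
theorem exists_der_shift [Nontrivial k] (h : O →₀ ℕ) {m : Type} [DecidableEq m]
    (r : Matrix m m (U Γ k (S.der 1 h))) (ρ : m → Option (Bool × (ℕ ↪ Y))) (hρ : Rys S ρ)
    (hr : Cg (Jfin Y (MonoidAlgebra k Γ)) (rcf (Ex (eps Γ k S 1 h) r))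
      (dgO (MonoidAlgebra k Γ) ρ)) :
    ∃ ρ' : m → Option (Bool × (ℕ ↪ {y : Y // (S.F h y).card = 1})), Rys (S.der 1 h) ρ' ∧
      Cg (Jfin {y : Y // (S.F h y).card = 1} (MonoidAlgebra k Γ)) (rcf r)
        (dgO (MonoidAlgebra k Γ) ρ') := by
  classical
  have hex : ∀ l : m, ∃ q : Option (Bool × (ℕ ↪ {y : Y // (S.F h y).card = 1})),
      (∀ b ρ, q = some (b, ρ) → IsRay (S.der 1 h) ρ) ∧
      pull Subtype.val_injective (shO (MonoidAlgebra k Γ) (ρ l)) -
        shO (MonoidAlgebra k Γ) q ∈ Jfin {y : Y // (S.F h y).card = 1} (MonoidAlgebra k Γ) := by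
    intro l
    rcases hl : ρ l with _ | ⟨b, σ⟩
    · refine ⟨none, fun b ρ h0 => absurd h0 (by simp), ?_⟩
      change pull Subtype.val_injective (1 : RCF Y (MonoidAlgebra k Γ)) - 1 ∈ _
      rw [pull_one, sub_self]
      exact Ideal.zero_mem _
    · have h1 := hr l l
      rw [dgO, diagonal_apply_eq, hl] at h1
      obtain ⟨N, hN⟩ := tail_exists (ι := fun y : {y : Y // (S.F h y).card = 1} => y.1) b σ
        (rcf (Ex (eps Γ k S 1 h) r) l l) (fun y x hyx hne => by
          rw [rcf_ex, ent_add, ent_one_ne hyx, zero_add] at hne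
          obtain ⟨y', x', e1, e2, _⟩ := ent_push_ne _ hne
          exact ⟨⟨y', e1⟩, ⟨x', e2⟩⟩) h1
      choose τ hτ using hN
      have hτi : Function.Injective τ := fun a b' hab => by
        have h2 : σ (a + N) = σ (b' + N) := by rw [← hτ, ← hτ, hab]
        have := σ.injective h2
        omega
      refine ⟨some (b, ⟨τ, hτi⟩), fun b' ρ' h0 => ?_, ?_⟩
      · have h2 : ρ' = ⟨τ, hτi⟩ := ((Prod.ext_iff.1 (Option.some_injective _ h0)).2).symm
        subst h2
        refine isRay_tail (hρ l b σ hl) (N := N) (fun n => ?_) _ fun n => hτ n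
        rw [← hτ n]
        exact (τ n).2
      · exact shO_tail Subtype.val_injective b σ N ⟨τ, hτi⟩ fun n => hτ n
  choose ρ' hρ' using hex
  refine ⟨ρ', fun l b σ hl => (hρ' l).1 b σ hl, fun i j => ?_⟩
  have h1 := pull_fin (Subtype.val_injective (p := fun y => (S.F h y).card = 1)) (hr i j)
  rw [pull_sub, pull_ex] at h1
  have h2 : pull Subtype.val_injective (dgO (MonoidAlgebra k Γ) ρ i j) -
      dgO (MonoidAlgebra k Γ) ρ' i j ∈
        Jfin {y : Y // (S.F h y).card = 1} (MonoidAlgebra k Γ) := by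
    by_cases hij : i = j
    · subst hij
      rw [dgO, dgO, diagonal_apply_eq, diagonal_apply_eq]
      exact (hρ' i).2
    · rw [dgO, dgO, diagonal_apply_ne _ hij, diagonal_apply_ne _ hij]
      refine Ideal.sub_mem _ (pull_fin _ (Ideal.zero_mem _)) (Ideal.zero_mem _)
  have h3 := Ideal.add_mem _ h1 h2
  rwa [sub_add_sub_cancel] at h3

end Main

/-- `triv` of the extension theorem at `f = 1`. -/
theorem triv1 (hidx : S_idx) (hbal : S_bal) (hspe : S_spe) : S_triv1 := by
  classical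
  intro O Y C Γ k K _ _ _ _ _ _ _ S κ hκ h n m _ _ _ _ w r x hw hr hx cx e
  obtain ⟨ρ, hw1, hw2, hρ, cw⟩ := hw
  -- `Ex r` is a diagonal matrix of shifts up to a finite matrix
  have hρ1 : Rys S (Sum.elim (fun _ : n => none) ρ) := by
    rintro (l | l) b σ hl
    · exact absurd hl (by simp)
    · exact hρ l b σ hl
  have c1 : Cg (Jfin Y (MonoidAlgebra k Γ)) (rcf (Ex (eps Γ k S 1 h) r))
      (dgO (MonoidAlgebra k Γ) (Sum.elim (fun _ : n => none) ρ)) := by
    have h1 : Cg (J Γ k S 0) (Ex (eps Γ k S 1 h) r) (Ex (eps Γ k S 1 h) r * x) := by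
      have := (cx.mul_left (Ex (eps Γ k S 1 h) r)).symm
      rwa [Matrix.mul_one] at this
    refine (cg_fin h1).trans ?_
    rw [← e, rcf_blocks]
    rintro (i | i) (j | j)
    · by_cases hij : i = j
      · subst hij
        rw [dgO, diagonal_apply_eq, fromBlocks_apply₁₁, rcf_one, one_apply_eq]
        change (1 : RCF Y (MonoidAlgebra k Γ)) - 1 ∈ _
        rw [sub_self]
        exact Ideal.zero_mem _
      · rw [dgO, diagonal_apply_ne _ (by simpa using hij), fromBlocks_apply₁₁, rcf_one,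
          one_apply_ne hij, sub_self]
        exact Ideal.zero_mem _
    · rw [dgO, diagonal_apply_ne _ (by simp), fromBlocks_apply₁₂, Matrix.zero_apply, sub_self]
      exact Ideal.zero_mem _
    · rw [dgO, diagonal_apply_ne _ (by simp), fromBlocks_apply₂₁, Matrix.zero_apply, sub_self]
      exact Ideal.zero_mem _
    · have h2 := cw i j
      rw [fromBlocks_apply₂₂]
      by_cases hij : i = j
      · subst hij
        rw [dgO, diagonal_apply_eq] at h2 ⊢
        exact h2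
      · rw [dgO, diagonal_apply_ne _ hij] at h2
        rw [dgO, diagonal_apply_ne _ (by simpa using hij)]
        exact h2
  -- the special matrix of the derived system
  obtain ⟨ρ', hρ', c2⟩ := exists_der_shift h r _ hρ1 c1
  obtain ⟨m', hm1, hm2, hm3, c3⟩ := hbal _ _ _ Γ k (S.der 1 h) (n ⊕ m) ρ' hρ'
    (hidx _ _ _ Γ k (S.der 1 h) (n ⊕ m) ρ' r hρ' hr c2)
  have c4 : Cg (J Γ k (S.der 1 h) 0) r m' := cg_of_fin (c2.trans c3.symm)
  obtain ⟨_, _, hm5, _⟩ := hspe _ _ _ _ _ S 1 h (n ⊕ m) m' ⟨ρ', hm1, hm2, hm3, c3⟩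
  obtain ⟨ri, r1, r2⟩ : ∃ ri, r * ri = 1 ∧ ri * r = 1 := by
    obtain ⟨u, rfl⟩ := hr
    exact ⟨_, u.mul_inv, u.inv_mul⟩
  obtain ⟨mi, m1, m2⟩ : ∃ mi, m' * mi = 1 ∧ mi * m' = 1 := by
    obtain ⟨u, rfl⟩ := hm1
    exact ⟨_, u.mul_inv, u.inv_mul⟩
  have hW : IsUnit (fromBlocks (1 : Matrix n n (U Γ k S)) 0 0 w) := by
    rw [e]
    exact (ex_unit _ hr).mul hx
  have hri : IsUnit ri := ⟨⟨ri, r, r2, r1⟩, rfl⟩
  have hmi : IsUnit mi := ⟨⟨mi, m', m2, m1⟩, rfl⟩
  -- `x = A * B`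
  have eA : Ex (eps Γ k S 1 h) (ri * m') * (Ex (eps Γ k S 1 h) mi * fromBlocks 1 0 0 w) = x := by
    rw [← Matrix.mul_assoc, ← ex_mul, Matrix.mul_assoc ri m' mi, m1, Matrix.mul_one, e,
      ← Matrix.mul_assoc, ← ex_mul, r2, ex_one, Matrix.one_mul]
  have hA : IsUnit (ri * m') := hri.mul hm1
  have cA : Cg (J Γ k (S.der 1 h) 0) (ri * m') 1 := by
    have := (c4.mul_left ri).symm
    rwa [r2] at this
  have cA' : Cg (J Γ k S 0) (Ex (eps Γ k S 1 h) (ri * m')) 1 := fun i j => by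
    rw [Ex, Matrix.add_apply, add_sub_cancel_left]
    refine mem_J_zero.2 ?_
    change push Subtype.val_injective ((ri * m' - 1) i j).1 ∈ _
    have h1 := mem_J_zero.1 (cA i j)
    exact push_fin _ h1
  have hB : IsUnit (Ex (eps Γ k S 1 h) mi * fromBlocks 1 0 0 w) := (ex_unit _ hmi).mul hW
  have cB : Cg (J Γ k S 0) (Ex (eps Γ k S 1 h) mi * fromBlocks 1 0 0 w) 1 := by
    have h1 := (cA'.mul_right (Ex (eps Γ k S 1 h) mi * fromBlocks 1 0 0 w)).symm
    rw [eA, Matrix.one_mul] at h1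
    exact h1.trans cx
  have mB : Mon (rcf (Ex (eps Γ k S 1 h) mi * fromBlocks 1 0 0 w)) := by
    obtain ⟨g1, g2, g3, g4, _⟩ := monc Y k Γ
    rw [rcf_mul]
    refine g2 _ _ _ (g3 _ _ _ hm5 ?_ ?_) ?_
    · rw [← rcf_mul, ← ex_mul, m1, ex_one, rcf_one]
    · rw [← rcf_mul, ← ex_mul, m2, ex_one, rcf_one]
    · rw [rcf_blocks, rcf_one]
      exact g4 _ _ _ _ (g1 _) hw2
  rw [← eA, κ.mul _ _ (ex_unit _ hA) hB cA' cB, hκ.1 1 h le_rfl _ _ hA cA, hκ.2 _ _ hB cB mB,
    mul_one]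

end Pool.Agent.CC
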