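import Pool.Agent.Lib.MP_8f66f0_al_CC.End.KR

/-!
# Theorem CC: uniqueness of relative invariants
-/

set_option autoImplicit false

namespace Pool.Agent.CC

open Pool.Agent.Wald Matrix

section

variable {R S : Type} [Ring R] [Ring S]

private theorem uni_ex_mul (ε : S →ₙ+* R) {n : Type} [Fintype n] [DecidableEq n]
    (x y : Matrix n n S) : Ex ε (x * y) = Ex ε x * Ex ε y := by
  have hmap : ∀ a b : Matrix n n S, (a * b).map ε = a.map ε * b.map ε := by
    intro a b
    ext i j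
    simp only [Matrix.map_apply, Matrix.mul_apply, map_sum, map_mul]
  have hadd : ∀ a b : Matrix n n S, (a + b).map ε = a.map ε + b.map ε := by
    intro a b
    ext i j
    simp only [Matrix.map_apply, Matrix.add_apply, map_add]
  have h1 : x * y - 1 = (x - 1) + (y - 1) + (x - 1) * (y - 1) := by
    rw [Matrix.sub_mul, Matrix.mul_sub, Matrix.mul_one, Matrix.one_mul]
    abel
  unfold Ex
  rw [h1, hadd, hadd, hmap, Matrix.add_mul, Matrix.mul_add, Matrix.mul_add, Matrix.one_mul,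
    Matrix.mul_one, Matrix.one_mul]
  abel

private theorem uni_ex_one (ε : S →ₙ+* R) {n : Type} [DecidableEq n] :
    Ex ε (1 : Matrix n n S) = 1 := by
  unfold Ex
  rw [sub_self]
  ext i j
  simp

private theorem uni_ex_unit (ε : S →ₙ+* R) {n : Type} [Fintype n] [DecidableEq n]
    {x : Matrix n n S} (hx : IsUnit x) : IsUnit (Ex ε x) := by
  obtain ⟨u, rfl⟩ := hx
  refine ⟨⟨Ex ε u.1, Ex ε u.2, ?_, ?_⟩, rfl⟩
  · rw [← uni_ex_mul, u.val_inv, uni_ex_one]
  · rw [← uni_ex_mul, u.inv_val, uni_ex_one]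

private theorem uni_ex_cg (ε : S →ₙ+* R) (J : Ideal R) (h : ∀ x, ε x ∈ J) {n : Type}
    [DecidableEq n] (x : Matrix n n S) : Cg J (Ex ε x) 1 := by
  intro i j
  unfold Ex
  rw [Matrix.add_apply, add_sub_cancel_left]
  exact h _

private theorem uni_ex_blocks (ε : S →ₙ+* R) {n m : Type} [DecidableEq n] [DecidableEq m]
    (A : Matrix n n S) (B : Matrix n m S) (D : Matrix m m S) :
    Ex ε (fromBlocks A B 0 D) = fromBlocks (Ex ε A) (B.map ε) 0 (Ex ε D) := by
  unfold Ex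
  ext (i | i) (j | j) <;> simp [Matrix.one_apply]

private theorem uni_ex_sub (ε : S →ₙ+* R) {n m : Type} [DecidableEq n] [DecidableEq m]
    (e : n ≃ m) (A : Matrix n n S) :
    Ex ε (A.submatrix e.symm e.symm) = (Ex ε A).submatrix e.symm e.symm := by
  unfold Ex
  ext i j
  simp [Matrix.one_apply]

/-- The pull back of an invariant. -/
private def uni_pull {K : Type} [CommGroup K] (J : Ideal R) (κ : KR R J K) (ε : S →ₙ+* R)
    (h : ∀ x, ε x ∈ J) : K1Fun S K where
  f z := κ.f (Ex ε z)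
  mul A B hA hB := by
    rw [uni_ex_mul]
    exact κ.mul _ _ (uni_ex_unit ε hA) (uni_ex_unit ε hB) (uni_ex_cg ε J h _) (uni_ex_cg ε J h _)
  reindex e A hA := by
    rw [uni_ex_sub]
    exact κ.reindex e _ (uni_ex_unit ε hA) (uni_ex_cg ε J h _)
  tri A B D hA hD := by
    rw [uni_ex_blocks]
    refine κ.tri _ _ _ (uni_ex_unit ε hA) (uni_ex_unit ε hD) (uni_ex_cg ε J h _) ?_
      (uni_ex_cg ε J h _)
    intro i j
    rw [Matrix.zero_apply, sub_zero]
    exact h _

private theorem uni_mul_cg {J : Ideal R} {n : Type} [Fintype n]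
    (a x y : Matrix n n R) (h : Cg J x y) : Cg J (a * x) (a * y) := by
  intro i j
  rw [← Matrix.sub_apply, ← Matrix.mul_sub, Matrix.mul_apply]
  exact J.sum_mem fun k _ => J.mul_mem_left _ (h k j)

end

theorem uni : S_uni := by
  classical
  intro R _ J' J _ _ β _ T _ I ε M hL hS hG hF K _ κ hk1 hk2 n _ _ z hz hcz
  -- a common index
  have hdec : ∀ p : n × n, ∃ b, ∃ c : T b,
      (z p.1 p.2 - (1 : Matrix n n R) p.1 p.2) - ε b c ∈ J' := fun p => hL.dec _ (hcz p.1 p.2)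
  choose bb cc hbc using hdec
  have : Nonempty β := ⟨(hL.dec 0 J.zero_mem).choose⟩
  have : IsDirectedOrder β := ⟨fun b c => by
    obtain ⟨d, h1, h2⟩ := hL.dir b c
    exact ⟨d, h1, h2⟩⟩
  obtain ⟨b, hb⟩ := Finset.exists_le (Finset.univ.image bb)
  have hle : ∀ p, bb p ≤ b := fun p => hb _ (Finset.mem_image.2 ⟨p, Finset.mem_univ _, rfl⟩)
  have hmono : ∀ p : n × n, ∃ c' : T b, ε (bb p) (cc p) - ε b c' ∈ J' := fun p =>
    hL.mono _ _ (hle p) _
  choose cb hcb using hmono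
  set z' : Matrix n n (T b) := 1 + Matrix.of fun i j => cb (i, j) with hz'
  have hcz' : Cg J' z (Ex (ε b) z') := by
    intro i j
    have h1 : Ex (ε b) z' i j = (1 : Matrix n n R) i j + ε b (cb (i, j)) := by
      unfold Ex
      rw [hz', add_sub_cancel_left]
      rfl
    rw [h1]
    have h2 := J'.add_mem (hbc (i, j)) (hcb (i, j))
    have h3 : z i j - ((1 : Matrix n n R) i j + ε b (cb (i, j))) =
        z i j - (1 : Matrix n n R) i j - ε (bb (i, j)) (cc (i, j)) +
          (ε (bb (i, j)) (cc (i, j)) - ε b (cb (i, j))) := by abel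
    rw [h3]
    exact h2
  obtain ⟨m, _, _, w, r, hw, hr, hcr⟩ := hG b n z z' hz hcz hcz'
  obtain ⟨hwu, hwc⟩ := hS.unit m w hw
  have hZu : IsUnit (fromBlocks z 0 0 w) := K1Fun.isUnit_tri 0 hz hwu
  obtain ⟨u, hu⟩ := uni_ex_unit (ε b) hr
  set x : Matrix (n ⊕ m) (n ⊕ m) R := u.inv * fromBlocks z 0 0 w with hx
  have huu : IsUnit u.inv := ⟨u⁻¹, rfl⟩
  have hxu : IsUnit x := huu.mul hZu
  have hxc : Cg J' x 1 := by
    have h1 := uni_mul_cg u.inv _ _ hcr
    rw [← hu, u.inv_val] at h1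
    exact h1
  have hxc' : Cg J x 1 := fun i j => hL.le (hxc i j)
  have hZ : fromBlocks z 0 0 w = Ex (ε b) r * x := by
    rw [hx, ← Matrix.mul_assoc, ← hu, u.val_inv, Matrix.one_mul]
  have e1 : κ.f (fromBlocks z 0 0 w) = κ.f z * κ.f w := by
    refine κ.tri z 0 w hz hwu hcz ?_ hwc
    intro i j
    rw [sub_self]
    exact J.zero_mem
  have e2 : κ.f (Ex (ε b) r) = 1 := hF b K (uni_pull J κ (ε b) (hL.mem b)) _ r hr
  have e3 : κ.f (Ex (ε b) r * x) = κ.f (Ex (ε b) r) * κ.f x :=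
    κ.mul _ _ (uni_ex_unit (ε b) hr) hxu (uni_ex_cg (ε b) J (hL.mem b) _) hxc'
  rw [← hZ, e1, e2, hk1 _ x hxu hxc, hk2 _ w hw, mul_one, mul_one] at e3
  exact e3

end Pool.Agent.CC
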