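import Pool.Agent.Lib.MP_8f66f0_al_CC.Geo.Basic
import Pool.Agent.Lib.MP_8f66f0_al_CC.Sys.Defs

/-!
# Theorem CC: the system of a cube complex

The objects are the pairs `(v, n)`, `v` a vertex and `n` a labelling of the half spaces `D b v` by natural
numbers (extended by `0`); the slots are the `(h, n h)`, `h ∈ D b v`. `real b v = (v, 0)`.
-/

set_option autoImplicit false

namespace Pool.Agent.CC

open scoped Classical

variable {V C : Type} (X : Med V) (b : V)

/-- The objects of the system of a cube complex. -/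
def YX : Type := {p : V × (Set V → ℕ) // ∀ h, h ∉ X.D b p.1 → p.2 h = 0}

/-- `D b v` as a finite set. -/
noncomputable def DF (v : V) : Finset (Set V) := (X.D_fin b v).toFinset

theorem mem_DF {v : V} {h : Set V} : h ∈ DF X b v ↔ h ∈ X.D b v := Set.Finite.mem_toFinset _

/-- The slots. -/
noncomputable def AX (y : YX X b) : Finset (Set V × ℕ) :=
  (DF X b y.1.1).image fun h => (h, y.1.2 h)

theorem mem_AX {y : YX X b} {s : Set V × ℕ} :
    s ∈ AX X b y ↔ s.1 ∈ X.D b y.1.1 ∧ s.2 = y.1.2 s.1 := by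
  rw [AX, Finset.mem_image]
  constructor
  · rintro ⟨h, h1, rfl⟩
    exact ⟨(mem_DF X b).1 h1, rfl⟩
  · rintro ⟨h1, h2⟩
    exact ⟨s.1, (mem_DF X b).2 h1, Prod.ext rfl h2.symm⟩

theorem AX_inj {y y' : YX X b} (h : AX X b y = AX X b y') (hv : y.1.1 = y'.1.1) : y = y' := by
  refine Subtype.ext (Prod.ext hv (funext fun a => ?_))
  by_cases ha : a ∈ X.D b y.1.1
  · have h1 : (a, y.1.2 a) ∈ AX X b y := (mem_AX X b).2 ⟨ha, rfl⟩
    rw [h] at h1
    exact ((mem_AX X b).1 h1).2
  · rw [y.2 a ha, y'.2 a (by rwa [← hv])]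

/-- The system of a cube complex with base point `b`, for a labelling of the vertices. -/
noncomputable def cubeSys (lab : V → C) : Sys (Set V) (YX X b) C where
  A := AX X b
  inj := by
    intro y s hs t ht hst
    rw [mem_AX] at hs ht
    exact Prod.ext hst (by rw [hs.2, ht.2, hst])
  fin := by
    intro B
    have h1 : ({v | X.D b v ⊆ ((B.image Prod.fst : Finset (Set V)) : Set (Set V))} ×ˢ
        ((B.powerset : Finset (Finset (Set V × ℕ))) : Set (Finset (Set V × ℕ)))).Finite :=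
      (X.D_fin_sub b (Finset.finite_toSet _)).prod (Finset.finite_toSet _)
    refine Set.Finite.of_finite_image (f := fun y : YX X b => (y.1.1, AX X b y))
      (h1.subset ?_) ?_
    · rintro _ ⟨y, hy, rfl⟩
      refine ⟨fun a ha => ?_, Finset.mem_coe.2 (Finset.mem_powerset.2 hy)⟩
      exact Finset.mem_coe.2 (Finset.mem_image.2 ⟨(a, y.1.2 a), hy ((mem_AX X b).2 ⟨ha, rfl⟩),
        rfl⟩)
    · intro y _ y' _ h
      exact AX_inj X b (Prod.ext_iff.1 h).2 (Prod.ext_iff.1 h).1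
  lab y := lab y.1.1
  re φ y := ⟨(y.1.1, fun a => if a ∈ X.D b y.1.1 then φ a (y.1.2 a) else 0), fun a ha => if_neg ha⟩
  A_re := by
    intro φ y
    ext s
    rw [mem_AX, Finset.mem_image]
    constructor
    · rintro ⟨h1, h2⟩
      refine ⟨(s.1, y.1.2 s.1), (mem_AX X b).2 ⟨h1, rfl⟩, Prod.ext rfl ?_⟩
      rw [h2]
      exact (if_pos h1).symm
    · rintro ⟨t, ht, rfl⟩
      rw [mem_AX] at ht
      refine ⟨ht.1, ?_⟩
      change φ t.1 t.2 = if t.1 ∈ X.D b y.1.1 then φ t.1 (y.1.2 t.1) else 0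
      rw [if_pos ht.1, ht.2]
  lab_re _ _ := rfl
  re_re := by
    intro φ ψ y
    refine Subtype.ext (Prod.ext rfl (funext fun a => ?_))
    change (if a ∈ X.D b y.1.1 then φ a (if a ∈ X.D b y.1.1 then ψ a (y.1.2 a) else 0) else 0) =
      if a ∈ X.D b y.1.1 then φ a (ψ a (y.1.2 a)) else 0
    by_cases ha : a ∈ X.D b y.1.1
    · simp only [if_pos ha]
    · simp only [if_neg ha]
  re_congr := by
    intro φ ψ y h
    refine Subtype.ext (Prod.ext rfl (funext fun a => ?_))
    change (if a ∈ X.D b y.1.1 then φ a (y.1.2 a) else 0) =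
      if a ∈ X.D b y.1.1 then ψ a (y.1.2 a) else 0
    by_cases ha : a ∈ X.D b y.1.1
    · rw [if_pos ha, if_pos ha]
      exact h (a, y.1.2 a) ((mem_AX X b).2 ⟨ha, rfl⟩)
    · rw [if_neg ha, if_neg ha]
  re_id := by
    intro y
    refine Subtype.ext (Prod.ext rfl (funext fun a => ?_))
    change (if a ∈ X.D b y.1.1 then y.1.2 a else 0) = y.1.2 a
    by_cases ha : a ∈ X.D b y.1.1
    · rw [if_pos ha]
    · rw [if_neg ha, y.2 a ha]

/-- The real object over a vertex. -/
def rea (v : V) : YX X b := ⟨(v, fun _ => 0), fun _ _ => rfl⟩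

theorem rea_inj : Function.Injective (rea X b) := fun _ _ h =>
  congrArg (fun y : YX X b => y.1.1) h

theorem F_rea (lab : V → C) (h : Set V →₀ ℕ) (v : V) (a : Set V) :
    a ∈ (cubeSys X b lab).F h (rea X b v) ↔ a ∈ X.D b v ∧ h a = 0 := by
  rw [Sys.mem_F]
  constructor
  · rintro ⟨n, h1, h2⟩
    have h3 := (mem_AX X b).1 h1
    refine ⟨h3.1, ?_⟩
    have : n = 0 := h3.2
    omega
  · rintro ⟨h1, h2⟩
    exact ⟨0, (mem_AX X b).2 ⟨h1, rfl⟩, le_of_eq h2⟩

theorem F_zero (lab : V → C) (y : YX X b) (a : Set V) :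
    a ∈ (cubeSys X b lab).F 0 y ↔ a ∈ X.D b y.1.1 := by
  rw [Sys.mem_F]
  constructor
  · rintro ⟨n, h1, _⟩
    exact ((mem_AX X b).1 h1).1
  · intro h1
    exact ⟨y.1.2 a, (mem_AX X b).2 ⟨h1, rfl⟩, Nat.zero_le _⟩

theorem card_A {N : ℕ} (hN : X.Dim N) (lab : V → C) (y : YX X b) :
    ((cubeSys X b lab).A y).card ≤ N := by
  have h1 : ((cubeSys X b lab).A y).card ≤ (DF X b y.1.1).card := Finset.card_image_le
  have h2 : (DF X b y.1.1).card = (X.D b y.1.1).ncard :=
    (Set.ncard_eq_toFinset_card _ (X.D_fin b _)).symm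
  exact h1.trans (h2.le.trans (X.D_ncard hN b _))

end Pool.Agent.CC
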