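import Pool.Agent.Lib.MP_8f66f0_al_CC.End.Spec
import Pool.Agent.Lib.MP_8f66f0_al_CC.End.Cube
import Pool.Agent.Lib.MP_8f66f0_al_CC.Geo.Hom
import Pool.Agent.Lib.MP_8f66f0_al_CC.Geo.VT
import Pool.Agent.Lib.MP_8f66f0_al_Tree.SpecF

/-!
# Theorem CC: statements of the homotopy on `U`, of the end (section 6) and of the final induction
-/

set_option autoImplicit false

namespace Pool.Agent.CC

open Pool.Agent.Wald Pool.Agent.TQ Pool.Agent.Ind Pool.Agent.WaldL Pool.Agent.FH Pool.Agent.Hier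
  Pool.Agent.TreeC Matrix
open scoped Pointwise Polynomial Classical

/-- Output of Lemma E: the lifting hypotheses hold over the Euclidean domains `L` and over `L[t]`. -/
def S_E : Prop :=
  ∀ (O Y C Γ : Type) [DecidableEq O] [Group Γ] [MulAction Γ O] [MulAction Γ C] (S : Sys O Y C),
    (∀ (L : Type) [CommRing L] [IsDomain L], IsEuc L → SF Γ L S ∧ SF Γ L[X] S) →
    ∀ (L : Type) [CommRing L] [IsDomain L], IsEuc L → LftD Γ L S ∧ LftD Γ L[X] S

/-- The coefficientwise homomorphism. -/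
def IsBc {O Y C Γ k k' : Type} [DecidableEq O] [Group Γ] [MulAction Γ O] [MulAction Γ C]
    [CommRing k] [CommRing k'] (S : Sys O Y C) (φ : k →+* k') (F : U Γ k S →+* U Γ k' S) : Prop :=
  ∀ (z : U Γ k S) g y' y, cf (F z).1 g y' y = φ (cf z.1 g y' y)

/-- Base change. -/
def S_bc : Prop :=
  ∀ (O Y C Γ k k' : Type) [DecidableEq O] [Group Γ] [MulAction Γ O] [MulAction Γ C] [CommRing k]
    [CommRing k'] (S : Sys O Y C) (φ : k →+* k'), ∃ F : U Γ k S →+* U Γ k' S, IsBc S φ F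

/-- Homotopy invariance for the group algebra: `K₁(L[Γ]) → K₁(L[t][Γ])` is onto. -/
def S_nk : Prop :=
  ∀ (Γ L K : Type) [Group Γ] [CommRing L] [IsDomain L] [CommGroup K], SS Γ → IsEuc L →
    ∀ (κ : K1Fun (MonoidAlgebra L Γ) K) (n : Type) [Fintype n] [DecidableEq n]
      (A : Matrix n n (MonoidAlgebra L[X] Γ)), IsUnit A →
      κ.f (A.map (MonoidAlgebra.mapRingHom Γ (Polynomial.evalRingHom 0))) =
        κ.f (A.map (MonoidAlgebra.mapRingHom Γ (Polynomial.evalRingHom 1)))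

/-- `κU` extends the invariant `κ` of the finite matrices. -/
def Exk {O Y C Γ L K : Type} [DecidableEq O] [Group Γ] [MulAction Γ O] [MulAction Γ C]
    [CommRing L] [CommGroup K] (S : Sys O Y C) (κ : K1Fun (MonoidAlgebra L Γ) K)
    (κU : K1Fun (U Γ L S) K) : Prop :=
  ∀ (n : Type) [Fintype n] [DecidableEq n] (z : Matrix n n (U Γ L S)) (s : Finset Y), IsUnit z →
    Spp s (rcf z) → κU.f z = κ.f (blk s (rcf z))

/-- M2 for `K1Fun`s (`S_M2` with `f = N`, `J N = ⊤`, and `S_ini`). -/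
def S_M2K : Prop :=
  ∀ (O Y C Γ L K : Type) [DecidableEq O] [Group Γ] [MulAction Γ O] [MulAction Γ C] [CommRing L]
    [IsDomain L] [CommGroup K] (S : Sys O Y C) (N : ℕ) (κ : K1Fun (MonoidAlgebra L Γ) K), KU κ →
    IsEuc L → (∀ y, (S.A y).card ≤ N) →
    (∀ (y : Y) (F : Finset O), F.Nonempty → F ⊆ S.F 0 y → ∀ H : Subgroup Γ,
      (∀ g ∈ H, g • F = F) → (∀ g ∈ H, g • S.lab y = S.lab y) → KS H) →
    ∃ κU : K1Fun (U Γ L S) K, Exk S κ κU ∧
      ∀ (n : Type) [Fintype n] [DecidableEq n] (w : Matrix n n (U Γ L S)), Sp S n w → κU.f w = 1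

/-- M1 for `K1Fun`s. -/
def S_M1K : Prop :=
  ∀ (O Y C Γ k : Type) [DecidableEq O] [Group Γ] [MulAction Γ O] [MulAction Γ C] [CommRing k]
    [Nontrivial k] (S : Sys O Y C) (N : ℕ), (∀ y, (S.A y).card ≤ N) → LftD Γ k S →
    ∀ (K : Type) [CommGroup K] (κ : K1Fun (U Γ k S) K),
    (∀ (n : Type) [Fintype n] [DecidableEq n] (z : Matrix n n (U Γ k S)), IsUnit z →
      Cg (J Γ k S 0) z 1 → κ.f z = 1) →
    (∀ (n : Type) [Fintype n] [DecidableEq n] (w : Matrix n n (U Γ k S)), Sp S n w →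
      κ.f w = 1) →
    ∀ (n : Type) [Fintype n] [DecidableEq n] (z : Matrix n n (U Γ k S)), IsUnit z → κ.f z = 1

/-- The homotopy on `U`. (`S_M1K` over `L[t]` for the quotient of the two invariants; the finite matrices
by `S_nk`.) -/
def S_hom : Prop :=
  ∀ (O Y C Γ L K : Type) [DecidableEq O] [Group Γ] [MulAction Γ O] [MulAction Γ C] [CommRing L]
    [IsDomain L] [CommGroup K] (S : Sys O Y C) (N : ℕ) (κ : K1Fun (MonoidAlgebra L Γ) K)
    (κU : K1Fun (U Γ L S) K) (F0 F1 : U Γ L[X] S →+* U Γ L S), SS Γ → IsEuc L →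
    (∀ y, (S.A y).card ≤ N) → LftD Γ L[X] S → Exk S κ κU →
    (∀ (n : Type) [Fintype n] [DecidableEq n] (w : Matrix n n (U Γ L S)), Sp S n w →
      κU.f w = 1) → IsBc S (Polynomial.evalRingHom 0) F0 → IsBc S (Polynomial.evalRingHom 1) F1 →
    ∀ (n : Type) [Fintype n] [DecidableEq n] (z : Matrix n n (U Γ L[X] S)), IsUnit z →
      κU.f (z.map F0) = κU.f (z.map F1)

section Cube

variable {V : Type} (X : Med V) (b : V)

/-- The system without labels. -/
noncomputable abbrev SX : Sys (Set V) (YX X b) Unit := cubeSys X b fun _ => ()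

/-- Forgetting the labels. -/
def S_fl : Prop :=
  ∀ (V C Γ k : Type) [Group Γ] [MulAction Γ V] [MulAction Γ C] [CommRing k] (X : Med V) (b : V)
    (lab : V → C), ∃ i : U Γ k (cubeSys X b lab) →+* U Γ k (SX X b), (∀ z, (i z).1 = z.1) ∧
    (∀ z, i z ∈ J Γ k (SX X b) 0 ↔ z ∈ J Γ k (cubeSys X b lab) 0) ∧
    ∀ (n : Type) [Fintype n] [DecidableEq n] (w : Matrix n n (U Γ k (cubeSys X b lab))),
      Sp (cubeSys X b lab) n w → Sp (SX X b) n (w.map i)

/-- A matrix over the subring of a labelling `lab` with `lab b` fixed by `Γ` and different from all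
other labels: the invariant is the invariant of the entry at `b`. (`S_M1K` for `cubeSys X b lab`.
The row and the column of `rea X b b` vanish outside the diagonal, so `z ↦ z_bb` is a homomorphism.) -/
def S_end1 : Prop :=
  ∀ (V C Γ L K : Type) [Group Γ] [MulAction Γ V] [MulAction Γ C] [CommRing L] [IsDomain L]
    [CommGroup K] (X : Med V) (b : V) (N : ℕ) (lab : V → C) (κ : K1Fun (MonoidAlgebra L Γ) K)
    (κU : K1Fun (U Γ L (SX X b)) K) (i : U Γ L (cubeSys X b lab) →+* U Γ L (SX X b)),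
    X.Dim N → IsEuc L → KU κ → Exk (SX X b) κ κU →
    (∀ (n : Type) [Fintype n] [DecidableEq n] (w : Matrix n n (U Γ L (SX X b))),
      Sp (SX X b) n w → κU.f w = 1) → (∀ z, (i z).1 = z.1) → LftD Γ L (cubeSys X b lab) →
    (∀ g : Γ, g • lab b = lab b) → (∀ v, v ≠ b → lab v ≠ lab b) →
    (∀ v, v ≠ b → KK (MulAction.stabilizer Γ (lab v))) →
    ∀ (n : Type) [Fintype n] [DecidableEq n] (z : Matrix n n (U Γ L (cubeSys X b lab))),
      IsUnit z → κU.f (z.map i) = κ.f (Matrix.of fun p q => ent (z p q).1 (rea X b b) (rea X b b))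

/-- A matrix over the subring of a labelling with stabilizers in `KK` is killed. -/
def S_end0 : Prop :=
  ∀ (V C Γ L K : Type) [Group Γ] [MulAction Γ V] [MulAction Γ C] [CommRing L] [IsDomain L]
    [CommGroup K] (X : Med V) (b : V) (N : ℕ) (lab : V → C) (κ : K1Fun (MonoidAlgebra L Γ) K)
    (κU : K1Fun (U Γ L (SX X b)) K) (i : U Γ L (cubeSys X b lab) →+* U Γ L (SX X b)),
    X.Dim N → IsEuc L → KU κ → Exk (SX X b) κ κU →
    (∀ (n : Type) [Fintype n] [DecidableEq n] (w : Matrix n n (U Γ L (SX X b))),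
      Sp (SX X b) n w → κU.f w = 1) → (∀ z, (i z).1 = z.1) → LftD Γ L (cubeSys X b lab) →
    (∀ v, KK (MulAction.stabilizer Γ (lab v))) →
    ∀ (n : Type) [Fintype n] [DecidableEq n] (z : Matrix n n (U Γ L (cubeSys X b lab))),
      IsUnit z → κU.f (z.map i) = 1

/-- The homomorphism `Φ_t : L[Γ] → U (SX X b; L[t])`, not unital, `x ↦ ∑ x_g Φ_t(g)` on the real
objects. -/
def S_emb : Prop :=
  ∀ (V Γ L : Type) [Group Γ] [MulAction Γ V] [CommRing L] (X : Med V) (b : V)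
    (Φ : Γ → RCF V L[X]), (∀ (g : Γ), ∀ h ∈ X.H, g • h ∈ X.H) → IsPhi X b Φ →
    ∃ P : MonoidAlgebra L Γ →ₙ+* U Γ L[X] (SX X b),
      (∀ x g w v, cf (P x).1 g (rea X b w) (rea X b v) =
        Polynomial.C (x.coeff g) * ent (Φ g) w v) ∧
      ∀ x g y' y, cf (P x).1 g y' y ≠ 0 → ∃ w v, y' = rea X b w ∧ y = rea X b v

/-- `SF` for the systems of a cube complex (`psf_const`, `psf_poly` of `SFt.lean`). -/
def S_sfc : Prop :=
  ∀ (V C Γ : Type) [Group Γ] [MulAction Γ V] [MulAction Γ C] (X : Med V) (b : V) (lab : V → C),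
    (∀ v F, F ⊆ X.D b v → F.Nonempty → ∀ H : Subgroup Γ, (∀ g ∈ H, g • F = F) →
      (∀ g ∈ H, g • lab v = lab v) → KS H) →
    ∀ (L : Type) [CommRing L] [IsDomain L], IsEuc L →
      SF Γ L (cubeSys X b lab) ∧ SF Γ L[X] (cubeSys X b lab)

/-- `K₁` (section 6). For `A` invertible over `L[Γ]`, `z = Ex P A` over `U (SX X b; L[t])`:
`κ A = κU (ev₁ z) = κU (ev₀ z) = 1` by `S_end1` (labels `X.lab b v`), `S_hom`, `S_end0` (labels `v`). -/
def S_kk : Prop :=
  ∀ (V Γ : Type) [Group Γ] [MulAction Γ V] (X : Med V) (b : V) (N : ℕ),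
    (∀ (g : Γ), ∀ h ∈ X.H, g • h ∈ X.H) → X.Dim N → SS Γ →
    (∀ v : V, Hd KS (MulAction.stabilizer Γ v)) →
    (∀ v F, F ⊆ X.D b v → F.Nonempty → Hd KS (MulAction.stabilizer Γ F)) →
    (∀ v, v ≠ b → Hd KS (MulAction.stabilizer Γ (X.lab b v))) → KK Γ

/-- THEOREM CC. -/
def S_CC : Prop :=
  ∀ (Γ V : Type) [Group Γ] [MulAction Γ V] [Nonempty V] (X : Med V) (_ : Act Γ X) (N : ℕ),
    X.Dim N → (∀ v : V, Hd KS (MulAction.stabilizer Γ v)) → Hd KS Γ

end Cube

end Pool.Agent.CC
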