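import Pool.Agent.Lib.MP_8f66f0_al_CC.End.End0
import Pool.Agent.Lib.MP_8f66f0_al_CC.End.Mon

/-!
# Theorem CC: the projection to the base point (section 6)
-/

set_option autoImplicit false

namespace Pool.Agent.CC

open Pool.Agent.Wald Pool.Agent.TQ Pool.Agent.Ind Pool.Agent.WaldL Pool.Agent.FH Pool.Agent.Hier
  Pool.Agent.TreeC Matrix
open scoped Pointwise Polynomial Classical

section

variable {V C Γ L : Type} [Group Γ] [MulAction Γ V] [MulAction Γ C] [CommRing L] {X : Med V}
  {b : V} {lab : V → C}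

theorem eq_rea (h : ∀ v, v ≠ b → lab v ≠ lab b) (y : YX X b) (hy : lab y.1.1 = lab b) :
    y = rea X b b := by
  have h1 : y.1.1 = b := by
    by_contra hc
    exact h _ hc hy
  refine Subtype.ext (Prod.ext h1 (funext fun a => ?_))
  refine y.2 a fun ha => ?_
  rw [h1, X.D_self] at ha
  exact ha

omit [MulAction Γ V] in
theorem end1_cf {z : RCF (YX X b) (MonoidAlgebra L Γ)} {y x : YX X b} (h : ent z y x ≠ 0) :
    ∃ g, cf z g y x ≠ 0 := by
  by_contra hc
  refine h (MonoidAlgebra.ext (Finsupp.ext fun g => ?_))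
  by_contra hg
  exact hc ⟨g, fun h0 => hg (by rw [MonoidAlgebra.coeff_zero]; exact h0)⟩

/-- The column of the base point. -/
theorem end1_col (hb : ∀ g : Γ, g • lab b = lab b) (h : ∀ v, v ≠ b → lab v ≠ lab b)
    (z : U Γ L (cubeSys X b lab)) {y : YX X b} (hy : ent z.1 y (rea X b b) ≠ 0) :
    y = rea X b b := by
  obtain ⟨g, hg⟩ := end1_cf hy
  exact eq_rea h y ((z.2.1 g y _ hg).trans (hb g))

/-- The row of the base point. -/
theorem end1_row (hb : ∀ g : Γ, g • lab b = lab b) (h : ∀ v, v ≠ b → lab v ≠ lab b)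
    (z : U Γ L (cubeSys X b lab)) {y : YX X b} (hy : ent z.1 (rea X b b) y ≠ 0) :
    y = rea X b b := by
  obtain ⟨g, hg⟩ := end1_cf hy
  have h1 : lab b = g • lab y.1.1 := z.2.1 g _ y hg
  refine eq_rea h y ?_
  rw [← hb g⁻¹, h1, inv_smul_smul]

/-- The entry at the base point. -/
noncomputable def bt (hb : ∀ g : Γ, g • lab b = lab b) (h : ∀ v, v ≠ b → lab v ≠ lab b) :
    U Γ L (cubeSys X b lab) →+* MonoidAlgebra L Γ where
  toFun z := ent z.1 (rea X b b) (rea X b b)
  map_one' := by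
    change ent (1 : RCF (YX X b) (MonoidAlgebra L Γ)) _ _ = 1
    rw [ent_one, if_pos rfl]
  map_mul' z w := by
    change ent (z.1 * w.1) _ _ = _
    rw [ent_mul_col _ _ _ _ {rea X b b} fun v hv => Finset.mem_singleton.2 (end1_col hb h w hv),
      Finset.sum_singleton]
  map_zero' := ent_zero _ _
  map_add' z w := ent_add _ _ _ _

/-- The projection to the base point. -/
noncomputable def eB (X : Med V) (b : V) : RCF (YX X b) (MonoidAlgebra L Γ) :=
  mkK (fun y' y => if y' = rea X b b ∧ y = rea X b b then 1 else 0)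
    (fun y' => (Set.finite_singleton (rea X b b)).subset fun y hy => by
      by_contra hc
      exact hy (if_neg fun h => hc h.2))
    (fun y => (Set.finite_singleton (rea X b b)).subset fun y' hy => by
      by_contra hc
      exact hy (if_neg fun h => hc h.1))

omit [MulAction Γ V] in
theorem ent_eB (y' y : YX X b) : ent (eB X b : RCF (YX X b) (MonoidAlgebra L Γ)) y' y =
    if y' = rea X b b ∧ y = rea X b b then 1 else 0 := ent_mkK _ _ _ _ _

omit [MulAction Γ V] in
theorem ent_eB_mul (z : RCF (YX X b) (MonoidAlgebra L Γ)) (y' y : YX X b) :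
    ent (eB X b * z) y' y = if y' = rea X b b then ent z y' y else 0 := by
  rw [ent_mul_row _ _ _ _ {rea X b b}]
  · rw [Finset.sum_singleton, ent_eB]
    by_cases hy : y' = rea X b b
    · rw [if_pos ⟨hy, rfl⟩, if_pos hy, one_mul, hy]
    · rw [if_neg fun h => hy h.1, if_neg hy, zero_mul]
  · intro v hv
    rw [ent_eB] at hv
    rw [Finset.mem_singleton]
    by_contra hc
    exact hv (if_neg fun h => hc h.2)

omit [MulAction Γ V] in
theorem ent_mul_eB (z : RCF (YX X b) (MonoidAlgebra L Γ)) (y' y : YX X b) :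
    ent (z * eB X b) y' y = if y = rea X b b then ent z y' y else 0 := by
  rw [ent_mul_col _ _ _ _ {rea X b b}]
  · rw [Finset.sum_singleton, ent_eB]
    by_cases hy : y = rea X b b
    · rw [if_pos ⟨rfl, hy⟩, if_pos hy, mul_one, hy]
    · rw [if_neg fun h => hy h.2, if_neg hy, mul_zero]
  · intro v hv
    rw [ent_eB] at hv
    rw [Finset.mem_singleton]
    by_contra hc
    exact hv (if_neg fun h => hc h.1)

omit [MulAction Γ V] in
theorem cf_eB_ne {g : Γ} {y' y : YX X b}
    (h : cf (eB X b : RCF (YX X b) (MonoidAlgebra L Γ)) g y' y ≠ 0) :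
    g = 1 ∧ y' = rea X b b ∧ y = rea X b b := by
  rw [cf, ent_eB] at h
  by_cases hy : y' = rea X b b ∧ y = rea X b b
  · refine ⟨?_, hy⟩
    by_contra hg
    rw [if_pos hy, MonoidAlgebra.one_def, MonoidAlgebra.coeff_single,
      Finsupp.single_apply, if_neg (Ne.symm hg)] at h
    exact h rfl
  · rw [if_neg hy, MonoidAlgebra.coeff_zero] at h
    exact absurd rfl h

theorem eB_mem : (eB X b : RCF (YX X b) (MonoidAlgebra L Γ)) ∈ U Γ L (cubeSys X b lab) := by
  refine ⟨fun g y' y hc => ?_, fun h' => ⟨h', fun g y' y hc => ?_⟩,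
    Submodule.span ℤ {1}, Submodule.fg_span_singleton _, fun g y' y => ?_⟩
  · obtain ⟨rfl, rfl, rfl⟩ := cf_eB_ne hc
    rw [one_smul]
  · obtain ⟨rfl, rfl, rfl⟩ := cf_eB_ne hc
    refine ⟨fun o ho => ?_, fun o ho => ?_⟩
    · rwa [one_smul]
    · rwa [inv_one, one_smul]
  · by_cases hc : cf (eB X b : RCF (YX X b) (MonoidAlgebra L Γ)) g y' y = 0
    · rw [hc]
      exact Submodule.zero_mem _
    · obtain ⟨rfl, rfl, rfl⟩ := cf_eB_ne hc
      rw [cf, ent_eB, if_pos ⟨rfl, rfl⟩, MonoidAlgebra.one_def, MonoidAlgebra.coeff_single,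
        Finsupp.single_eq_same]
      exact Submodule.mem_span_singleton_self 1

/-- The projection as an element of `U`. -/
noncomputable def eU : U Γ L (cubeSys X b lab) := ⟨eB X b, eB_mem⟩

theorem eU_sq : (eU : U Γ L (cubeSys X b lab)) * eU = eU := by
  refine Subtype.ext (ent_ext fun y' y => ?_)
  change ent (eB X b * eB X b) y' y = ent (eB X b) y' y
  rw [ent_eB_mul]
  by_cases hy : y' = rea X b b
  · rw [if_pos hy]
  · rw [if_neg hy, ent_eB, if_neg fun h => hy h.1]

theorem eU_comm (hb : ∀ g : Γ, g • lab b = lab b) (h : ∀ v, v ≠ b → lab v ≠ lab b)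
    (z : U Γ L (cubeSys X b lab)) : z * eU = eU * z := by
  refine Subtype.ext (ent_ext fun y' y => ?_)
  change ent (z.1 * eB X b) y' y = ent (eB X b * z.1) y' y
  rw [ent_eB_mul, ent_mul_eB]
  by_cases hy : y' = rea X b b
  · rw [if_pos hy]
    by_cases hx : y = rea X b b
    · rw [if_pos hx]
    · rw [if_neg hx]
      by_contra hc
      rw [hy] at hc
      exact hx (end1_row hb h z (Ne.symm hc))
  · rw [if_neg hy]
    by_cases hx : y = rea X b b
    · rw [if_pos hx]
      by_contra hc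
      rw [hx] at hc
      exact hy (end1_col hb h z hc)
    · rw [if_neg hx]

/-- The corner of the base point. -/
noncomputable def e1 (hb : ∀ g : Γ, g • lab b = lab b) (h : ∀ v, v ≠ b → lab v ≠ lab b) :
    U Γ L (cubeSys X b lab) →ₙ+* U Γ L (cubeSys X b lab) where
  toFun x := eU * x
  map_mul' x y := by
    rw [mul_assoc, ← mul_assoc x, eU_comm hb h x, mul_assoc eU x, ← mul_assoc eU eU, eU_sq]
  map_zero' := mul_zero _
  map_add' x y := mul_add _ _ _

/-- The complementary corner. -/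
noncomputable def e2 (hb : ∀ g : Γ, g • lab b = lab b) (h : ∀ v, v ≠ b → lab v ≠ lab b) :
    U Γ L (cubeSys X b lab) →ₙ+* U Γ L (cubeSys X b lab) where
  toFun x := x - eU * x
  map_mul' x y := by
    have h1 : x * (eU * y) = eU * (x * y) := by rw [← mul_assoc, eU_comm hb h x, mul_assoc]
    have h2 : eU * x * (eU * y) = eU * (x * y) := by
      rw [mul_assoc, h1, ← mul_assoc eU eU, eU_sq]
    rw [sub_mul, mul_sub, mul_sub, h1, h2, mul_assoc, sub_self, sub_zero]
  map_zero' := by rw [mul_zero, sub_zero]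
  map_add' x y := by
    rw [mul_add]
    abel

theorem e1_e2 (hb : ∀ g : Γ, g • lab b = lab b) (h : ∀ v, v ≠ b → lab v ≠ lab b) {n : Type}
    [Fintype n] [DecidableEq n] (z : Matrix n n (U Γ L (cubeSys X b lab))) :
    Ex (e1 hb h) z * Ex (e2 hb h) z = z := by
  have h1 : (z - 1).map (e1 hb h) + (z - 1).map (e2 hb h) = z - 1 := by
    ext1 p q
    change eU * (z - 1) p q + ((z - 1) p q - eU * (z - 1) p q) = (z - 1) p q
    abel
  have h2 : (z - 1).map (e1 hb h) * (z - 1).map (e2 hb h) = 0 := by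
    ext1 p q
    rw [mul_apply, Matrix.zero_apply]
    refine Finset.sum_eq_zero fun l _ => ?_
    change eU * (z - 1) p l * ((z - 1) l q - eU * (z - 1) l q) = 0
    have h3 : eU * (z - 1) p l * (eU * (z - 1) l q) = eU * ((z - 1) p l * (z - 1) l q) := by
      rw [mul_assoc, ← mul_assoc ((z - 1) p l), eU_comm hb h ((z - 1) p l), mul_assoc eU,
        ← mul_assoc eU eU, eU_sq]
    rw [mul_sub, h3, mul_assoc, sub_self]
  rw [Ex, Ex, add_mul, one_mul, mul_add, mul_one, h2, add_zero, add_assoc,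
    add_comm ((z - 1).map (e2 hb h)), h1, add_sub_cancel]

theorem rcf_e1 (hb : ∀ g : Γ, g • lab b = lab b) (h : ∀ v, v ≠ b → lab v ≠ lab b) {n : Type}
    [DecidableEq n] (z : Matrix n n (U Γ L (cubeSys X b lab))) (p q : n) :
    rcf (Ex (e1 hb h) z) p q = (1 : Matrix n n (RCF (YX X b) (MonoidAlgebra L Γ))) p q +
      eB X b * ((z - 1) p q).1 := by
  rw [← rcf_one_apply (S := cubeSys X b lab)]
  rfl

theorem rcf_e2 (hb : ∀ g : Γ, g • lab b = lab b) (h : ∀ v, v ≠ b → lab v ≠ lab b) {n : Type}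
    [DecidableEq n] (z : Matrix n n (U Γ L (cubeSys X b lab))) (p q : n) :
    rcf (Ex (e2 hb h) z) p q = (1 : Matrix n n (RCF (YX X b) (MonoidAlgebra L Γ))) p q +
      (((z - 1) p q).1 - eB X b * ((z - 1) p q).1) := by
  rw [← rcf_one_apply (S := cubeSys X b lab)]
  rfl

theorem spp_e1 (hb : ∀ g : Γ, g • lab b = lab b) (h : ∀ v, v ≠ b → lab v ≠ lab b) {n : Type}
    [DecidableEq n] (z : Matrix n n (U Γ L (cubeSys X b lab))) :
    Spp {rea X b b} (rcf (Ex (e1 hb h) z)) := by
  intro p q y' y hc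
  rw [rcf_e1, add_sub_cancel_left, ent_eB_mul] at hc
  by_cases hy : y' = rea X b b
  · rw [if_pos hy, hy] at hc
    exact ⟨Finset.mem_singleton.2 (end1_row hb h _ hc), Finset.mem_singleton.2 hy⟩
  · rw [if_neg hy] at hc
    exact absurd rfl hc

theorem spp_e2 (hb : ∀ g : Γ, g • lab b = lab b) (h : ∀ v, v ≠ b → lab v ≠ lab b) {n : Type}
    [DecidableEq n] (z : Matrix n n (U Γ L (cubeSys X b lab))) {s : Finset (YX X b)}
    (hs : Spp s (rcf z)) : Spp (s.erase (rea X b b)) (rcf (Ex (e2 hb h) z)) := by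
  intro p q y' y hc
  rw [rcf_e2, add_sub_cancel_left, ent_sub, ent_eB_mul] at hc
  by_cases hy : y' = rea X b b
  · rw [if_pos hy, sub_self] at hc
    exact absurd rfl hc
  · rw [if_neg hy, sub_zero] at hc
    have h1 : ent (rcf z p q - (1 : Matrix n n (RCF (YX X b) (MonoidAlgebra L Γ))) p q) y' y ≠ 0 := by
      rw [← rcf_one_apply (S := cubeSys X b lab)]
      exact hc
    obtain ⟨h2, h3⟩ := hs p q y' y h1
    refine ⟨Finset.mem_erase.2 ⟨fun hx => ?_, h2⟩, Finset.mem_erase.2 ⟨hy, h3⟩⟩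
    rw [hx] at hc
    exact hy (end1_col hb h _ hc)

/-- The entry at the base point of a monomial matrix is killed. -/
theorem mon_bt [IsDomain L] {K : Type} [CommGroup K] {κ : K1Fun (MonoidAlgebra L Γ) K}
    (hκ : KU κ) (hb : ∀ g : Γ, g • lab b = lab b) (h : ∀ v, v ≠ b → lab v ≠ lab b) {n : Type}
    [Fintype n] [DecidableEq n] (w : Matrix n n (U Γ L (cubeSys X b lab))) (hw : Mon (rcf w)) :
    κ.f (w.map (bt hb h)) = 1 := by
  obtain ⟨σ, g, hm⟩ := mon_iff.1 hw
  have hs0 : ∀ x : Γ, (MonoidAlgebra.single x (1 : L)) ≠ 0 := by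
    intro x h0
    have h1 := congrArg (fun f : MonoidAlgebra L Γ => f.coeff x) h0
    simp only [MonoidAlgebra.coeff_single, MonoidAlgebra.coeff_zero, Finsupp.single_eq_same] at h1
    exact one_ne_zero h1
  have h1 : ∀ j : n, (σ (j, rea X b b)).2 = rea X b b := by
    intro j
    refine end1_col hb h (w (σ (j, rea X b b)).1 j) ?_
    have h2 := (hm (σ (j, rea X b b)).1 j (σ (j, rea X b b)).2 (rea X b b)).1 rfl
    change ent (rcf w (σ (j, rea X b b)).1 j) _ _ ≠ 0
    rw [h2]
    exact hs0 _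
  have h2 : ∀ i : n, (σ.symm (i, rea X b b)).2 = rea X b b := by
    intro i
    refine end1_row hb h (w i (σ.symm (i, rea X b b)).1) ?_
    have h3 := (hm i (σ.symm (i, rea X b b)).1 (rea X b b) (σ.symm (i, rea X b b)).2).1
      (by rw [Prod.mk.eta, Equiv.apply_symm_apply])
    change ent (rcf w i (σ.symm (i, rea X b b)).1) _ _ ≠ 0
    rw [h3]
    exact hs0 _
  let τ : Equiv.Perm n :=
    { toFun := fun j => (σ (j, rea X b b)).1
      invFun := fun i => (σ.symm (i, rea X b b)).1
      left_inv := fun j => by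
        have h3 : ((σ (j, rea X b b)).1, rea X b b) = σ (j, rea X b b) := Prod.ext rfl (h1 j).symm
        change (σ.symm ((σ (j, rea X b b)).1, rea X b b)).1 = j
        rw [h3, Equiv.symm_apply_apply]
      right_inv := fun i => by
        have h3 : ((σ.symm (i, rea X b b)).1, rea X b b) = σ.symm (i, rea X b b) :=
          Prod.ext rfl (h2 i).symm
        change (σ ((σ.symm (i, rea X b b)).1, rea X b b)).1 = i
        rw [h3, Equiv.apply_symm_apply] }
  have e : w.map (bt hb h) = (1 : Matrix n n (MonoidAlgebra L Γ)).submatrix τ.symm id *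
      diagonal fun p => MonoidAlgebra.single (g (p, rea X b b)) (((1 : Lˣ) : Lˣ) : L) := by
    refine Matrix.ext fun p q => ?_
    rw [mul_diagonal, submatrix_apply, id, one_apply]
    change ent (rcf w p q) (rea X b b) (rea X b b) = _
    have key : τ.symm p = q ↔ σ (q, rea X b b) = (p, rea X b b) := by
      rw [Equiv.symm_apply_eq]
      constructor
      · exact fun h3 => Prod.ext h3.symm (h1 q)
      · exact fun h3 => (congrArg Prod.fst h3).symm
    by_cases hpq : τ.symm p = q
    · rw [if_pos hpq, one_mul, (hm p q _ _).1 (key.1 hpq), Units.val_one]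
    · rw [if_neg hpq, zero_mul, (hm p q _ _).2 fun h' => hpq (key.2 h')]
  have h3 := f_diag hκ (fun p : n => g (p, rea X b b)) (fun _ => (1 : Lˣ))
  rw [e, κ.mul _ _ (isUnit_perm _) h3.2, h3.1, mul_one]
  exact kperm_of_ku hκ (n := n) τ.symm

end

end Pool.Agent.CC
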