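import Pool.Agent.Lib.MP_8f66f0_al_CC.End.FinSpec
import Pool.Agent.Lib.MP_8f66f0_al_CC.Geo.Cub
import Pool.Agent.Lib.MP_8f66f0_al_Tree.Closed

/-!
# Theorem CC: the final induction

Induction on the dimension for the class of all groups which act without inversions on a CAT(0) cube
complex with all vertex stabilizers in `Hd KS`.
-/

set_option autoImplicit false

namespace Pool.Agent.CC

open Pool.Agent.TreeC Pool.Agent.Hier Pool.Agent.WaldL
open scoped Pointwise

theorem sbg_ks : Sbg (Hd KS) := by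
  intro G H _ _ f hf h K
  exact closed.isoP _ _ (Subgroup.equivMapOfInjective K f hf).symm (h (K.map f))

theorem ks_of_hd {G : Type} [Group G] (h : Hd KS G) : KS G :=
  closed.isoP _ _ Subgroup.topEquiv (h ⊤)

theorem abs_lab {G V : Type} [Group G] [MulAction G V] {X : Med V} (A : Act G X) (b v : V) :
    A.abs (X.lab b v) = A.abs (X.D b v) := by
  have h1 : ∀ h : Set V, h ∈ X.lab b v ↔ h ∈ X.D b v ∨ hᶜ ∈ X.D b v := fun h => Iff.rfl
  ext h
  unfold Act.abs
  rw [Set.mem_ofPred_eq, Set.mem_ofPred_eq, h1, h1, compl_compl]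
  tauto

/-- One step of the induction. -/
theorem ks_step (hkk : S_kk) (N : ℕ)
    (ih : ∀ (G : Type) [Group G], CCN (Hd KS) N G → Hd KS G) (G : Type) [Group G]
    (hG : CCN (Hd KS) (N + 1) G) : KS G := by
  obtain ⟨V, _, X, ⟨b⟩, ⟨A⟩, hN, hst⟩ := hG
  have hss : SS G := by
    have : Nonempty V := ⟨b⟩
    refine ss_of_med A hN fun C v hC => ?_
    have hle : C ≤ MulAction.stabilizer G v := fun g hg => hC g hg
    exact (ks_of_hd (sbg_ks C (MulAction.stabilizer G v) (Subgroup.inclusion hle)
      (Subgroup.inclusion_injective _) (hst v))).2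
  refine ⟨hkk V G X b (N + 1) A.smul_mem hN hss hst
    (fun v F hF hne => ih _ (CCN.stab' sbg_ks A hN hst hF hne)) fun v hv => ?_, hss⟩
  have hle : MulAction.stabilizer G (X.lab b v) ≤ MulAction.stabilizer G (A.abs (X.D b v)) := by
    rw [← abs_lab]
    exact A.stab_le _
  exact ih _ (CCN.of_injective sbg_ks (Subgroup.inclusion hle) (Subgroup.inclusion_injective _)
    (CCN.stab sbg_ks A hN hst (b := b) (v := v) subset_rfl (Med.D_nonempty hv)))

theorem hd_of_ccn (hkk : S_kk) :
    ∀ (N : ℕ) (G : Type) [Group G], CCN (Hd KS) N G → Hd KS G := by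
  intro N
  induction N with
  | zero => exact fun G _ hG => CCN.zero sbg_ks hG
  | succ N ih =>
    intro G _ hG H
    exact ks_step hkk N ih H (CCN.of_injective sbg_ks H.subtype H.subtype_injective hG)

/-- THEOREM CC, from `S_kk`. -/
theorem CC (hkk : S_kk) : S_CC := by
  intro Γ V _ _ hne X A N hN hst
  exact hd_of_ccn hkk N Γ ⟨V, inferInstance, X, hne, ⟨A⟩, hN, hst⟩

end Pool.Agent.CC
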