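import Pool.Agent.Lib.MP_8f66f0_al_CC.End.FinSpec

/-!
# Theorem CC: forgetting the labels (`S_fl`)
-/

set_option autoImplicit false

namespace Pool.Agent.CC

open Pool.Agent.Wald Pool.Agent.TQ Matrix
open scoped Pointwise Polynomial Classical

section

variable {V C Γ k : Type} [Group Γ] [MulAction Γ V] [MulAction Γ C] [CommRing k] (X : Med V) (b : V)
  (lab : V → C)

theorem U_cube_le : U Γ k (cubeSys X b lab) ≤ U Γ k (SX X b) := fun _ hz =>
  ⟨fun _ _ _ _ => rfl, hz.2.1, hz.2.2⟩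

end

theorem fl : S_fl := by
  intro V C Γ k _ _ _ _ X b lab
  refine ⟨Subring.inclusion (U_cube_le X b lab), fun z => rfl, fun z => Iff.rfl, ?_⟩
  rintro n _ _ w ⟨r, h1, h2, h3, h4⟩
  exact ⟨r, h1.map (Subring.inclusion (U_cube_le X b lab)).mapMatrix, h2, h3, h4⟩

end Pool.Agent.CC
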