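import Pool.Agent.Lib.MP_8f66f0_al_CC.End.Spec
import Pool.Agent.Lib.MP_8f66f0_al_CC.Sys.Flas

/-! # Theorem CC: the rings of exact systems have no invariants -/

set_option autoImplicit false

namespace Pool.Agent.CC

theorem flqThm : S_flq := by
  intro O Y C Γ k _ _ _ _ _ S f hf hE
  exact flq_of_flas (flas S hE hf)

end Pool.Agent.CC
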