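import Pool.Agent.Lib.MP_8f66f0_al_CC.End.Spec
import Pool.Agent.Lib.MP_8f66f0_al_CC.End.Ext1

/-!
# Theorem CC: the invariant of the finite matrices

The invariant of the finite matrices over `U Γ L S` is the restriction of the invariant `S_fin0` of the
finite matrices over the ring of all row and column finite matrices. It kills the finite matrices of the
derived systems (`S_lab0` with the labels `(F, lab)`) and the finite monomial matrices (`S_mon0`).
-/

set_option autoImplicit false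

namespace Pool.Agent.CC

open Pool.Agent.Wald Pool.Agent.TQ Pool.Agent.Ind Pool.Agent.WaldL Pool.Agent.FH Matrix
open scoped Pointwise

section

variable {Y A : Type} [Ring A]

/-- A finite support of a matrix which is `1` up to a finite matrix. -/
private theorem ini_spp {n : Type} [Finite n] [DecidableEq n] (z : Matrix n n (RCF Y A))
    (hz : Cg (Jfin Y A) z 1) : ∃ s : Finset Y, Spp s z := by
  classical
  have h1 : (⋃ p : n × n, ({q : Y × Y | ent (z p.1 p.2 - (1 : Matrix n n (RCF Y A)) p.1 p.2)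
      q.1 q.2 ≠ 0} : Set (Y × Y))).Finite :=
    Set.finite_iUnion fun p => (mem_Jfin Y A _).1 (hz p.1 p.2)
  refine ⟨(h1.toFinset.image Prod.fst) ∪ (h1.toFinset.image Prod.snd), fun i j y' y h => ?_⟩
  have h2 : (y', y) ∈ h1.toFinset := by
    rw [Set.Finite.mem_toFinset, Set.mem_iUnion]
    exact ⟨(i, j), h⟩
  exact ⟨Finset.mem_union_right _ (Finset.mem_image_of_mem Prod.snd h2),
    Finset.mem_union_left _ (Finset.mem_image_of_mem Prod.fst h2)⟩

end

section

variable {O Y C Γ k : Type} [DecidableEq O] [Group Γ] [MulAction Γ O] [MulAction Γ C] [CommRing k]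
variable {S : Sys O Y C}

private theorem ini_rcf_one {n : Type} [DecidableEq n] :
    rcf (1 : Matrix n n (U Γ k S)) = 1 :=
  Matrix.map_one _ rfl rfl

private theorem ini_rcf_mul {n : Type} [Fintype n] (a b : Matrix n n (U Γ k S)) :
    rcf (a * b) = rcf a * rcf b :=
  Matrix.map_mul (L := a) (M := b) (f := (U Γ k S).subtype)

private theorem ini_unit {n : Type} [Fintype n] [DecidableEq n] {a : Matrix n n (U Γ k S)}
    (ha : IsUnit a) : IsUnit (rcf a) :=
  ha.map (U Γ k S).subtype.mapMatrix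

private theorem ini_cg (hJ : S_J0) {m n : Type} {a b : Matrix m n (U Γ k S)}
    (h : Cg (J Γ k S 0) a b) : Cg (Jfin Y (MonoidAlgebra k Γ)) (rcf a) (rcf b) :=
  fun i j => (hJ O Y C Γ k S (a i j - b i j)).1 (h i j)

/-- The restriction of an invariant of the finite matrices. -/
private theorem ini_res (hJ : S_J0) {K : Type} [CommGroup K]
    (κ : KR (RCF Y (MonoidAlgebra k Γ)) (Jfin Y (MonoidAlgebra k Γ)) K) :
    ∃ κ0 : KR (U Γ k S) (J Γ k S 0) K, ∀ (n : Type) [Fintype n] [DecidableEq n]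
      (z : Matrix n n (U Γ k S)), κ0.f z = κ.f (rcf z) := by
  refine ⟨⟨fun {n} _ _ z => κ.f (rcf z), ?_, ?_, ?_⟩, fun n _ _ z => rfl⟩
  · intro n _ _ a b ha hb ha' hb'
    have h1 := ini_cg hJ ha'
    have h2 := ini_cg hJ hb'
    rw [ini_rcf_one] at h1 h2
    rw [ini_rcf_mul]
    exact κ.mul _ _ (ini_unit ha) (ini_unit hb) h1 h2
  · intro n m _ _ _ _ e a ha ha'
    have h1 := ini_cg hJ ha'
    rw [ini_rcf_one] at h1
    exact κ.reindex e (rcf a) (ini_unit ha) h1
  · intro n m _ _ _ _ a b d ha hd ha' hb' hd'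
    have h1 := ini_cg hJ ha'
    have h2 := ini_cg hJ hb'
    have h3 := ini_cg hJ hd'
    rw [ini_rcf_one] at h1 h3
    have h4 : rcf (fromBlocks a b 0 d) = fromBlocks (rcf a) (rcf b) 0 (rcf d) := by
      ext i j
      rcases i with i | i <;> rcases j with j | j <;> rfl
    have h5 : (0 : Matrix n m (U Γ k S)).map Subtype.val = (0 : Matrix n m (RCF Y (MonoidAlgebra k Γ))) := by
      ext i j
      rfl
    change κ.f (rcf (fromBlocks a b 0 d)) = κ.f (rcf a) * κ.f (rcf d)
    rw [h4]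
    exact κ.tri _ _ _ (ini_unit ha) (ini_unit hd) h1 (h5 ▸ h2) h3

/-- The coefficients of `1 + ε (z - 1)`. -/
private theorem ini_cf {f : ℕ} {h : O →₀ ℕ} {n : Type} [DecidableEq n]
    (z : Matrix n n (U Γ k (S.der f h))) {i j : n} {g : Γ} {y' y : Y}
    (hc : cf (rcf (Ex (eps Γ k S f h) z) i j) g y' y ≠ 0) :
    (g = 1 ∧ y' = y) ∨ ∃ v' v : {y : Y // (S.F h y).card = f}, v'.1 = y' ∧ v.1 = y ∧
      cf (z i j - (1 : Matrix n n (U Γ k (S.der f h))) i j).1 g v' v ≠ 0 := by
  have h1 : rcf (Ex (eps Γ k S f h) z) i j = ((1 : Matrix n n (U Γ k S)) i j).1 +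
      push Subtype.val_injective (z i j - (1 : Matrix n n (U Γ k (S.der f h))) i j).1 := rfl
  rw [h1, cf_add] at hc
  rcases ne_or_ne_of_add hc with hc | hc
  · left
    by_cases hij : i = j
    · subst hij
      rw [one_apply_eq] at hc
      exact cf_one_ne hc
    · rw [one_apply_ne hij] at hc
      exact absurd (cf_zero g y' y) hc
  · right
    obtain ⟨v', v, e1, e2, e3⟩ := cf_push_ne _ hc
    exact ⟨v', v, e1, e2, e3⟩

/-- The labels `(F, lab)` are respected. -/
private theorem ini_lab {f : ℕ} {h : O →₀ ℕ} {n : Type} [DecidableEq n]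
    (z : Matrix n n (U Γ k (S.der f h))) {i j : n} {g : Γ} {y' y : Y}
    (hc : cf (rcf (Ex (eps Γ k S f h) z) i j) g y' y ≠ 0) :
    (S.F h y', S.lab y') = g • (S.F h y, S.lab y) := by
  rcases ini_cf z hc with ⟨rfl, rfl⟩ | ⟨v', v, rfl, rfl, hd⟩
  · rw [one_smul]
  · exact (z i j - (1 : Matrix n n (U Γ k (S.der f h))) i j).2.1 g v' v hd

/-- The support. -/
private theorem ini_supp [DecidableEq Y] {f : ℕ} {h : O →₀ ℕ} {n : Type} [DecidableEq n]
    (z : Matrix n n (U Γ k (S.der f h))) (s : Finset {y : Y // (S.F h y).card = f})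
    (hs : Spp s (rcf z)) : Spp (s.image Subtype.val) (rcf (Ex (eps Γ k S f h) z)) := by
  intro i j y' y hc
  have h1 : rcf (Ex (eps Γ k S f h) z) i j - (1 : Matrix n n (RCF Y (MonoidAlgebra k Γ))) i j =
      push Subtype.val_injective (rcf z i j -
        (1 : Matrix n n (RCF {y : Y // (S.F h y).card = f} (MonoidAlgebra k Γ))) i j) := by
    have e1 : rcf (Ex (eps Γ k S f h) z) i j = ((1 : Matrix n n (U Γ k S)) i j).1 +
      push Subtype.val_injective (z i j - (1 : Matrix n n (U Γ k (S.der f h))) i j).1 := rfl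
    have e2 : ((1 : Matrix n n (U Γ k S)) i j).1 =
        (1 : Matrix n n (RCF Y (MonoidAlgebra k Γ))) i j := by
      rw [← ini_rcf_one (S := S)]
      rfl
    have e3 : (z i j - (1 : Matrix n n (U Γ k (S.der f h))) i j).1 = rcf z i j -
        (1 : Matrix n n (RCF {y : Y // (S.F h y).card = f} (MonoidAlgebra k Γ))) i j := by
      rw [← ini_rcf_one (S := S.der f h)]
      rfl
    rw [e1, e2, e3, add_sub_cancel_left]
  rw [h1] at hc
  obtain ⟨v', v, rfl, rfl, hd⟩ := ent_push_ne _ hc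
  have := hs i j v' v hd
  exact ⟨Finset.mem_image_of_mem _ this.1, Finset.mem_image_of_mem _ this.2⟩

end

/-- The invariant of the finite matrices. -/
theorem ini (h1 : S_fin0) (h2 : S_J0) (h3 : S_lab0) (h4 : S_mon0) : S_ini := by
  classical
  intro O Y C Γ L K _ _ _ _ _ _ _ S κ hκ hL hst
  obtain ⟨κ1, hκ1⟩ := h1 Y (MonoidAlgebra L Γ) K κ
  obtain ⟨κ0, hκ0⟩ := ini_res (S := S) h2 κ1
  refine ⟨κ0, ⟨?_, ?_⟩, ?_⟩
  · intro f h hf n _ _ z hz hz'
    have hc := ini_cg h2 hz'
    rw [ini_rcf_one] at hc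
    obtain ⟨s, hs⟩ := ini_spp (rcf z) hc
    have hs' := ini_supp (S := S) z s hs
    rw [hκ0, hκ1 n _ _ (ini_unit (XE.ex_unit _ hz)) hs']
    obtain ⟨z', e1, e2⟩ := XE.ex_inv hz
    refine h3 Y L Γ K (Finset O × C) hL κ hκ n _ (fun y => (S.F h y, S.lab y)) _
      (rcf (Ex (eps Γ L S f h) z')) ?_ ?_ hs' (fun i j g y' y hc => ini_lab z hc)
      (fun i j g y' y hc => ini_lab z' hc) ?_
    · rw [← ini_rcf_mul, XE.ex_inv_mul _ e1, ini_rcf_one]
    · rw [← ini_rcf_mul, XE.ex_inv_mul _ e2, ini_rcf_one]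
    · intro y hy
      obtain ⟨v, -, rfl⟩ := Finset.mem_image.1 hy
      refine hst v.1 (S.F h v.1) ?_ (S.F_anti (fun _ => Nat.zero_le _) v.1) _ ?_ ?_
      · rw [← Finset.card_pos, v.2]
        exact hf
      · intro g hg
        exact congrArg Prod.fst (MulAction.mem_stabilizer_iff.1 hg)
      · intro g hg
        exact congrArg Prod.snd (MulAction.mem_stabilizer_iff.1 hg)
  · intro n _ _ z hz hz' hm
    have hc := ini_cg h2 hz'
    rw [ini_rcf_one] at hc
    obtain ⟨s, hs⟩ := ini_spp (rcf z) hc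
    rw [hκ0, hκ1 n _ s (ini_unit hz) hs]
    exact h4 Y L Γ K κ hκ n s (rcf z) hm hs
  · intro n _ _ _ z s hz hs
    rw [hκ0, hκ1 n _ s (ini_unit hz) hs]

end Pool.Agent.CC
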